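import Pool.Agent.Helper8.PW.LDef

/-!
# Level of distribution of invariant sets for all moduli: the intermediate statements

* `FourierDecayQ` (FDq): the decay of the exponential sums of `F w`, `sg w = S`, at the fractions with the denominator `q m ^ N`, `q ≤ exp (κ N)`.
* `MixQ` (MIXq): the distribution modulo `q m ^ (S + k)` of `F w`, `sg w = S`, is close to the lift of the distribution modulo `m ^ S`,
  for `q m ^ k ≤ exp (κ S)`.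
* `ClassFlowQ` (CFq): the integers `n ≡ b (mod q m ^ k)` of `[X, 2X)` are sent by `T^[t]` to every set `G` in the same proportion for all `b`,
  `q m ^ k ≤ exp (κ t)`.
* `LevelQ`, `LevelF` (LDq): level of distribution of the invariant sets.

Here `q` is coprime to `d` and to `g`, the greatest common divisor of `r 1 (d - 1)` and of all `r j - r 1`, `1 ≤ j < d`.
-/

set_option autoImplicit false

namespace Pool.Agent.Helper8.LQ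

open Pool.Agent.Helper68.Moeller Pool.Agent.Helper52.Tao Pool.Agent.Helper8.ND Pool.Agent.Helper8.PW

/-- `p` divides `r 1 (d - 1)` and all `r j - r 1`. -/
def Bad (d : ℕ) (r : ℤ → ℤ) (p : ℕ) : Prop :=
  (p : ℤ) ∣ r 1 * ((d : ℤ) - 1) ∧ ∀ j : ℤ, 0 < j → j < (d : ℤ) → (p : ℤ) ∣ r j - r 1

/-- The admissible `q`. -/
def Ad (d : ℕ) (r : ℤ → ℤ) (q : ℕ) : Prop := 0 < q ∧ Nat.Coprime q d ∧ ∀ p : ℕ, p.Prime → p ∣ q → ¬ Bad d r p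

/-- (FDq) Decay of the exponential sums. -/
def FourierDecayQ (d m : ℕ) (r : ℤ → ℤ) : Prop :=
  ∀ A : ℝ, ∃ κ C : ℝ, 0 < κ ∧ κ < 1 ∧ 0 < C ∧ ∀ q N : ℕ, Ad d r q → 1 ≤ N → Real.log q ≤ κ * N →
    ∀ e : ℤ, ((q * m ^ N : ℕ) : ℤ) ∣ (d : ℤ) * e - 1 → ∀ ζ : ℤ, ¬ ((q * m : ℕ) : ℤ) ∣ ζ → ∀ t S : ℕ, (1 - κ) * N ≤ (S : ℝ) →
      ‖Gs d m r e t 0 S ((ζ : ℝ) / ((q * m ^ N : ℕ) : ℝ))‖ ≤ C * (d : ℝ) ^ t * (N : ℝ) ^ (-A)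

/-- The `L¹` distance between the distribution modulo `q m ^ N` of the end points (for the words of length `t` with `S` non-zero digits)
and the lift of the distribution modulo `m ^ k`. -/
noncomputable def OscQ (d m : ℕ) (r : ℤ → ℤ) (e : ℤ) (t S N k q : ℕ) : ℝ :=
  ∑ X ∈ Finset.range (q * m ^ N),
    |cW d t (fun w => sg w = S ∧ ((q * m ^ N : ℕ) : ℤ) ∣ (X : ℤ) - F m r e w) -
      cW d t (fun w => sg w = S ∧ (m : ℤ) ^ k ∣ (X : ℤ) - F m r e w) / ((q * m ^ (N - k) : ℕ) : ℝ)|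

/-- (MIXq) One step of the mixing. -/
def MixQ (d m : ℕ) (r : ℤ → ℤ) : Prop :=
  ∀ A : ℝ, ∃ κ C : ℝ, 0 < κ ∧ 0 < C ∧ ∀ S k q : ℕ, Ad d r q → 1 ≤ S → Real.log ((q * m ^ k : ℕ) : ℝ) ≤ κ * S →
    ∀ e : ℤ, ((q * m ^ (S + k) : ℕ) : ℤ) ∣ (d : ℤ) * e - 1 → ∀ t : ℕ,
      OscQ d m r e t S (S + k) S q ≤ C * (d : ℝ) ^ t * (S : ℝ) ^ (-A)

/-- (CFq) The classes modulo `q m ^ k`: for every set `G` of integers. -/
def ClassFlowQ (d m : ℕ) (r : ℤ → ℤ) : Prop :=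
  ∀ A : ℝ, ∃ κ C : ℝ, 0 < κ ∧ 0 < C ∧ ∀ t : ℕ, 1 ≤ t → ∀ k q : ℕ, Ad d r q → Real.log ((q * m ^ k : ℕ) : ℝ) ≤ κ * t → ∀ b : ℤ,
    ∀ a : ℝ, C * ((d : ℝ) * m) ^ (8 * t) ≤ a → ∀ G : Set ℤ,
      |fdc {n | (T d m r)^[t] n ∈ G} (q * m ^ k) b a - fd {n | (T d m r)^[t] n ∈ G} a| ≤
        C * (t : ℝ) ^ (-A)

/-- (LDq) The classes modulo `q m ^ k ≤ x ^ θ`, for the sets which are invariant beyond `z`. -/
def LevelQ (d m : ℕ) (r : ℤ → ℤ) : Prop :=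
  ∀ A : ℝ, ∃ θ C : ℝ, 0 < θ ∧ 0 < C ∧ ∀ z : ℝ, ∃ X : ℝ, ∀ G : Set ℤ, TInv d m r G z →
    ∀ x : ℝ, X ≤ x → ∀ k q : ℕ, Ad d r q → ((q * m ^ k : ℕ) : ℝ) ≤ x ^ θ → ∀ b : ℤ,
      |fdc G (q * m ^ k) b x - fd G x| ≤ C * (Real.log x) ^ (-A)

/-- (LDq) Level of distribution `θ`: all classes modulo all `d ^ i * (q * m ^ j) ≤ x ^ θ`, in `[x, 2x)`, uniformly in the set. -/
def LevelF (d m : ℕ) (r : ℤ → ℤ) : Prop :=
  ∃ θ : ℝ, 0 < θ ∧ ∀ z ε : ℝ, 0 < ε → ∃ X : ℝ, ∀ G : Set ℤ, TInv d m r G z → ∃ δ : ℝ, 0 ≤ δ ∧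
    ∀ x : ℝ, X ≤ x → |fd G x - δ| ≤ ε ∧ ∀ i j q : ℕ, Ad d r q → ((d ^ i * (q * m ^ j) : ℕ) : ℝ) ≤ x ^ θ →
      ∀ b : ℤ, |fdc G (d ^ i * (q * m ^ j)) b x - δ| ≤ ε

end Pool.Agent.Helper8.LQ
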