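import Pool.Agent.Helper52.Tao.Defs

/-!
# The geometry of the black points, for general phases

The arguments of `Helper52.Tao.G1`, `Helper52.Tao.G2` for a family of phases `X s k` modulo `1` with
`D X s (k + 1) ≡ X s k` and `X (s + 1) k ≡ m X s k`. The case `X s k = g / (D ^ (k + 1) m ^ (N - s))` (the inverse of
`D` taken modulo `m ^ N`) is the one of `Helper52.Tao`.
-/

set_option autoImplicit false

namespace Pool.Agent.Helper8.LQ

open Pool.Agent.Helper68.Moeller Pool.Agent.Helper52.Tao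

/-- Congruence modulo `1`. -/
def eqZ (x y : ℝ) : Prop := ∃ n : ℤ, x - y = n

theorem eqZ.symm {x y : ℝ} (h : eqZ x y) : eqZ y x := by
  obtain ⟨n, hn⟩ := h
  exact ⟨-n, by push_cast; linarith⟩

theorem eqZ.trans {x y z : ℝ} (h : eqZ x y) (h' : eqZ y z) : eqZ x z := by
  obtain ⟨n, hn⟩ := h
  obtain ⟨k, hk⟩ := h'
  exact ⟨n + k, by push_cast; linarith⟩

theorem eqZ.mul {x y : ℝ} (h : eqZ x y) (a : ℕ) : eqZ ((a : ℝ) * x) (a * y) := by
  obtain ⟨n, hn⟩ := h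
  exact ⟨a * n, by push_cast; rw [← hn]; ring⟩

/-- The phases. -/
structure Ph (D m : ℕ) (X : ℕ → ℕ → ℝ) : Prop where
  hk : ∀ s k, eqZ ((D : ℝ) * X s (k + 1)) (X s k)
  hs : ∀ s k, eqZ (X (s + 1) k) ((m : ℝ) * X s k)

/-- `y` shows that the point `(s, k)` is black of depth `h`. -/
def DW (X : ℕ → ℕ → ℝ) (D K₀ h s k : ℕ) (y : ℝ) : Prop :=
  eqZ (X s (k + h)) y ∧ (K₀ : ℝ) * (D : ℝ) ^ h * |y| ≤ 1

/-- The point `(s, k)` is black of depth `h`. -/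
def Deep (X : ℕ → ℕ → ℝ) (D K₀ h s k : ℕ) : Prop := ∃ y : ℝ, DW X D K₀ h s k y

/-- White points. -/
def White (X : ℕ → ℕ → ℝ) (D K₀ : ℕ) (s k : ℕ) : Prop := ¬ Deep X D K₀ 0 s k

variable {D m K₀ : ℕ} {X : ℕ → ℕ → ℝ}

theorem Ph.hk' (hX : Ph D m X) (s k j : ℕ) : eqZ ((D : ℝ) ^ j * X s (k + j)) (X s k) := by
  induction j with
  | zero => exact ⟨0, by simp⟩
  | succ j ih =>
    have h1 := (hX.hk s (k + j)).mul (D ^ j)
    have h2 : ((D ^ j : ℕ) : ℝ) * ((D : ℝ) * X s (k + j + 1)) = (D : ℝ) ^ (j + 1) * X s (k + (j + 1)) := by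
      push_cast
      rw [pow_succ, ← add_assoc]
      ring
    rw [h2] at h1
    push_cast at h1
    exact h1.trans ih

theorem Ph.hs' (hX : Ph D m X) (s k j : ℕ) : eqZ (X (s + j) k) ((m : ℝ) ^ j * X s k) := by
  induction j with
  | zero => exact ⟨0, by simp⟩
  | succ j ih =>
    have h1 := ih.mul m
    have h2 : (m : ℝ) * ((m : ℝ) ^ j * X s k) = (m : ℝ) ^ (j + 1) * X s k := by ring
    rw [h2] at h1
    exact (hX.hs (s + j) k).trans h1

theorem int_eq_zero {E : ℤ} (h : |(E : ℝ)| < 1) : E = 0 := by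
  have h1 : |E| < 1 := by exact_mod_cast h
  exact Int.abs_lt_one_iff.1 h1

theorem deep_run (hX : Ph D m X) (hm : 2 ≤ m) (hD : 2 ≤ D) (hco : Nat.Coprime m D)
    (hK : m ^ 2 + D < K₀) {p : ℕ → ℕ} (hp : ∀ i, p i ≤ p (i + 1) ∧ p (i + 1) ≤ p i + 2) {h k : ℕ}
    (hb : ∀ i ≤ h, Deep X D K₀ 0 (p (k + i)) (k + i)) :
    Deep X D K₀ h (p k) k := by
  induction h generalizing k with
  | zero => simpa using hb 0 le_rfl
  | succ h ih =>
    obtain ⟨y, ⟨a₁, hy1⟩, hy2⟩ : Deep X D K₀ h (p (k + 1)) (k + 1) := by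
      refine ih (k := k + 1) ?_
      intro i hi
      have h1 := hb (i + 1) (by omega)
      have : k + 1 + i = k + (i + 1) := by omega
      rw [this]; exact h1
    obtain ⟨z, ⟨a₃, hz1⟩, hz2⟩ := hb 0 (by omega)
    simp only [add_zero, pow_zero, mul_one] at hz1 hz2
    obtain ⟨j, hj⟩ := Nat.exists_eq_add_of_le (hp k).1
    have hj2 : j ≤ 2 := by have := (hp k).2; omega
    obtain ⟨a₀, h0⟩ := hX.hs' (p k) (k + 1 + h) j
    rw [← hj] at h0
    obtain ⟨a₂, h2⟩ := hX.hk' (p k) k (h + 1)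
    have hkk : k + (h + 1) = k + 1 + h := by omega
    rw [hkk] at h2
    obtain ⟨x, hx⟩ : ∃ x : ℝ, x = X (p k) (k + 1 + h) := ⟨_, rfl⟩
    rw [← hx] at h0 h2
    -- `m ^ j x = y + n₁`
    have e1 : (m : ℝ) ^ j * x = y + ((a₁ - a₀ : ℤ) : ℝ) := by push_cast; linarith
    have e2 : (D : ℝ) ^ (h + 1) * x = z + ((a₂ + a₃ : ℤ) : ℝ) := by push_cast; linarith
    set n₁ : ℤ := a₁ - a₀ with hn₁
    set n₂ : ℤ := a₂ + a₃ with hn₂
    have e3 : (D : ℝ) ^ (h + 1) * y - (m : ℝ) ^ j * z = (((m : ℤ) ^ j * n₂ - (D : ℤ) ^ (h + 1) * n₁ : ℤ) : ℝ) := by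
      push_cast
      have e4 : (D : ℝ) ^ (h + 1) * ((m : ℝ) ^ j * x) = (m : ℝ) ^ j * ((D : ℝ) ^ (h + 1) * x) := by ring
      rw [e1, e2] at e4
      linarith
    have hK0 : (0 : ℝ) < K₀ := by
      have : 0 < K₀ := by omega
      exact_mod_cast this
    have hDr : (0 : ℝ) < D := by exact_mod_cast (by omega : 0 < D)
    have hmr : (1 : ℝ) ≤ m := by exact_mod_cast (by omega : 1 ≤ m)
    have hmj : (m : ℝ) ^ j ≤ (m : ℝ) ^ 2 := pow_le_pow_right₀ hmr hj2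
    have hE : |(((m : ℤ) ^ j * n₂ - (D : ℤ) ^ (h + 1) * n₁ : ℤ) : ℝ)| < 1 := by
      rw [← e3]
      have h4 : (K₀ : ℝ) * |(D : ℝ) ^ (h + 1) * y - (m : ℝ) ^ j * z| < K₀ * 1 := by
        calc (K₀ : ℝ) * |(D : ℝ) ^ (h + 1) * y - (m : ℝ) ^ j * z|
            ≤ (K₀ : ℝ) * (|(D : ℝ) ^ (h + 1) * y| + |(m : ℝ) ^ j * z|) :=
              mul_le_mul_of_nonneg_left (abs_sub _ _) hK0.le
          _ = D * ((K₀ : ℝ) * (D : ℝ) ^ h * |y|) + (m : ℝ) ^ j * ((K₀ : ℝ) * |z|) := by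
              rw [abs_mul, abs_mul, abs_of_nonneg (by positivity : (0 : ℝ) ≤ (D : ℝ) ^ (h + 1)),
                abs_of_nonneg (by positivity : (0 : ℝ) ≤ (m : ℝ) ^ j)]
              ring
          _ ≤ D * 1 + (m : ℝ) ^ 2 * 1 := by
              refine add_le_add (mul_le_mul_of_nonneg_left hy2 hDr.le) ?_
              exact mul_le_mul hmj hz2 (by positivity) (by positivity)
          _ < K₀ * 1 := by
              have : ((m ^ 2 + D : ℕ) : ℝ) < K₀ := by exact_mod_cast hK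
              push_cast at this
              linarith
      exact lt_of_mul_lt_mul_left h4 hK0.le
    have hE0 := int_eq_zero hE
    rw [hE0, Int.cast_zero] at e3
    -- divisibility
    have hdv : (m : ℤ) ^ j ∣ n₁ := by
      have h5 : (m : ℤ) ^ j ∣ (D : ℤ) ^ (h + 1) * n₁ := ⟨n₂, by linarith⟩
      have h6 : IsCoprime ((m : ℤ) ^ j) ((D : ℤ) ^ (h + 1)) :=
        IsCoprime.pow (Nat.isCoprime_iff_coprime.2 hco)
      exact h6.dvd_of_dvd_mul_left h5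
    obtain ⟨n₄, hn₄⟩ := hdv
    have hmj0 : (0 : ℝ) < (m : ℝ) ^ j := by positivity
    refine ⟨y / (m : ℝ) ^ j, ⟨n₄, ?_⟩, ?_⟩
    · rw [hkk, ← hx]
      have h6 : (n₁ : ℝ) = (m : ℝ) ^ j * n₄ := by rw [hn₄]; push_cast; ring
      field_simp
      linarith
    · have h7 : (D : ℝ) ^ (h + 1) * y = (m : ℝ) ^ j * z := by linarith
      have h8 : (K₀ : ℝ) * (D : ℝ) ^ (h + 1) * |y / (m : ℝ) ^ j| = K₀ * |z| := by
        rw [abs_div, abs_of_pos hmj0]
        have h9 : (D : ℝ) ^ (h + 1) * |y| = (m : ℝ) ^ j * |z| := by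
          rw [← abs_of_nonneg (by positivity : (0 : ℝ) ≤ (D : ℝ) ^ (h + 1)), ← abs_mul, h7, abs_mul,
            abs_of_pos hmj0]
        field_simp
        linarith
      rw [h8]
      exact hz2

theorem DW_unique (hX : Ph D m X) {h s s' k : ℕ} (hss : s ≤ s')
    (h1 : m ^ (s' - s) + 1 < K₀ * D ^ h) {y y' : ℝ}
    (hy : DW X D K₀ h s k y) (hy' : DW X D K₀ h s' k y') : y' = (m : ℝ) ^ (s' - s) * y := by
  obtain ⟨⟨a, hy1⟩, hy2⟩ := hy
  obtain ⟨⟨b, hy1'⟩, hy2'⟩ := hy'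
  obtain ⟨j, rfl⟩ := Nat.exists_eq_add_of_le hss
  rw [Nat.add_sub_cancel_left] at h1 ⊢
  obtain ⟨c, hc⟩ := hX.hs' s (k + h) j
  have e : y' - (m : ℝ) ^ j * y = ((c - b + (m : ℤ) ^ j * a : ℤ) : ℝ) := by
    push_cast
    rw [← hc, ← hy1, ← hy1']
    ring
  have hKD : (0 : ℝ) < (K₀ : ℝ) * (D : ℝ) ^ h := by
    have : 0 < K₀ * D ^ h := by omega
    exact_mod_cast this
  have h4 : ((K₀ : ℝ) * (D : ℝ) ^ h) * |((c - b + (m : ℤ) ^ j * a : ℤ) : ℝ)| < ((K₀ : ℝ) * (D : ℝ) ^ h) * 1 := by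
    rw [← e]
    calc ((K₀ : ℝ) * (D : ℝ) ^ h) * |y' - (m : ℝ) ^ j * y|
        ≤ ((K₀ : ℝ) * (D : ℝ) ^ h) * (|y'| + |(m : ℝ) ^ j * y|) :=
          mul_le_mul_of_nonneg_left (abs_sub _ _) hKD.le
      _ = (K₀ : ℝ) * (D : ℝ) ^ h * |y'| + (m : ℝ) ^ j * ((K₀ : ℝ) * (D : ℝ) ^ h * |y|) := by
          rw [abs_mul, abs_of_nonneg (by positivity : (0 : ℝ) ≤ (m : ℝ) ^ j)]
          ring
      _ ≤ 1 + (m : ℝ) ^ j * 1 := by gcongr
      _ < ((K₀ : ℝ) * (D : ℝ) ^ h) * 1 := by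
          have : ((m ^ j + 1 : ℕ) : ℝ) < ((K₀ * D ^ h : ℕ) : ℝ) := by exact_mod_cast h1
          push_cast at this
          linarith
  have h5 := int_eq_zero (lt_of_mul_lt_mul_left h4 hKD.le)
  rw [h5, Int.cast_zero] at e
  linarith

theorem deep_cluster (hX : Ph D m X) (hm : 2 ≤ m) (hD : 2 ≤ D) (hco : Nat.Coprime m D)
    (hmD : m ≤ D) (hDm : D < m ^ 2) (hK : 2 ≤ K₀) {b s₀ S₁ : ℕ} {z : ℝ}
    (hz : ¬ eqZ (X s₀ (b + 1)) (z / D)) (hz1 : eqZ (X s₀ b) z)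
    (hz2 : ∀ j, s₀ + j ≤ S₁ → 2 * ((m : ℝ) ^ j * |z|) ≤ 1) {f h s s' : ℕ} (hh : 1 ≤ h) (h0 : s₀ ≤ s)
    (hss : s ≤ s') (h1 : s' ≤ S₁) (hs : Deep X D K₀ h s (b + 1 + f))
    (hs' : Deep X D K₀ h s' (b + 1 + f)) :
    s' - s ≤ 2 * f + 1 ∨ h ≤ s' - s := by
  obtain ⟨y, hy⟩ := hs
  obtain ⟨y', hy'⟩ := hs'
  by_cases hlt : h ≤ s' - s
  · exact Or.inr hlt
  left
  push Not at hlt
  -- the two witnesses
  have hyy : y' = (m : ℝ) ^ (s' - s) * y := by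
    refine DW_unique hX hss ?_ hy hy'
    have a1 : m ^ (s' - s) ≤ D ^ (h - 1) := by
      calc m ^ (s' - s) ≤ m ^ (h - 1) := Nat.pow_le_pow_right (by omega) (by omega)
        _ ≤ D ^ (h - 1) := Nat.pow_le_pow_left hmD _
    have a2 : D ^ h = D * D ^ (h - 1) := by
      rw [← pow_succ']; congr 1; omega
    have a3 : 1 ≤ D ^ (h - 1) := Nat.one_le_pow _ _ (by omega)
    calc m ^ (s' - s) + 1 ≤ D ^ (h - 1) + D ^ (h - 1) := add_le_add a1 a3
      _ < 2 * (2 * D ^ (h - 1)) := by omega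
      _ ≤ K₀ * (D * D ^ (h - 1)) := Nat.mul_le_mul hK (Nat.mul_le_mul hD le_rfl)
      _ = K₀ * D ^ h := by rw [a2]
  obtain ⟨⟨a₁, hy1⟩, hy2⟩ := hy
  obtain ⟨-, hy2'⟩ := hy'
  obtain ⟨j, rfl⟩ := Nat.exists_eq_add_of_le h0
  have hDr : (0 : ℝ) < D := by exact_mod_cast (by omega : 0 < D)
  have hmr : (1 : ℝ) ≤ m := by exact_mod_cast (by omega : 1 ≤ m)
  have hmj : (0 : ℝ) < (m : ℝ) ^ j := by positivity
  have hK0 : (2 : ℝ) ≤ K₀ := by exact_mod_cast hK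
  have hzj := hz2 j (by omega)
  -- the row `b + 1`
  obtain ⟨a₂, h2⟩ := hX.hs' s₀ (b + 1) j
  obtain ⟨a₃, h3⟩ := hX.hk' (s₀ + j) (b + 1) (f + h)
  have hrow : b + 1 + (f + h) = b + 1 + f + h := by ring
  rw [hrow] at h3
  obtain ⟨a₄, h4⟩ := hX.hk s₀ b
  obtain ⟨a₅, h5⟩ := hz1
  obtain ⟨x, hx⟩ : ∃ x : ℝ, x = X s₀ (b + 1) := ⟨_, rfl⟩
  rw [← hx] at h2 h4 hz
  -- `D x = z + i`
  have e1 : (D : ℝ) * x = z + ((a₄ + a₅ : ℤ) : ℝ) := by push_cast; linarith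
  set i : ℤ := a₄ + a₅ with hi
  -- `m ^ j x ≡ D ^ (f + h) y`
  have e2 : (m : ℝ) ^ j * x = (D : ℝ) ^ (f + h) * y + (((D : ℤ) ^ (f + h) * a₁ - a₃ - a₂ : ℤ) : ℝ) := by
    push_cast
    have : X (s₀ + j) (b + 1 + f + h) = y + a₁ := by linarith
    rw [this] at h3
    linarith
  set n : ℤ := (D : ℤ) ^ (f + h) * a₁ - a₃ - a₂ with hn
  -- `m ^ j z - D ^ (f + 1 + h) y` is an integer
  have e3 : (m : ℝ) ^ j * z - (D : ℝ) ^ (f + 1 + h) * y = (((D : ℤ) * n - (m : ℤ) ^ j * i : ℤ) : ℝ) := by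
    have e4 : (D : ℝ) * ((m : ℝ) ^ j * x) = (m : ℝ) ^ j * ((D : ℝ) * x) := by ring
    rw [e1, e2] at e4
    have e5 : (D : ℝ) ^ (f + 1 + h) = D * (D : ℝ) ^ (f + h) := by rw [← pow_succ']; congr 1; ring
    rw [e5]
    push_cast
    linarith
  have hne : (D : ℤ) * n - (m : ℤ) ^ j * i ≠ 0 := by
    intro h0'
    apply hz
    have h6 : (D : ℤ) ∣ (m : ℤ) ^ j * i := ⟨n, by linarith⟩
    have h7 : IsCoprime (D : ℤ) ((m : ℤ) ^ j) :=
      (Nat.isCoprime_iff_coprime.2 hco).symm.pow_right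
    obtain ⟨i', hi'⟩ := h7.dvd_of_dvd_mul_left h6
    refine ⟨i', ?_⟩
    have h8 : (i : ℝ) = D * i' := by rw [hi']; push_cast; ring
    rw [h8] at e1
    field_simp
    linarith
  have hle : (1 : ℝ) ≤ |(m : ℝ) ^ j * z - (D : ℝ) ^ (f + 1 + h) * y| := by
    rw [e3]
    have := Int.one_le_abs hne
    exact_mod_cast this
  have hle2 : (1 : ℝ) ≤ (m : ℝ) ^ j * |z| + (D : ℝ) ^ (f + 1 + h) * |y| := by
    refine hle.trans ((abs_sub _ _).trans (le_of_eq ?_))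
    rw [abs_mul, abs_mul, abs_of_nonneg (by positivity : (0 : ℝ) ≤ (D : ℝ) ^ (f + 1 + h)), abs_of_pos hmj]
  have hle3 : (1 : ℝ) ≤ 2 * ((D : ℝ) ^ (f + 1 + h) * |y|) := by linarith
  have habs : |y'| = (m : ℝ) ^ (s' - (s₀ + j)) * |y| := by
    rw [hyy, abs_mul, abs_of_nonneg (by positivity : (0 : ℝ) ≤ (m : ℝ) ^ (s' - (s₀ + j)))]
  have h6 : (m : ℝ) ^ (s' - (s₀ + j)) ≤ (D : ℝ) ^ (f + 1) := by
    have hDf : (D : ℝ) ^ (f + 1 + h) = (D : ℝ) ^ (f + 1) * (D : ℝ) ^ h := by rw [pow_add]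
    rw [habs] at hy2'
    rw [hDf] at hle3
    obtain ⟨u, hu⟩ : ∃ u : ℝ, u = (D : ℝ) ^ h * |y| := ⟨_, rfl⟩
    have hu0 : 0 ≤ u := by rw [hu]; positivity
    have q1 : (K₀ : ℝ) * ((m : ℝ) ^ (s' - (s₀ + j)) * u) ≤ 1 := by rw [hu]; linarith
    have q2 : 1 ≤ 2 * ((D : ℝ) ^ (f + 1) * u) := by rw [hu]; linarith
    have hupos : 0 < u := by
      rcases hu0.lt_or_eq with h | h
      · exact h
      · rw [← h] at q2
        norm_num at q2
    have q3 : 2 * ((m : ℝ) ^ (s' - (s₀ + j)) * u) ≤ 2 * ((D : ℝ) ^ (f + 1) * u) := by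
      have : 2 * ((m : ℝ) ^ (s' - (s₀ + j)) * u) ≤ K₀ * ((m : ℝ) ^ (s' - (s₀ + j)) * u) :=
        mul_le_mul_of_nonneg_right hK0 (by positivity)
      linarith
    have q4 : (m : ℝ) ^ (s' - (s₀ + j)) * u ≤ (D : ℝ) ^ (f + 1) * u := by linarith
    exact le_of_mul_le_mul_right q4 hupos
  have h7 : m ^ (s' - (s₀ + j)) ≤ D ^ (f + 1) := by exact_mod_cast h6
  have h8 : m ^ (s' - (s₀ + j)) < m ^ (2 * (f + 1)) := by
    calc m ^ (s' - (s₀ + j)) ≤ D ^ (f + 1) := h7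
      _ < (m ^ 2) ^ (f + 1) := Nat.pow_lt_pow_left hDm (by omega)
      _ = m ^ (2 * (f + 1)) := by rw [← pow_mul]
  have h9 := (Nat.pow_lt_pow_iff_right (by omega : 1 < m)).1 h8
  omega

open Classical in
/-- Few white points: a window without white points. -/
theorem exists_deep_window (hX : Ph D m X) (hm : 2 ≤ m) (hD : 2 ≤ D)
    (hco : Nat.Coprime m D) (hK : m ^ 2 + D < K₀) {p : ℕ → ℕ}
    (hp : ∀ i, p i ≤ p (i + 1) ∧ p (i + 1) ≤ p i + 2) {L w₀ δ lam : ℕ} (hlam : 1 ≤ lam)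
    (hL : δ + w₀ * lam ≤ L)
    (hw : ((Finset.range L).filter (fun i => White X D K₀ (p i) i)).card < w₀) :
    ∃ i < w₀, Deep X D K₀ (lam - 1) (p (δ + i * lam)) (δ + i * lam) := by
  by_contra hcon
  push Not at hcon
  have h3 : (Finset.range w₀).card ≤
      ((Finset.range L).filter (fun i => White X D K₀ (p i) i)).card := by
    refine card_le_of_disj _ _ (fun i x => δ + i * lam ≤ x ∧ x < δ + (i + 1) * lam) ?_ ?_
    · intro i hi
      rw [Finset.mem_range] at hi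
      by_contra hno
      push Not at hno
      have hle : δ + (i + 1) * lam ≤ L := by
        have : (i + 1) * lam ≤ w₀ * lam := Nat.mul_le_mul_right lam hi
        omega
      have hexp : (i + 1) * lam = i * lam + lam := by ring
      refine hcon i hi (deep_run hX hm hD hco hK hp fun j hj => ?_)
      by_contra hdeep
      have hmem : δ + i * lam + j ∈
          (Finset.range L).filter (fun i => White X D K₀ (p i) i) := by
        rw [Finset.mem_filter, Finset.mem_range]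
        exact ⟨by omega, hdeep⟩
      have h4 := hno _ hmem (by omega)
      omega
    · rintro i j x ⟨h5, h6⟩ ⟨h7, h8⟩
      rcases lt_trichotomy i j with hij | hij | hij
      · have : (i + 1) * lam ≤ j * lam := Nat.mul_le_mul_right lam hij
        omega
      · exact hij
      · have : (j + 1) * lam ≤ i * lam := Nat.mul_le_mul_right lam hij
        omega
  rw [Finset.card_range] at h3
  omega
where
  card_le_of_disj (T S : Finset ℕ) (R : ℕ → ℕ → Prop)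
      (h1 : ∀ i ∈ T, ∃ x ∈ S, R i x) (h2 : ∀ i j x, R i x → R j x → i = j) : T.card ≤ S.card := by
    choose! g hg using h1
    exact Finset.card_le_card_of_injOn g (fun i hi => (hg i hi).1)
      (fun i hi j hj hij => h2 i j (g i) (hg i hi).2 (by
        have := (hg j hj).2
        rwa [← hij] at this))

open Classical in
/-- Few white points: most scales see a deep point. -/
theorem few_white_scales (hX : Ph D m X) (hm : 2 ≤ m) (hD : 2 ≤ D)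
    (hco : Nat.Coprime m D) (hK : m ^ 2 + D < K₀) {p : ℕ → ℕ}
    (hp : ∀ i, p i ≤ p (i + 1) ∧ p (i + 1) ≤ p i + 2) {L w₀ b I Q K : ℕ} (hKQ : K + 1 < Q)
    (hQ : 1 ≤ K) (hL : b + 1 + Q ^ I ≤ L)
    (hw : ((Finset.range L).filter (fun i => White X D K₀ (p i) i)).card < w₀) :
    ((Finset.range I).filter (fun l => ¬ ∃ s, p (b + 1) ≤ s ∧ s ≤ p (b + 1) + 2 * Q ^ l ∧
      Deep X D K₀ (K * Q ^ l) s (b + 1 + Q ^ l))).card < w₀ := by
  have hmono : Monotone p := monotone_nat_of_le_succ fun i => (hp i).1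
  have hQ0 : 0 < Q := by omega
  have hpow : ∀ l, (K + 1) * Q ^ l < Q ^ (l + 1) := by
    intro l
    rw [pow_succ, mul_comm (Q ^ l) Q]
    exact Nat.mul_lt_mul_of_pos_right hKQ (pow_pos hQ0 l)
  have hgrow : ∀ n, p (b + 1 + n) ≤ p (b + 1) + 2 * n := by
    intro n
    induction n with
    | zero => simp
    | succ n ih =>
      have := (hp (b + 1 + n)).2
      rw [show b + 1 + (n + 1) = b + 1 + n + 1 by ring]
      omega
  refine lt_of_le_of_lt (exists_deep_window.card_le_of_disj _ _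
    (fun l x => b + 1 + Q ^ l ≤ x ∧ x < b + 1 + Q ^ (l + 1)) ?_ ?_) hw
  · intro l hl
    rw [Finset.mem_filter, Finset.mem_range] at hl
    obtain ⟨hlI, hno⟩ := hl
    by_contra hno2
    push Not at hno2
    have hle : Q ^ (l + 1) ≤ Q ^ I := Nat.pow_le_pow_right hQ0 hlI
    have hpl := hpow l
    have hexp : (K + 1) * Q ^ l = K * Q ^ l + Q ^ l := by ring
    refine hno ⟨p (b + 1 + Q ^ l), hmono (by omega), hgrow _, deep_run hX hm hD hco hK hp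
      fun j hj => ?_⟩
    by_contra hdeep
    have hmem : b + 1 + Q ^ l + j ∈
        (Finset.range L).filter (fun i => White X D K₀ (p i) i) := by
      rw [Finset.mem_filter, Finset.mem_range]
      exact ⟨by omega, hdeep⟩
    have h4 := hno2 _ hmem (by omega)
    omega
  · rintro i j x ⟨h5, h6⟩ ⟨h7, h8⟩
    rcases lt_trichotomy i j with hij | hij | hij
    · have : Q ^ (i + 1) ≤ Q ^ j := Nat.pow_le_pow_right hQ0 hij
      omega
    · exact hij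
    · have : Q ^ (j + 1) ≤ Q ^ i := Nat.pow_le_pow_right hQ0 hij
      omega

end Pool.Agent.Helper8.LQ
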