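import Pool.Agent.Helper52.Tao.R1
import Pool.Agent.Helper8.LQ.Geo

/-!
The bound of the exponential sums by the weighted path counts, for an arbitrary modulus (`Helper52.Tao.R1`).
-/

set_option autoImplicit false

namespace Pool.Agent.Helper8.LQ

open Pool.Agent.Helper68.Moeller
open Pool.Agent.Helper52.Tao hiding DW Deep White white_gain Gs_le_Mj

/-- The phases of the frequency `ζ / M`; `ρ = r 1 (d - 1)`. -/
noncomputable def Fr (m M : ℕ) (ρ e ζ : ℤ) (s k : ℕ) : ℝ :=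
  (ζ : ℝ) * ρ * (e : ℝ) ^ (2 * (k + 1)) * (m : ℝ) ^ s / (M : ℝ)

theorem ph_Fr {d m M : ℕ} (hM : 0 < M) (ρ ζ : ℤ) {e : ℤ} (he : (M : ℤ) ∣ (d : ℤ) * e - 1) :
    Ph (d ^ 2) m (Fr m M ρ e ζ) := by
  have hMr : (0 : ℝ) < M := by exact_mod_cast hM
  constructor
  · intro s k
    obtain ⟨c, hc⟩ : (M : ℤ) ∣ ((d : ℤ) * e) ^ 2 - 1 := by
      refine he.trans ?_
      simpa using sub_dvd_pow_sub_pow ((d : ℤ) * e) 1 2
    refine ⟨ζ * ρ * e ^ (2 * (k + 1)) * (m : ℤ) ^ s * c, ?_⟩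
    unfold Fr
    have h1 : ((d : ℝ) * e) ^ 2 - 1 = M * c := by exact_mod_cast hc
    push_cast
    have h2 : (d : ℝ) ^ 2 * ((ζ : ℝ) * ρ * (e : ℝ) ^ (2 * (k + 1 + 1)) * (m : ℝ) ^ s / (M : ℝ)) -
        (ζ : ℝ) * ρ * (e : ℝ) ^ (2 * (k + 1)) * (m : ℝ) ^ s / (M : ℝ) =
        (ζ : ℝ) * ρ * (e : ℝ) ^ (2 * (k + 1)) * (m : ℝ) ^ s * ((((d : ℝ) * e) ^ 2 - 1) / M) := by
      rw [show 2 * (k + 1 + 1) = 2 * (k + 1) + 2 by ring, pow_add]
      field_simp
    rw [h2, h1]
    field_simp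
  · intro s k
    refine ⟨0, ?_⟩
    unfold Fr
    rw [pow_succ]
    push_cast
    ring

theorem cos_gain {K₀ : ℕ} (hK : 2 ≤ K₀) {A : ℝ} (h : ∀ y : ℝ, eqZ A y → 1 < (K₀ : ℝ) * |y|) :
    ‖1 + ex A‖ ≤ 2 * Real.cos (Real.pi / K₀) := by
  obtain ⟨z, hz⟩ : ∃ z : ℝ, z = A - round A := ⟨_, rfl⟩
  have h1 : eqZ A z := ⟨round A, by rw [hz]; ring⟩
  have h2 : |z| ≤ 1 / 2 := by rw [hz]; exact abs_sub_round A
  have h3 := h z h1
  have h4 : ex A = ex z := by
    have : A = z + (round A : ℤ) := by rw [hz]; ring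
    rw [this, ex_add_int]
  rw [h4, norm_one_add_ex]
  have hK' : (0 : ℝ) < K₀ := by positivity
  have hθ : |Real.cos (Real.pi * z)| = Real.cos (Real.pi * |z|) := by
    have h1 : Real.cos (Real.pi * z) = Real.cos (Real.pi * |z|) := by
      rw [← Real.cos_abs (Real.pi * z), abs_mul, abs_of_pos Real.pi_pos]
    rw [h1]
    apply abs_of_nonneg
    apply Real.cos_nonneg_of_neg_pi_div_two_le_of_le
    · have : 0 ≤ Real.pi * |z| := by positivity
      linarith [Real.pi_pos]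
    · nlinarith [Real.pi_pos]
  rw [hθ]
  have h5 : 1 / (K₀ : ℝ) ≤ |z| := by
    rw [div_le_iff₀ hK']
    linarith
  have h6 : Real.cos (Real.pi * |z|) ≤ Real.cos (Real.pi / K₀) := by
    apply Real.cos_le_cos_of_nonneg_of_le_pi
    · positivity
    · nlinarith [Real.pi_pos]
    · calc Real.pi / K₀ = Real.pi * (1 / K₀) := by ring
        _ ≤ _ := mul_le_mul_of_nonneg_left h5 Real.pi_pos.le
  linarith

/-- The differences of the contributions of the words `0 1`, `1 0` (`j = 0`) and `j 0`, `1 0`. -/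
def rho (d : ℕ) (r : ℤ → ℤ) (j : ℕ) : ℤ := if j = 0 then r 1 * ((d : ℤ) - 1) else r j - r 1

/-- `g` is an integral combination of the differences, with small coefficients. -/
def Gen (d : ℕ) (r : ℤ → ℤ) (g : ℤ) (K₀ K₁ : ℕ) : Prop :=
  ∃ c : ℕ → ℤ, g = ∑ j ∈ Finset.range d, c j * rho d r j ∧ (K₀ : ℝ) * ∑ j ∈ Finset.range d, |(c j : ℝ)| ≤ K₁

theorem eqZ.sum {ι : Type} (s : Finset ι) {f g : ι → ℝ} (h : ∀ i ∈ s, eqZ (f i) (g i)) : eqZ (∑ i ∈ s, f i) (∑ i ∈ s, g i) := by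
  classical
  induction s using Finset.induction_on with
  | empty => exact ⟨0, by simp⟩
  | insert i s hi ih =>
    obtain ⟨n, hn⟩ := h i (Finset.mem_insert_self i s)
    obtain ⟨k, hk⟩ := ih fun j hj => h j (Finset.mem_insert_of_mem hj)
    rw [Finset.sum_insert hi, Finset.sum_insert hi]
    exact ⟨n + k, by push_cast; linarith⟩

theorem eqZ.zmul {x y : ℝ} (h : eqZ x y) (a : ℤ) : eqZ ((a : ℝ) * x) (a * y) := by
  obtain ⟨n, hn⟩ := h
  exact ⟨a * n, by push_cast; rw [← hn]; ring⟩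

/-- If all the differences of the phases are small then the point is black. -/
theorem black_of {d m M K₀ K₁ : ℕ} (hK₁ : 0 < K₁) {r : ℤ → ℤ} {g e ζ : ℤ} (hg : Gen d r g K₀ K₁) {s k : ℕ}
    (h : ∀ j < d, ∃ y : ℝ, eqZ (Fr m M (rho d r j) e ζ s k) y ∧ (K₁ : ℝ) * |y| ≤ 1) :
    ¬ White (Fr m M g e ζ) (d ^ 2) K₀ s k := by
  obtain ⟨c, hgc, hc⟩ := hg
  choose! y hy using h
  rw [White, not_not]
  refine ⟨∑ j ∈ Finset.range d, (c j : ℝ) * y j, ?_, ?_⟩
  · have e1 : Fr m M g e ζ s (k + 0) = ∑ j ∈ Finset.range d, (c j : ℝ) * Fr m M (rho d r j) e ζ s k := by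
      rw [add_zero]
      unfold Fr
      rw [hgc]
      push_cast
      rw [Finset.mul_sum, Finset.sum_mul, Finset.sum_mul, Finset.sum_div]
      exact Finset.sum_congr rfl fun j _ => by ring
    rw [e1]
    exact eqZ.sum _ fun j hj => (hy j (Finset.mem_range.1 hj)).1.zmul (c j)
  · have hK : (0 : ℝ) < K₁ := by exact_mod_cast hK₁
    rw [pow_zero, mul_one]
    have h1 : |∑ j ∈ Finset.range d, (c j : ℝ) * y j| ≤ (∑ j ∈ Finset.range d, |(c j : ℝ)|) / K₁ := by
      refine (Finset.abs_sum_le_sum_abs _ _).trans ?_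
      rw [Finset.sum_div]
      refine Finset.sum_le_sum fun j hj => ?_
      rw [abs_mul, div_eq_mul_inv]
      refine mul_le_mul_of_nonneg_left ?_ (abs_nonneg _)
      have h2 := (hy j (Finset.mem_range.1 hj)).2
      rw [← one_div, le_div_iff₀ hK]
      linarith
    calc (K₀ : ℝ) * |∑ j ∈ Finset.range d, (c j : ℝ) * y j| ≤ K₀ * ((∑ j ∈ Finset.range d, |(c j : ℝ)|) / K₁) :=
          mul_le_mul_of_nonneg_left h1 (Nat.cast_nonneg _)
      _ = (K₀ * ∑ j ∈ Finset.range d, |(c j : ℝ)|) / K₁ := by ring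
      _ ≤ 1 := by
          rw [div_le_one hK]
          exact hc

theorem pair_close {K : ℕ} (hK : 2 ≤ K) {A B : ℝ} (h : 2 * Real.cos (Real.pi / K) < ‖ex A + ex B‖) :
    ∃ y : ℝ, eqZ (A - B) y ∧ (K : ℝ) * |y| ≤ 1 := by
  by_contra hcon
  push Not at hcon
  have h1 := cos_gain hK (A := A - B) hcon
  have h2 : ex A + ex B = ex B * (1 + ex (A - B)) := by
    rw [mul_add, mul_one, ← ex_add, add_sub_cancel, add_comm]
  rw [h2, norm_mul, norm_ex, one_mul] at h
  linarith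

/-- A sum of unit vectors two of which are not close. -/
theorem pair_sum {s : Finset ℕ} {f : ℕ → ℂ} (hf : ∀ i ∈ s, ‖f i‖ ≤ 1) {i j : ℕ} (hi : i ∈ s) (hj : j ∈ s) (hij : i ≠ j)
    {b : ℝ} (h : ‖f i + f j‖ ≤ b) : ‖∑ a ∈ s, f a‖ ≤ b + (s.card - 2) := by
  have h1 : ∑ a ∈ s, f a = (f i + f j) + ∑ a ∈ (s.erase i).erase j, f a := by
    rw [← Finset.add_sum_erase s f hi, ← Finset.add_sum_erase (s.erase i) f (Finset.mem_erase.2 ⟨hij.symm, hj⟩)]
    ring
  have h2 : ‖∑ a ∈ (s.erase i).erase j, f a‖ ≤ s.card - 2 := by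
    refine (norm_sum_le _ _).trans ?_
    refine (Finset.sum_le_card_nsmul _ _ 1 fun a ha => hf a (Finset.mem_of_mem_erase (Finset.mem_of_mem_erase ha))).trans ?_
    rw [nsmul_eq_mul, mul_one, Finset.card_erase_of_mem (Finset.mem_erase.2 ⟨hij.symm, hj⟩), Finset.card_erase_of_mem hi]
    have h3 : 2 ≤ s.card := by
      have h4 : ({i, j} : Finset ℕ) ⊆ s := by
        intro a ha
        rcases Finset.mem_insert.1 ha with h5 | h5
        · rw [h5]; exact hi
        · rw [Finset.mem_singleton.1 h5]; exact hj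
      have h6 := Finset.card_le_card h4
      rwa [Finset.card_pair hij] at h6
    rw [Nat.cast_sub (by omega), Nat.cast_sub (by omega)]
    push_cast
    linarith
  rw [h1]
  exact (norm_add_le _ _).trans (add_le_add h h2)

/-- The gain at a white point. -/
theorem white_gain {d m M K₀ K₁ : ℕ} (hd : 2 ≤ d) (hM : 0 < M) (hK : 2 ≤ K₁) {r : ℤ → ℤ} {g e ζ : ℤ}
    (hg : Gen d r g K₀ K₁) (he : (M : ℤ) ∣ (d : ℤ) * e - 1) {s k : ℕ}
    (hW : White (Fr m M g e ζ) (d ^ 2) K₀ s k) {x : ℝ}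
    (hx : x = (ζ : ℝ) * (e : ℝ) ^ (2 * k) * (m : ℝ) ^ s / (M : ℝ)) :
    ‖∑ a ∈ Finset.Ico 1 d, (ex (x * (e : ℝ) ^ 2 * r a) + ex (x * e * r a))‖ ≤
      2 * ((d : ℝ) - 1) - (2 - 2 * Real.cos (Real.pi / K₁)) := by
  have hMr : (0 : ℝ) < M := by exact_mod_cast hM
  have hdr : (2 : ℝ) ≤ d := by exact_mod_cast hd
  have hcard : ((Finset.Ico 1 d).card : ℝ) = d - 1 := by
    rw [Nat.card_Ico, Nat.cast_sub (by omega)]
    push_cast
    ring
  have hle1 : ∀ f : ℕ → ℝ, ‖∑ a ∈ Finset.Ico 1 d, ex (f a)‖ ≤ (d : ℝ) - 1 := by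
    intro f
    refine (norm_sum_le _ _).trans ((Finset.sum_le_card_nsmul _ _ 1 fun a _ => ?_).trans ?_)
    · rw [norm_ex]
    · rw [nsmul_eq_mul, mul_one, hcard]
  have h1mem : 1 ∈ Finset.Ico 1 d := Finset.mem_Ico.2 ⟨le_rfl, by omega⟩
  by_contra hcon
  push Not at hcon
  refine black_of (by omega) hg (fun j hj => ?_) hW
  rcases Nat.eq_zero_or_pos j with rfl | hj0
  · -- the words `0 1`, `1 0`
    have h1 : 2 * Real.cos (Real.pi / K₁) < ‖ex (x * e * r (1 : ℕ)) + ex (x * (e : ℝ) ^ 2 * r (1 : ℕ))‖ := by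
      by_contra h2
      push Not at h2
      rw [add_comm (ex (x * e * r (1 : ℕ)))] at h2
      have h3 : ‖∑ a ∈ Finset.Ico 1 d, (ex (x * (e : ℝ) ^ 2 * r a) + ex (x * e * r a))‖ ≤
          2 * Real.cos (Real.pi / K₁) + 2 * ((d : ℝ) - 2) := by
        rw [Finset.sum_eq_sum_Ico_succ_bot (by omega : 1 < d)]
        refine (norm_add_le _ _).trans (add_le_add h2 ?_)
        refine (norm_sum_le _ _).trans ?_
        refine (Finset.sum_le_card_nsmul _ _ 2 fun a _ => ?_).trans ?_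
        · refine (norm_add_le _ _).trans ?_
          rw [norm_ex, norm_ex]
          norm_num
        · rw [Nat.card_Ico, nsmul_eq_mul, Nat.cast_sub (by omega)]
          push_cast
          linarith
      linarith
    obtain ⟨y, hy1, hy2⟩ := pair_close hK h1
    refine ⟨y, ?_, hy2⟩
    refine eqZ.trans ?_ hy1
    obtain ⟨c, hc⟩ := he
    have hcr : (d : ℝ) * e - 1 = M * c := by exact_mod_cast hc
    refine ⟨ζ * r 1 * e ^ (2 * k) * (m : ℤ) ^ s * e * c, ?_⟩
    rw [hx]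
    unfold Fr rho
    rw [if_pos rfl]
    push_cast
    have e1 : (ζ : ℝ) * (r 1 * ((d : ℝ) - 1)) * (e : ℝ) ^ (2 * (k + 1)) * (m : ℝ) ^ s / (M : ℝ) =
        (ζ : ℝ) * r 1 * (e : ℝ) ^ (2 * k) * (m : ℝ) ^ s * e * (((d : ℝ) * e - 1) / M) -
        (ζ : ℝ) * (e : ℝ) ^ (2 * k) * (m : ℝ) ^ s / (M : ℝ) * r 1 * ((e : ℝ) ^ 2 - e) := by
      rw [show 2 * (k + 1) = 2 * k + 2 by ring, pow_add]
      field_simp
      ring
    rw [e1, hcr]
    field_simp
    ring
  · rcases Nat.eq_or_lt_of_le (Nat.succ_le_of_lt hj0) with hj1 | hj1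
    · -- `j = 1`
      refine ⟨0, ⟨0, ?_⟩, by simp⟩
      have : j = 1 := hj1.symm
      subst this
      unfold Fr rho
      rw [if_neg one_ne_zero]
      push_cast
      ring
    · -- the words `0 j`, `0 1`
      have hjne : j ≠ 0 := by omega
      have h1 : 2 * Real.cos (Real.pi / K₁) < ‖ex (x * (e : ℝ) ^ 2 * r j) + ex (x * (e : ℝ) ^ 2 * r (1 : ℕ))‖ := by
        by_contra h2
        push Not at h2
        rw [Finset.sum_add_distrib] at hcon
        have h3 := pair_sum (s := Finset.Ico 1 d) (f := fun a : ℕ => ex (x * (e : ℝ) ^ 2 * r a)) (fun i _ => by rw [norm_ex])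
          (i := j) (j := 1) (Finset.mem_Ico.2 ⟨by omega, hj⟩) h1mem (by omega) h2
        rw [hcard] at h3
        have h4 := norm_add_le (∑ a ∈ Finset.Ico 1 d, ex (x * (e : ℝ) ^ 2 * r a)) (∑ a ∈ Finset.Ico 1 d, ex (x * e * r a))
        have h5 := hle1 fun a => x * e * r a
        linarith
      obtain ⟨y, hy1, hy2⟩ := pair_close hK h1
      refine ⟨y, ?_, hy2⟩
      have e1 : Fr m M (rho d r j) e ζ s k = x * (e : ℝ) ^ 2 * r j - x * (e : ℝ) ^ 2 * r (1 : ℕ) := by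
        rw [hx]
        unfold Fr rho
        rw [if_neg hjne, show 2 * (k + 1) = 2 * k + 2 by ring, pow_add]
        push_cast
        ring
      rw [e1]
      exact hy1

/-- The exponential sums are bounded by the weighted path counts. -/
theorem Gs_le_Mj {d m M K₀ K₁ : ℕ} (hd : 2 ≤ d) (hM : 0 < M) (hK : 2 ≤ K₁) {r : ℤ → ℤ} {g e ζ : ℤ}
    (hg : Gen d r g K₀ K₁) (he : (M : ℤ) ∣ (d : ℤ) * e - 1) (S t : ℕ) (f : ℕ → ℝ) (L : ℕ) :
    ∀ s k : ℕ, (∀ s' : ℕ, ‖Gs d m r e t s' S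
        ((ζ : ℝ) * (e : ℝ) ^ (2 * (k + L)) * (m : ℝ) ^ s' / (M : ℝ))‖ ≤ f s') →
      ‖Gs d m r e (2 * L + t) s S ((ζ : ℝ) * (e : ℝ) ^ (2 * k) * (m : ℝ) ^ s / (M : ℝ))‖ ≤
        Mj d (White (Fr m M g e ζ) (d ^ 2) K₀)
          (2 - 2 * Real.cos (Real.pi / K₁)) f L s k := by
  induction L with
  | zero =>
    intro s k h
    have := h s
    simpa [Mj] using this
  | succ L ih =>
    intro s k h
    have hIH := fun s' => ih s' (k + 1) (by
      intro s''
      have h1 := h s''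
      rwa [show k + (L + 1) = k + 1 + L by ring] at h1)
    set X : ℕ → ℝ := fun j => (ζ : ℝ) * (e : ℝ) ^ (2 * (k + 1)) * (m : ℝ) ^ (s + j) / (M : ℝ)
      with hX
    set x : ℝ := (ζ : ℝ) * (e : ℝ) ^ (2 * k) * (m : ℝ) ^ s / (M : ℝ) with hx
    set G : ℕ → ℂ := fun j => Gs d m r e (2 * L + t) (s + j) S (X j) with hG
    set Wh := White (Fr m M g e ζ) (d ^ 2) K₀ with hWh
    have hGle : ∀ j, ‖G j‖ ≤ Mj d Wh (2 - 2 * Real.cos (Real.pi / K₁)) f L (s + j) (k + 1) :=
      fun j => hIH (s + j)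
    have hxX : ∀ i j : ℕ, x * e * (m : ℝ) ^ i * e * (m : ℝ) ^ j = X (i + j) := by
      intro i j
      rw [hx, hX]
      simp only
      rw [show 2 * (k + 1) = 2 * k + 2 by ring, pow_add _ (2 * k) 2, pow_add _ s (i + j),
        pow_add _ i j]
      ring
    -- expansion with two digits
    have hexp : Gs d m r e (2 * (L + 1) + t) s S x =
        ∑ a ∈ Finset.range d, ∑ b ∈ Finset.range d,
          ex (x * e * rr r a) * ex (x * e * (m : ℝ) ^ nz a * e * rr r b) * G (nz a + nz b) := by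
      rw [show 2 * (L + 1) + t = (2 * L + t) + 1 + 1 by ring, Gs_succ]
      refine Finset.sum_congr rfl fun a _ => ?_
      rw [Gs_succ, Finset.mul_sum]
      refine Finset.sum_congr rfl fun b _ => ?_
      rw [hxX, add_assoc s (nz a) (nz b), ← mul_assoc]
    have hd1 : 1 ≤ d := by omega
    have hsplit : Gs d m r e (2 * (L + 1) + t) s S x =
        G 0 + (∑ a ∈ Finset.Ico 1 d, (ex (x * (e : ℝ) ^ 2 * r a) + ex (x * e * r a))) * G 1 +
        (∑ a ∈ Finset.Ico 1 d, ∑ b ∈ Finset.Ico 1 d,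
          ex (x * e * r a) * ex (x * e * m * e * r b)) * G 2 := by
      rw [hexp, ite_range d hd1, ite_range d hd1]
      have hne : ∀ a ∈ Finset.Ico 1 d, a ≠ 0 := fun a ha => by
        rw [Finset.mem_Ico] at ha; omega
      have h0 : ∑ a ∈ Finset.Ico 1 d, ∑ b ∈ Finset.range d,
          ex (x * e * rr r a) * ex (x * e * (m : ℝ) ^ nz a * e * rr r b) * G (nz a + nz b) =
          (∑ a ∈ Finset.Ico 1 d, ex (x * e * r a)) * G 1 +
          (∑ a ∈ Finset.Ico 1 d, ∑ b ∈ Finset.Ico 1 d,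
            ex (x * e * r a) * ex (x * e * m * e * r b)) * G 2 := by
        rw [Finset.sum_mul, Finset.sum_mul, ← Finset.sum_add_distrib]
        refine Finset.sum_congr rfl fun a ha => ?_
        rw [ite_range d hd1, rr_of_ne (hne a ha), nz_of_ne (hne a ha), Finset.sum_mul]
        congr 1
        · simp
        · refine Finset.sum_congr rfl fun b hb => ?_
          rw [rr_of_ne (hne b hb), nz_of_ne (hne b hb), pow_one]
      rw [h0]
      have h1 : ∑ b ∈ Finset.Ico 1 d,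
          ex (x * e * rr r 0) * ex (x * e * (m : ℝ) ^ nz 0 * e * rr r b) * G (nz 0 + nz b) =
          (∑ a ∈ Finset.Ico 1 d, ex (x * (e : ℝ) ^ 2 * r a)) * G 1 := by
        rw [Finset.sum_mul]
        refine Finset.sum_congr rfl fun b hb => ?_
        rw [rr_of_ne (hne b hb), nz_of_ne (hne b hb), nz_zero, rr_zero, pow_zero, zero_add,
          Int.cast_zero, mul_zero, ex_zero, one_mul, mul_one]
        congr 2
        ring
      rw [h1, Finset.sum_add_distrib]
      simp only [nz_zero, rr_zero, Int.cast_zero, mul_zero, ex_zero, one_mul, add_zero]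
      ring
    have hdr : (2 : ℝ) ≤ d := by exact_mod_cast hd
    -- the middle coefficient
    have hmid : ‖∑ a ∈ Finset.Ico 1 d, (ex (x * (e : ℝ) ^ 2 * r a) + ex (x * e * r a))‖ ≤
        2 * ((d : ℝ) - 1) - (open Classical in if Wh s k then (2 - 2 * Real.cos (Real.pi / K₁))
          else 0) := by
      split_ifs with hw
      · exact white_gain hd hM hK hg he hw hx
      · rw [sub_zero]
        refine (norm_sum_le _ _).trans ?_
        refine (Finset.sum_le_card_nsmul _ _ 2 fun a _ => ?_).trans ?_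
        · refine (norm_add_le _ _).trans ?_
          rw [norm_ex, norm_ex]
          norm_num
        · rw [Nat.card_Ico, nsmul_eq_mul, Nat.cast_sub (by omega)]
          push_cast
          linarith
    have hlast : ‖∑ a ∈ Finset.Ico 1 d, ∑ b ∈ Finset.Ico 1 d,
        ex (x * e * r a) * ex (x * e * m * e * r b)‖ ≤ ((d : ℝ) - 1) ^ 2 := by
      refine (norm_sum_le _ _).trans ?_
      refine (Finset.sum_le_card_nsmul _ _ ((d : ℝ) - 1) fun a _ => ?_).trans ?_
      · refine (norm_sum_le _ _).trans ?_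
        refine (Finset.sum_le_card_nsmul _ _ 1 fun b _ => ?_).trans ?_
        · rw [norm_mul, norm_ex, norm_ex, mul_one]
        · rw [Nat.card_Ico, nsmul_eq_mul, Nat.cast_sub (by omega)]
          push_cast
          linarith
      · rw [Nat.card_Ico, nsmul_eq_mul, Nat.cast_sub (by omega)]
        push_cast
        nlinarith
    rw [hsplit, Mj]
    refine (norm_add_le _ _).trans (add_le_add ((norm_add_le _ _).trans (add_le_add ?_ ?_)) ?_)
    · exact hGle 0
    · rw [norm_mul]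
      exact mul_le_mul hmid (hGle 1) (norm_nonneg _) ((norm_nonneg _).trans hmid)
    · rw [norm_mul]
      exact mul_le_mul hlast (hGle 2) (norm_nonneg _) (by positivity)

end Pool.Agent.Helper8.LQ
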