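import Pool.Agent.Helper8.LQ.Lrg

/-!
The one-block estimate, for general phases (`Helper52.Tao.U3`).
-/

set_option autoImplicit false

namespace Pool.Agent.Helper8.LQ

open Pool.Agent.Helper68.Moeller
open Pool.Agent.Helper52.Tao hiding DW Deep White deep_run DW_unique deep_cluster exists_deep_window
  few_white_scales index_bound

/-- One block: the weighted path count is smaller than the number of words by a power of `N`. -/
def OneBlock (d m : ℕ) : Prop :=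
  ∀ (K₀ n₀ : ℕ) (ε θ a : ℝ), m ^ 2 + d ^ 2 < K₀ → 0 < ε → ε ≤ 2 → 0 < a → a < θ →
    2 * (1 - 1 / (d : ℝ)) * θ < 1 → ∃ c C : ℝ, 0 < c ∧ 0 < C ∧ ∀ N : ℕ, 1 ≤ N → ∀ Φ : ℕ → ℕ → ℝ,
      Ph (d ^ 2) m Φ → (∀ s v k : ℕ, s + n₀ ≤ N → Deep Φ (d ^ 2) K₀ v s k → (v : ℝ) ≤ a * N) →
      Mj d (White Φ (d ^ 2) K₀) ε (fun _ => 1) ⌊θ * N⌋₊ 0 0 ≤
        C * (d : ℝ) ^ (2 * ⌊θ * N⌋₊) * (N : ℝ) ^ (-c)

theorem one_block {d m : ℕ} (hd : 2 ≤ d) (hdm : d < m) (hco : Nat.Coprime m d)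
    (hm : (m : ℝ) ≤ (d : ℝ) ^ ((d : ℝ) / ((d : ℝ) - 1))) : OneBlock d m := by
  intro K₀ n₀ ε θ a hK hε0 hε2 ha0 hθ1 hθ2
  obtain ⟨J₀, C, hC, hmain⟩ := few_white_large hd hdm hco hm (n₀ := n₀) hK ha0 hθ1 hθ2
  have hd' : (2 : ℝ) ≤ d := by exact_mod_cast hd
  have hd0 : (0 : ℝ) < d := by linarith
  set q : ℝ := 1 - ε / (d : ℝ) ^ 2 with hq
  have hd2 : (4 : ℝ) ≤ (d : ℝ) ^ 2 := by nlinarith
  have hq1 : q < 1 := by
    have : 0 < ε / (d : ℝ) ^ 2 := by positivity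
    rw [hq]; linarith
  have hq0 : 0 < q := by
    have : ε / (d : ℝ) ^ 2 ≤ 2 / 4 := by gcongr
    rw [hq]; linarith
  have hl24 : 0 < Real.log 24 := Real.log_pos (by norm_num)
  have hlq : Real.log q < 0 := Real.log_neg hq0 hq1
  set c₈ : ℝ := -Real.log q / Real.log 24 with hc₈
  have hc₈0 : 0 < c₈ := div_pos (by linarith) hl24
  set c₉ : ℝ := min 3 c₈ with hc₉
  have hc₉0 : 0 < c₉ := lt_min (by norm_num) hc₈0
  have hc₉3 : c₉ ≤ 3 := min_le_left _ _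
  have hc₉8 : c₉ ≤ c₈ := min_le_right _ _
  set c : ℝ := c₉ / 64 with hc
  have hc0 : 0 < c := by positivity
  refine ⟨c, (C + 1) * 24 ^ c₉ + ((24 : ℝ) ^ (64 * J₀)) ^ c, hc0, by positivity, ?_⟩
  intro N hN Φ hΦ hND
  have hN' : (1 : ℝ) ≤ N := by exact_mod_cast hN
  have hN0 : (0 : ℝ) < N := by linarith
  set L := ⌊θ * N⌋₊ with hL
  have hbd : 0 < (d : ℝ) ^ (2 * L) := by positivity
  set J := Nat.log (24 ^ 64) N with hJ
  have hJ1 : (24 ^ 64) ^ J ≤ N := Nat.pow_log_le_self _ (by omega)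
  have hJ2 : N < (24 ^ 64) ^ (J + 1) := Nat.lt_pow_succ_log_self (by norm_num) _
  have hMj := fun k => Mj_one_le hd (White Φ (d ^ 2) K₀) hε0.le hε2 L k 0 0
  rcases le_or_gt J₀ J with hJJ | hJJ
  · have hX1 : (1 : ℝ) ≤ (24 : ℝ) ^ J := one_le_pow₀ (by norm_num)
    set X : ℝ := (24 : ℝ) ^ J with hX
    have hX0 : 0 < X := by linarith
    have hXN : X ^ 64 ≤ N := by
      have h0 : (((24 : ℝ) ^ 64) ^ J : ℝ) ≤ N := by exact_mod_cast hJ1
      calc X ^ 64 = ((24 : ℝ) ^ 64) ^ J := by rw [hX, ← pow_mul, ← pow_mul, mul_comm]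
        _ ≤ (N : ℝ) := h0
    have hNX : (N : ℝ) ≤ (24 * X) ^ 64 := by
      have : (N : ℝ) < ((24 : ℝ) ^ 64) ^ (J + 1) := by exact_mod_cast hJ2
      refine this.le.trans (le_of_eq ?_)
      rw [hX, ← pow_succ', ← pow_mul, ← pow_mul, mul_comm]
    have h1 := hmain J N hJJ hXN Φ hΦ hND
    have h2 := hMj J
    have h3 : q ^ J ≤ X ^ (-c₈) := by
      refine le_of_eq ?_
      rw [hX, ← Real.rpow_natCast 24 J, ← Real.rpow_mul (by norm_num), ← Real.rpow_natCast q J]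
      rw [Real.rpow_def_of_pos hq0, Real.rpow_def_of_pos (by norm_num : (0 : ℝ) < 24)]
      congr 1
      rw [hc₈]
      field_simp
    have h4 : X⁻¹ ^ 3 ≤ X ^ (-c₉) := by
      rw [inv_pow, ← Real.rpow_natCast X 3, ← Real.rpow_neg hX0.le]
      apply Real.rpow_le_rpow_of_exponent_le hX1
      push_cast; linarith
    have h5 : X ^ (-c₈) ≤ X ^ (-c₉) := Real.rpow_le_rpow_of_exponent_le hX1 (by linarith)
    have h6 : X ^ (-c₉) ≤ 24 ^ c₉ * (N : ℝ) ^ (-c) := by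
      have h7 : (N : ℝ) ^ c ≤ (24 * X) ^ c₉ := by
        calc (N : ℝ) ^ c ≤ ((24 * X) ^ 64) ^ c := Real.rpow_le_rpow hN0.le hNX hc0.le
          _ = (24 * X) ^ c₉ := by
            rw [← Real.rpow_natCast (24 * X) 64, ← Real.rpow_mul (by positivity), hc]
            congr 1
            push_cast; ring
      rw [Real.rpow_neg hX0.le, Real.rpow_neg hN0.le, ← div_eq_mul_inv, le_div_iff₀ (by positivity),
        inv_mul_le_iff₀ (by positivity), mul_comm]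
      rwa [Real.mul_rpow (by norm_num) hX0.le] at h7
    calc Mj d (White Φ (d ^ 2) K₀) ε (fun _ => 1) L 0 0
        ≤ C * (d : ℝ) ^ (2 * L) * X⁻¹ ^ 3 + q ^ J * (d : ℝ) ^ (2 * L) := by linarith
      _ ≤ C * (d : ℝ) ^ (2 * L) * X ^ (-c₉) + X ^ (-c₉) * (d : ℝ) ^ (2 * L) := by
          have := h3.trans h5
          gcongr
      _ = (C + 1) * (d : ℝ) ^ (2 * L) * X ^ (-c₉) := by ring
      _ ≤ (C + 1) * (d : ℝ) ^ (2 * L) * (24 ^ c₉ * (N : ℝ) ^ (-c)) := by gcongr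
      _ = ((C + 1) * 24 ^ c₉) * (d : ℝ) ^ (2 * L) * (N : ℝ) ^ (-c) := by ring
      _ ≤ _ := by
          have : 0 ≤ ((24 : ℝ) ^ (64 * J₀)) ^ c := by positivity
          gcongr
          linarith
  · have h1 := hMj 0
    simp only [pow_zero, one_mul] at h1
    have h2 : cW d (2 * L) (fun w => nwh (White Φ (d ^ 2) K₀) L w 0 0 < 0) = 0 := by
      simp [cW]
    rw [h2, zero_add] at h1
    have h3 : (N : ℝ) ≤ (24 : ℝ) ^ (64 * J₀) := by
      have h4 : (N : ℝ) < ((24 : ℝ) ^ 64) ^ (J + 1) := by exact_mod_cast hJ2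
      refine h4.le.trans ?_
      rw [← pow_mul]
      exact pow_le_pow_right₀ (by norm_num) (by omega)
    have h4 : 1 ≤ ((24 : ℝ) ^ (64 * J₀)) ^ c * (N : ℝ) ^ (-c) := by
      rw [Real.rpow_neg hN0.le, ← div_eq_mul_inv, one_le_div (by positivity)]
      exact Real.rpow_le_rpow hN0.le h3 hc0.le
    calc Mj d (White Φ (d ^ 2) K₀) ε (fun _ => 1) L 0 0 ≤ (d : ℝ) ^ (2 * L) := h1
      _ = (d : ℝ) ^ (2 * L) * 1 := (mul_one _).symm
      _ ≤ (d : ℝ) ^ (2 * L) * (((24 : ℝ) ^ (64 * J₀)) ^ c * (N : ℝ) ^ (-c)) := by gcongr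
      _ = ((24 : ℝ) ^ (64 * J₀)) ^ c * (d : ℝ) ^ (2 * L) * (N : ℝ) ^ (-c) := by ring
      _ ≤ _ := by
          have : 0 ≤ (C + 1) * (24 : ℝ) ^ c₉ := by positivity
          gcongr
          linarith

end Pool.Agent.Helper8.LQ
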