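import Pool.Agent.Helper52.Tao.FD
import Pool.Agent.Helper8.LQ.Def
import Pool.Agent.Helper8.LQ.One
import Pool.Agent.Helper8.LQ.Gsb

/-!
# Block FDq: decay of the exponential sums at the fractions with the denominator `q m ^ N`
-/

set_option autoImplicit false

namespace Pool.Agent.Helper8.LQ

open Pool.Agent.Helper68.Moeller
open Pool.Agent.Helper52.Tao hiding DW Deep White white_gain Gs_le_Mj OneBlock

/-- The statement of `FourierDecayQ` for one exponent. -/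
def FDPq (d m : ℕ) (r : ℤ → ℤ) (A : ℝ) : Prop :=
  ∃ κ C : ℝ, 0 < κ ∧ κ < 1 ∧ 0 < C ∧ ∀ q N : ℕ, Ad d r q → 1 ≤ N → Real.log q ≤ κ * N →
    ∀ e : ℤ, ((q * m ^ N : ℕ) : ℤ) ∣ (d : ℤ) * e - 1 → ∀ ζ : ℤ, ¬ ((q * m : ℕ) : ℤ) ∣ ζ → ∀ t S : ℕ, (1 - κ) * N ≤ (S : ℝ) →
      ‖Gs d m r e t 0 S ((ζ : ℝ) / ((q * m ^ N : ℕ) : ℝ))‖ ≤ C * (d : ℝ) ^ t * (N : ℝ) ^ (-A)

theorem FDPq_zero (d m : ℕ) (r : ℤ → ℤ) : FDPq d m r 0 := by
  refine ⟨1 / 2, 1, by norm_num, by norm_num, one_pos, fun q N _ _ _ e _ ζ _ t S _ => ?_⟩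
  rw [neg_zero, Real.rpow_zero, one_mul, mul_one]
  exact (FD_norm_Gs_le _ _ _ _ _ _ _ _).trans (cW_le_pow _ _ _)

theorem FDPq_mono {d m : ℕ} {r : ℤ → ℤ} {A B : ℝ} (hAB : A ≤ B) (h : FDPq d m r B) :
    FDPq d m r A := by
  obtain ⟨κ, C, hκ, hκ1, hC, h⟩ := h
  refine ⟨κ, C, hκ, hκ1, hC, fun q N hq hN hqN e he ζ hζ t S hS => (h q N hq hN hqN e he ζ hζ t S hS).trans ?_⟩
  have hN1 : (1 : ℝ) ≤ N := by exact_mod_cast hN
  gcongr

/-- The phases of the fractions are not degenerate. -/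
theorem nondeg {d m : ℕ} (hd : 2 ≤ d) (hdm : d < m) {ρ : ℤ} {K₀ n₀ : ℕ} (hK : 1 ≤ K₀)
    (hn₀ : ∀ ζ : ℤ, ¬ (m : ℤ) ∣ ζ → ¬ (m : ℤ) ^ n₀ ∣ ζ * ρ) {q N : ℕ} (hq0 : 0 < q) (hqr : IsCoprime (q : ℤ) ρ)
    {a : ℝ} (ha : Real.log q + N * Real.log m ≤ a * N * (2 * Real.log d))
    {e : ℤ} (he : ((q * m ^ N : ℕ) : ℤ) ∣ (d : ℤ) * e - 1) {ζ : ℤ} (hζ : ¬ ((q * m : ℕ) : ℤ) ∣ ζ)
    {s v k : ℕ} (hs : s + n₀ ≤ N) (hD : Deep (Fr m (q * m ^ N) ρ e ζ) (d ^ 2) K₀ v s k) :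
    (v : ℝ) ≤ a * N := by
  obtain ⟨y, ⟨n, hn⟩, hy⟩ := hD
  have hd' : (1 : ℝ) < d := by exact_mod_cast (by omega : 1 < d)
  have hld : 0 < Real.log d := Real.log_pos hd'
  have hm1 : (1 : ℝ) ≤ m := by exact_mod_cast (by omega : 1 ≤ m)
  have hm0 : (0 : ℝ) < m := by linarith
  have hqR : (0 : ℝ) < q := by exact_mod_cast hq0
  have hsN : s ≤ N := by omega
  obtain ⟨j, rfl⟩ := Nat.exists_eq_add_of_le hsN
  obtain ⟨num, hnum⟩ : ∃ num : ℤ, num = ζ * ρ * e ^ (2 * (k + v + 1)) - n * (q * (m : ℤ) ^ j) := ⟨_, rfl⟩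
  have hy1 : y * (q * (m : ℝ) ^ j) = num := by
    have h1 : y = Fr m (q * m ^ (s + j)) ρ e ζ s (k + v) - n := by linarith
    rw [h1, hnum]
    unfold Fr
    push_cast
    rw [pow_add]
    field_simp
  have hcop : IsCoprime ((q * m ^ j : ℕ) : ℤ) e := by
    have h5 : ((q * m ^ j : ℕ) : ℤ) ∣ (d : ℤ) * e - 1 := by
      refine dvd_trans ?_ he
      exact_mod_cast Nat.mul_dvd_mul_left q (pow_dvd_pow m (by omega))
    obtain ⟨c, hc⟩ := h5
    exact ⟨-c, d, by linarith⟩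
  have hne : num ≠ 0 := by
    intro h0
    have h1 : ((q * m ^ j : ℕ) : ℤ) ∣ ζ * ρ * e ^ (2 * (k + v + 1)) := ⟨n, by push_cast; linarith⟩
    have h2 : ((q * m ^ j : ℕ) : ℤ) ∣ ζ * ρ := (hcop.pow_right).dvd_of_dvd_mul_right h1
    have h3 : (q : ℤ) ∣ ζ * ρ := dvd_trans ⟨(m : ℤ) ^ j, by push_cast; ring⟩ h2
    obtain ⟨ζ', hζ'⟩ := hqr.dvd_of_dvd_mul_right h3
    have h4 : (m : ℤ) ^ j ∣ ζ' * ρ := by
      obtain ⟨c, hc⟩ := h2
      refine ⟨c, ?_⟩
      have hq0' : (q : ℤ) ≠ 0 := by exact_mod_cast hq0.ne'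
      apply mul_left_cancel₀ hq0'
      push_cast at hc
      rw [hζ'] at hc
      linarith
    have h5 : (m : ℤ) ∣ ζ' := by
      by_contra hcon
      exact hn₀ ζ' hcon ((pow_dvd_pow (m : ℤ) (by omega)).trans h4)
    apply hζ
    obtain ⟨c, hc⟩ := h5
    exact ⟨c, by rw [hζ', hc]; push_cast; ring⟩
  have hQ : (0 : ℝ) < q * (m : ℝ) ^ j := by positivity
  have hy2 : 1 ≤ |y| * (q * (m : ℝ) ^ j) := by
    have h1 : |y| * (q * (m : ℝ) ^ j) = |((num : ℤ) : ℝ)| := by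
      rw [← hy1, abs_mul, abs_of_pos hQ]
    rw [h1]
    have := Int.one_le_abs hne
    exact_mod_cast this
  have hdv : ((d : ℝ) ^ 2) ^ v ≤ q * (m : ℝ) ^ (s + j) := by
    have h1 : ((d : ℝ) ^ 2) ^ v * |y| ≤ 1 := by
      have h2 : (1 : ℝ) ≤ K₀ := by exact_mod_cast hK
      push_cast at hy
      have h3 : 0 ≤ ((d : ℝ) ^ 2) ^ v * |y| := by positivity
      nlinarith
    have hy0 : 0 < |y| := by
      by_contra hcon
      have : |y| = 0 := le_antisymm (not_lt.1 hcon) (abs_nonneg y)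
      rw [this] at hy2
      norm_num at hy2
    have h3 : ((d : ℝ) ^ 2) ^ v ≤ q * (m : ℝ) ^ j := by
      have h4 : ((d : ℝ) ^ 2) ^ v * |y| ≤ (q * (m : ℝ) ^ j) * |y| := by linarith
      exact le_of_mul_le_mul_right h4 hy0
    refine h3.trans (mul_le_mul_of_nonneg_left ?_ hqR.le)
    exact pow_le_pow_right₀ hm1 (by omega)
  have hlog := Real.log_le_log (by positivity) hdv
  rw [Real.log_pow, Real.log_pow, Real.log_mul hqR.ne' (by positivity), Real.log_pow] at hlog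
  push_cast at hlog ha ⊢
  have h6 : (v : ℝ) * (2 * Real.log d) ≤ a * ((s : ℝ) + j) * (2 * Real.log d) := by linarith
  exact le_of_mul_le_mul_right h6 (by linarith)

/-- The greatest common divisor is a combination. -/
theorem bez (ρ : ℕ → ℤ) (n : ℕ) : ∃ (g : ℤ) (c : ℕ → ℤ), g = ∑ j ∈ Finset.range n, c j * ρ j ∧ ∀ j < n, g ∣ ρ j := by
  induction n with
  | zero => exact ⟨0, fun _ => 0, by simp, fun j hj => absurd hj (Nat.not_lt_zero j)⟩
  | succ n ih =>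
    obtain ⟨g, c, hg, hd⟩ := ih
    refine ⟨(Int.gcd g (ρ n) : ℤ), fun j => if j = n then Int.gcdB g (ρ n) else Int.gcdA g (ρ n) * c j, ?_, fun j hj => ?_⟩
    · rw [Finset.sum_range_succ]
      simp only [if_true]
      rw [Int.gcd_eq_gcd_ab]
      have h1 : ∑ j ∈ Finset.range n, (if j = n then Int.gcdB g (ρ n) else Int.gcdA g (ρ n) * c j) * ρ j =
          Int.gcdA g (ρ n) * g := by
        have h2 : Int.gcdA g (ρ n) * g = Int.gcdA g (ρ n) * ∑ j ∈ Finset.range n, c j * ρ j := congrArg _ hg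
        rw [h2, Finset.mul_sum]
        refine Finset.sum_congr rfl fun j hj => ?_
        rw [if_neg (Finset.mem_range.1 hj).ne]
        ring
      rw [h1]
      ring
    · rcases Nat.lt_succ_iff_lt_or_eq.1 hj with h | rfl
      · exact (Int.gcd_dvd_left ..).trans (hd j h)
      · exact Int.gcd_dvd_right ..

theorem FDq_step {d m : ℕ} (hd : 2 ≤ d) (hdm : d < m) {r : ℤ → ℤ}
    {K₀ K₁ n₀ : ℕ} {g : ℤ} (hg : Gen d r g K₀ K₁) (hgq : ∀ q : ℕ, Ad d r q → IsCoprime (q : ℤ) g)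
    {θ b κ₁ c C₁ : ℝ} (hK₀ : 1 ≤ K₀) (hK : 2 ≤ K₁) (hθ : 0 < θ) (hθ2 : 2 * (1 - 1 / (d : ℝ)) * θ < 1)
    (hn₀ : ∀ ζ : ℤ, ¬ (m : ℤ) ∣ ζ → ¬ (m : ℤ) ^ n₀ ∣ ζ * g)
    (hκ₁ : 0 < κ₁) (hb : κ₁ + Real.log m ≤ b * (2 * Real.log d))
    (hC₁ : 0 < C₁)
    (h1 : ∀ N : ℕ, 1 ≤ N → ∀ Φ : ℕ → ℕ → ℝ,
      Ph (d ^ 2) m Φ → (∀ s v k : ℕ, s + n₀ ≤ N → Deep Φ (d ^ 2) K₀ v s k → (v : ℝ) ≤ b * N) →
      Mj d (White Φ (d ^ 2) K₀) (2 - 2 * Real.cos (Real.pi / K₁)) (fun _ => 1) ⌊θ * N⌋₊ 0 0 ≤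
        C₁ * (d : ℝ) ^ (2 * ⌊θ * N⌋₊) * (N : ℝ) ^ (-c)) {a : ℝ} (ha : 0 ≤ a)
    (hP : FDPq d m r a) : FDPq d m r (a + c) := by
  have hd' : (2 : ℝ) ≤ d := by exact_mod_cast hd
  have hm2 : 2 ≤ m := by omega
  have hm0 : (0 : ℝ) < m := by positivity
  obtain ⟨κ, Ca, hκ, hκ1, hCa, hP⟩ := hP
  have hε0 : 0 ≤ 2 - 2 * Real.cos (Real.pi / K₁) := by
    linarith [Real.cos_le_one (Real.pi / K₁)]
  have hε2 : 2 - 2 * Real.cos (Real.pi / K₁) ≤ 2 := by
    have : 0 ≤ Real.cos (Real.pi / K₁) := by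
      have hK' : (2 : ℝ) ≤ K₁ := by exact_mod_cast hK
      refine Real.cos_nonneg_of_neg_pi_div_two_le_of_le ?_ ?_
      · have : 0 ≤ Real.pi / K₁ := by positivity
        linarith [Real.pi_pos]
      · exact div_le_div_of_nonneg_left Real.pi_pos.le (by norm_num) hK'
    linarith
  have hq : 0 < 1 - 1 / (d : ℝ) := by
    have : 1 / (d : ℝ) ≤ 1 / 2 := one_div_le_one_div_of_le (by norm_num) hd'
    linarith
  set vt : ℝ := (1 - 2 * (1 - 1 / (d : ℝ)) * θ) / 2 with hvt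
  have hvt0 : 0 < vt := by rw [hvt]; linarith
  have hvt1 : vt < 1 := by
    have : 0 < 2 * (1 - 1 / (d : ℝ)) * θ := by positivity
    rw [hvt]
    linarith
  obtain ⟨κ', hκ'⟩ : ∃ κ' : ℝ, κ' = min (κ * vt) κ₁ := ⟨_, rfl⟩
  have hκv : κ * vt ≤ vt := by nlinarith
  have hκv0 : 0 < κ * vt := by positivity
  have hκ'0 : 0 < κ' := by rw [hκ']; exact lt_min hκv0 hκ₁
  have hκ'v : κ' ≤ κ * vt := by rw [hκ']; exact min_le_left _ _
  have hκ'1 : κ' ≤ κ₁ := by rw [hκ']; exact min_le_right _ _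
  set a₁ : ℝ := 1 - vt with ha₁
  obtain ⟨c₁, hc₁, hch⟩ := chernoff hd (θ := 2 * θ) (a := a₁) (by positivity)
    (by rw [ha₁, hvt]; linarith)
  obtain ⟨C', hC', hexp⟩ := FD_exp_le hc₁ (a + c)
  refine ⟨κ', Ca * vt ^ (-a) * C₁ + C', hκ'0, by linarith, by positivity,
    fun q N hAd hN hqN e he ζ hζ t S hS' => ?_⟩
  have hN0 : (0 : ℝ) < N := by exact_mod_cast hN
  have hq0 : 0 < q := hAd.1
  have hqR : (0 : ℝ) < q := by exact_mod_cast hq0
  have hM0 : 0 < q * m ^ N := by positivity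
  have hS : (1 - κ * vt) * N ≤ (S : ℝ) := by
    have h3 : (1 - κ * vt) * N ≤ (1 - κ') * N := mul_le_mul_of_nonneg_right (by linarith) hN0.le
    linarith
  set L := ⌊θ * N⌋₊ with hL
  have hLle : (L : ℝ) ≤ θ * N := Nat.floor_le (by positivity)
  have hSN : a₁ * N ≤ (S : ℝ) := by
    have h3 : a₁ * N ≤ (1 - κ * vt) * N := mul_le_mul_of_nonneg_right (by rw [ha₁]; linarith) hN0.le
    linarith
  rcases lt_or_ge t (2 * L) with ht | ht
  · -- short words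
    have h2 : ‖Gs d m r e t 0 S ((ζ : ℝ) / ((q * m ^ N : ℕ) : ℝ))‖ ≤ (d : ℝ) ^ t * Real.exp (-(c₁ * N)) := by
      refine (FD_norm_Gs_le _ _ _ _ _ _ _ _).trans ((cW_mono fun w _ hw => ?_).trans
        (hch N t ?_))
      · have : sg w = S := by omega
        rw [this]
        exact hSN
      · have : (t : ℝ) ≤ 2 * L := by exact_mod_cast ht.le
        linarith
    refine h2.trans ?_
    calc (d : ℝ) ^ t * Real.exp (-(c₁ * N)) ≤ (d : ℝ) ^ t * (C' * (N : ℝ) ^ (-(a + c))) := by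
          gcongr; exact hexp N hN
      _ = C' * (d : ℝ) ^ t * (N : ℝ) ^ (-(a + c)) := by ring
      _ ≤ (Ca * vt ^ (-a) * C₁ + C') * (d : ℝ) ^ t * (N : ℝ) ^ (-(a + c)) := by
          gcongr
          have : 0 ≤ Ca * vt ^ (-a) * C₁ := by positivity
          linarith
  · obtain ⟨t', rfl⟩ := Nat.exists_eq_add_of_le ht
    set φ : ℝ := Ca * (vt * N) ^ (-a) with hφ
    have hφ0 : 0 ≤ φ := by positivity
    set f₁ : ℕ → ℝ := fun s' => φ + if a₁ * N ≤ (s' : ℝ) then 1 else 0 with hf₁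
    have hbase : ∀ s' : ℕ, ‖Gs d m r e t' s' S
        ((ζ : ℝ) * (e : ℝ) ^ (2 * (0 + L)) * (m : ℝ) ^ s' / ((q * m ^ N : ℕ) : ℝ))‖ ≤
          (d : ℝ) ^ t' * f₁ s' := by
      intro s'
      by_cases hs' : a₁ * N ≤ (s' : ℝ)
      · refine ((FD_norm_Gs_le _ _ _ _ _ _ _ _).trans (cW_le_pow _ _ _)).trans ?_
        have : 1 ≤ f₁ s' := by simp only [hf₁, if_pos hs']; linarith
        exact le_mul_of_one_le_right (by positivity) this
      · have hs1 : (s' : ℝ) < a₁ * N := not_le.1 hs'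
        have hs2 : s' < N := by
          have : (s' : ℝ) < N := by
            refine hs1.trans_le ?_
            have : a₁ * N ≤ 1 * N := mul_le_mul_of_nonneg_right (by rw [ha₁]; linarith) hN0.le
            linarith
          exact_mod_cast this
        have hs3 : s' < S := by exact_mod_cast hs1.trans_le hSN
        have hcast : ((N - s' : ℕ) : ℝ) = N - s' := by push_cast [hs2.le]; ring
        have hcast2 : ((S - s' : ℕ) : ℝ) = S - s' := by push_cast [hs3.le]; ring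
        have hvN : vt * N ≤ (N : ℝ) - s' := by
          rw [ha₁] at hs1
          linarith
        have h7 : κ * (vt * N) ≤ κ * ((N : ℝ) - s') := mul_le_mul_of_nonneg_left hvN hκ.le
        have hdvd' : ((q * m ^ (N - s') : ℕ) : ℤ) ∣ ((q * m ^ N : ℕ) : ℤ) := by
          exact_mod_cast Nat.mul_dvd_mul_left q (pow_dvd_pow m (Nat.sub_le _ _))
        have hmain := hP q (N - s') hAd (by omega) (by
            rw [hcast]
            have h8 : κ' * (N : ℝ) ≤ κ * vt * N := mul_le_mul_of_nonneg_right hκ'v hN0.le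
            linarith) e (hdvd'.trans he)
          (ζ * e ^ (2 * L)) (by
            intro hdvd
            have hcop : IsCoprime ((q * m : ℕ) : ℤ) e := by
              have h5 : ((q * m : ℕ) : ℤ) ∣ (d : ℤ) * e - 1 := by
                refine dvd_trans ?_ he
                exact_mod_cast Nat.mul_dvd_mul_left q (dvd_pow_self m (by omega))
              obtain ⟨c', hc'⟩ := h5
              exact ⟨-c', d, by linarith⟩
            exact hζ ((hcop.pow_right (n := 2 * L)).dvd_of_dvd_mul_right hdvd)) t' (S - s')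
          (by
            rw [hcast, hcast2]
            nlinarith)
        have hx : ((ζ : ℝ) * (e : ℝ) ^ (2 * (0 + L)) * (m : ℝ) ^ s' / ((q * m ^ N : ℕ) : ℝ)) =
            (((ζ * e ^ (2 * L) : ℤ) : ℝ) / ((q * m ^ (N - s') : ℕ) : ℝ)) := by
          have hpow : (m : ℝ) ^ N = (m : ℝ) ^ (N - s') * (m : ℝ) ^ s' := by
            rw [← pow_add]; congr 1; omega
          push_cast
          rw [hpow, zero_add]
          have : (m : ℝ) ^ s' ≠ 0 := by positivity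
          field_simp
        have hG : Gs d m r e t' s' S
            ((ζ : ℝ) * (e : ℝ) ^ (2 * (0 + L)) * (m : ℝ) ^ s' / ((q * m ^ N : ℕ) : ℝ)) =
            Gs d m r e t' 0 (S - s') (((ζ * e ^ (2 * L) : ℤ) : ℝ) / ((q * m ^ (N - s') : ℕ) : ℝ)) := by
          rw [hx, Gs, Gs]
          refine Finset.sum_congr (Finset.filter_congr fun w _ => ?_) fun _ _ => rfl
          omega
        rw [hG]
        refine hmain.trans ?_
        have h6 : ((N - s' : ℕ) : ℝ) ^ (-a) ≤ (vt * N) ^ (-a) := by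
          rw [hcast]
          exact Real.rpow_le_rpow_of_nonpos (by positivity) hvN (by linarith)
        calc Ca * (d : ℝ) ^ t' * ((N - s' : ℕ) : ℝ) ^ (-a)
            ≤ Ca * (d : ℝ) ^ t' * (vt * N) ^ (-a) := by gcongr
          _ = (d : ℝ) ^ t' * φ := by rw [hφ]; ring
          _ ≤ (d : ℝ) ^ t' * f₁ s' := by
              gcongr
              simp only [hf₁, if_neg hs']
              linarith
    have hG := Gs_le_Mj hd hM0 hK hg he S t' (fun s' => (d : ℝ) ^ t' * f₁ s') L 0 0 hbase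
    have hx0 : ((ζ : ℝ) * (e : ℝ) ^ (2 * 0) * (m : ℝ) ^ 0 / ((q * m ^ N : ℕ) : ℝ)) =
        (ζ : ℝ) / ((q * m ^ N : ℕ) : ℝ) := by simp
    rw [hx0, FD_Mj_smul] at hG
    have hM := Mj_le_add hd (White (Fr m (q * m ^ N) g e ζ) (d ^ 2) K₀) hε0 hε2 hφ0
      (f := f₁) (a := a₁ * N) (fun s => le_rfl) L 0 0
    have hO := h1 N hN (Fr m (q * m ^ N) g e ζ) (ph_Fr hM0 _ _ he)
      (fun s v k hs hD => nondeg hd hdm hK₀ hn₀ hq0 (hgq q hAd) (by
        have h8 : κ' * (N : ℝ) ≤ κ₁ * N := mul_le_mul_of_nonneg_right hκ'1 hN0.le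
        have h9 : (κ₁ + Real.log m) * N ≤ b * (2 * Real.log d) * N := mul_le_mul_of_nonneg_right hb hN0.le
        linarith) he hζ hs hD)
    have hch2 : cW d (2 * L) (fun w => a₁ * N ≤ ((0 + sg w : ℕ) : ℝ)) ≤
        (d : ℝ) ^ (2 * L) * Real.exp (-(c₁ * N)) := by
      simp only [Nat.zero_add]
      refine hch N (2 * L) ?_
      push_cast
      linarith
    calc ‖Gs d m r e (2 * L + t') 0 S ((ζ : ℝ) / ((q * m ^ N : ℕ) : ℝ))‖
        ≤ (d : ℝ) ^ t' * Mj d (White (Fr m (q * m ^ N) g e ζ) (d ^ 2) K₀)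
          (2 - 2 * Real.cos (Real.pi / K₁)) f₁ L 0 0 := hG
      _ ≤ (d : ℝ) ^ t' * (φ * (C₁ * (d : ℝ) ^ (2 * L) * (N : ℝ) ^ (-c)) +
            (d : ℝ) ^ (2 * L) * (C' * (N : ℝ) ^ (-(a + c)))) := by
          gcongr
          refine hM.trans (add_le_add (mul_le_mul_of_nonneg_left hO hφ0) (hch2.trans ?_))
          gcongr
          exact hexp N hN
      _ = (Ca * vt ^ (-a) * C₁ + C') * (d : ℝ) ^ (2 * L + t') * (N : ℝ) ^ (-(a + c)) := by
          rw [hφ, Real.mul_rpow hvt0.le hN0.le, neg_add, Real.rpow_add hN0, pow_add]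
          ring

/-- Block FDq: decay of the exponential sums, faster than any power. -/
theorem fourier_decayQ {d m : ℕ} (hd : 2 ≤ d) (hdm : d < m) (hco : Nat.Coprime m d)
    (hm : (m : ℝ) ≤ (d : ℝ) ^ ((d : ℝ) / ((d : ℝ) - 1))) {r : ℤ → ℤ} (hr : Admissible d m r) :
    FourierDecayQ d m r := by
  have h1 : OneBlock d m := one_block hd hdm hco hm
  have hm0 : m ≠ 0 := by omega
  have hr1 : r 1 ≠ 0 := by
    intro h0
    have h2 := hr 1 one_pos (by omega)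
    rw [h0, mul_one] at h2
    have h3 : (d : ℤ) ∣ (m : ℤ) := by
      have := h2.dvd
      rwa [sub_zero] at this
    have h4 : d ∣ m := by exact_mod_cast h3
    have h5 : d ∣ 1 := by
      rw [← hco.gcd_eq_one]
      exact Nat.dvd_gcd h4 dvd_rfl
    have := Nat.le_of_dvd one_pos h5
    omega
  obtain ⟨g, cf, hgc, hgd⟩ := bez (rho d r) d
  have hg1 : g ∣ r 1 * ((d : ℤ) - 1) := by
    have h3 := hgd 0 (by omega)
    unfold rho at h3
    rwa [if_pos rfl] at h3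
  have hρ : g ≠ 0 := by
    rintro rfl
    exact mul_ne_zero hr1 (by omega) (zero_dvd_iff.1 hg1)
  have hgq : ∀ q : ℕ, Ad d r q → IsCoprime (q : ℤ) g := by
    rintro q ⟨hq0, hqd, hqb⟩
    rw [Int.isCoprime_iff_gcd_eq_one, Int.gcd_eq_natAbs, Int.natAbs_natCast]
    by_contra hcon
    obtain ⟨p, hp, hpq, hpg⟩ := Nat.Prime.not_coprime_iff_dvd.1 hcon
    have hpg' : (p : ℤ) ∣ g := Int.natCast_dvd.2 hpg
    refine hqb p hp hpq ⟨hpg'.trans hg1, fun j hj0 hjd => ?_⟩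
    obtain ⟨i, rfl⟩ : ∃ i : ℕ, (i : ℤ) = j := ⟨j.toNat, Int.toNat_of_nonneg hj0.le⟩
    have h3 := hgd i (by exact_mod_cast hjd)
    unfold rho at h3
    rw [if_neg (by omega)] at h3
    exact hpg'.trans h3
  obtain ⟨K₁, hK₁⟩ : ∃ K₁ : ℕ, K₁ = (m ^ 2 + d ^ 2 + 1) * (∑ j ∈ Finset.range d, (cf j).natAbs) + 2 := ⟨_, rfl⟩
  have hK2 : 2 ≤ K₁ := by omega
  have hgen : Gen d r g (m ^ 2 + d ^ 2 + 1) K₁ := by
    refine ⟨cf, hgc, ?_⟩
    have h3 : ∑ j ∈ Finset.range d, |(cf j : ℝ)| = ((∑ j ∈ Finset.range d, (cf j).natAbs : ℕ) : ℝ) := by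
      push_cast
      refine Finset.sum_congr rfl fun j _ => ?_
      rw [Nat.cast_natAbs]
      push_cast
      rfl
    rw [h3, hK₁]
    push_cast
    linarith
  have hK2' : (2 : ℝ) ≤ K₁ := by exact_mod_cast hK2
  have hpi := Real.pi_pos
  have hang0 : 0 < Real.pi / K₁ := by positivity
  have hang1 : Real.pi / K₁ ≤ Real.pi / 2 := div_le_div_of_nonneg_left hpi.le (by norm_num) hK2'
  have hcos1 : Real.cos (Real.pi / K₁) < 1 := by
    have := Real.cos_lt_cos_of_nonneg_of_le_pi (le_refl 0) (by linarith) hang0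
    rwa [Real.cos_zero] at this
  have hcos0 : 0 ≤ Real.cos (Real.pi / K₁) := Real.cos_nonneg_of_mem_Icc ⟨by linarith, hang1⟩
  obtain ⟨θ, hθ0, hθ1, hθ2⟩ := FD_exists_theta hd hdm hco hm
  have hld := log_d_pos hd
  have hlm := log_m_gt hd hdm
  have hK0 : m ^ 2 + d ^ 2 < m ^ 2 + d ^ 2 + 1 := by omega
  obtain ⟨b, hb⟩ : ∃ b : ℝ, b = (Real.log m / (2 * Real.log d) + θ) / 2 := ⟨_, rfl⟩
  have hb0 : 0 < b := by
    have : 0 < Real.log m / (2 * Real.log d) := by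
      have : 0 < Real.log m := hld.trans hlm
      positivity
    rw [hb]; linarith
  have hbθ : b < θ := by rw [hb]; linarith
  obtain ⟨c, C₁, hc, hC₁, h2⟩ := h1 (m ^ 2 + d ^ 2 + 1) (g.natAbs + 1) (2 - 2 * Real.cos (Real.pi / K₁)) θ b
    hK0 (by linarith) (by linarith) hb0 hbθ hθ2
  obtain ⟨κ₁, hκ₁⟩ : ∃ κ₁ : ℝ, κ₁ = b * (2 * Real.log d) - Real.log m := ⟨_, rfl⟩
  have hκ₁0 : 0 < κ₁ := by
    have h3 : Real.log m / (2 * Real.log d) < b := by rw [hb]; linarith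
    rw [div_lt_iff₀ (by positivity)] at h3
    rw [hκ₁]; linarith
  have hstep : ∀ a : ℝ, 0 ≤ a → FDPq d m r a → FDPq d m r (a + c) := fun a ha hP =>
    FDq_step hd hdm hgen hgq (by omega) hK2 hθ0 hθ2
      (fun ζ hζ hdvd => hζ (FD_dvd_of_pow_dvd hm0 hρ hdvd)) hκ₁0 (by rw [hκ₁]; linarith) hC₁ h2 ha hP
  have hall : ∀ n : ℕ, FDPq d m r (n * c) := by
    intro n
    induction n with
    | zero => rw [Nat.cast_zero, zero_mul]; exact FDPq_zero d m r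
    | succ n ih =>
      have := hstep (n * c) (by positivity) ih
      push_cast
      rwa [add_mul, one_mul]
  intro A
  obtain ⟨n, hn⟩ := exists_nat_ge (A / c)
  exact FDPq_mono ((div_le_iff₀ hc).1 hn) (hall n)

end Pool.Agent.Helper8.LQ
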