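import Pool.Agent.Helper8.LQ.LDq
import Pool.Agent.Helper8.PW.Fin2

/-!
# Level of distribution of the invariant sets: all moduli

`AdN`: every prime factor of `N` divides `d m` or does not divide `g`, the greatest common divisor of `r 1 (d - 1)` and of all `r j - r 1`. The class `b` modulo `N` is a union of classes modulo
`N * M = (d m) ^ a * q`, where `2 ^ a ≤ N` and `q ∣ N` is coprime to `d m`.
-/

set_option autoImplicit false

namespace Pool.Agent.Helper8.LQ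

open Pool.Agent.Helper68.Moeller Pool.Agent.Helper52.Tao Pool.Agent.Helper8.ND Pool.Agent.Helper28
  Pool.Agent.Helper91 Pool.Agent.Helper8.PW Filter Topology

variable {d m : ℕ} {r : ℤ → ℤ}

/-- The admissible moduli. -/
def AdN (d m : ℕ) (r : ℤ → ℤ) (N : ℕ) : Prop :=
  0 < N ∧ ∀ p : ℕ, p.Prime → p ∣ N → p ∣ d * m ∨ ¬ Bad d r p

/-- The class `b` modulo `N` is a union of `M` classes modulo `N * M`. -/
theorem ncard_union (G : Set ℤ) {N M : ℕ} (hN : 0 < N) (hM : 0 < M) (b : ℤ) (x : ℝ) :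
    {n : ℤ | x ≤ n ∧ (n : ℝ) < 2 * x ∧ (N : ℤ) ∣ n - b ∧ n ∈ G}.ncard =
      ∑ i ∈ Finset.range M, {n : ℤ | x ≤ n ∧ (n : ℝ) < 2 * x ∧ ((N * M : ℕ) : ℤ) ∣ n - (b + N * i) ∧ n ∈ G}.ncard := by
  classical
  obtain ⟨S, hS⟩ : ∃ S : Set ℤ, S = {n : ℤ | x ≤ n ∧ (n : ℝ) < 2 * x ∧ (N : ℤ) ∣ n - b ∧ n ∈ G} := ⟨_, rfl⟩
  have hfin : S.Finite := by
    refine (finite_Ico x (2 * x)).subset ?_
    rw [hS]
    rintro n ⟨h1, h2, -, -⟩
    exact ⟨h1, h2⟩
  rw [← hS, Set.ncard_eq_toFinset_card _ hfin]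
  have hN0 : (N : ℤ) ≠ 0 := by exact_mod_cast hN.ne'
  have hM0 : (0 : ℤ) < M := by exact_mod_cast hM
  rw [Finset.card_eq_sum_card_fiberwise (f := fun n : ℤ => (((n - b) / (N : ℤ)) % (M : ℤ)).toNat) (t := Finset.range M)]
  · refine Finset.sum_congr rfl fun i hi => ?_
    have hi' : (i : ℤ) < M := by exact_mod_cast Finset.mem_range.1 hi
    rw [← Set.ncard_coe_finset]
    congr 1
    ext n
    simp only [Finset.coe_filter, Set.Finite.mem_toFinset, Set.mem_ofPred_eq, hS]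
    constructor
    · rintro ⟨⟨h1, h2, ⟨k, hk⟩, h4⟩, h5⟩
      refine ⟨h1, h2, ?_, h4⟩
      rw [hk, Int.mul_ediv_cancel_left _ hN0] at h5
      have h6 : k % (M : ℤ) = i := by
        have h7 : 0 ≤ k % (M : ℤ) := Int.emod_nonneg _ hM0.ne'
        omega
      have h8 : (M : ℤ) ∣ k - i := by
        rw [← h6]
        exact Int.dvd_self_sub_emod
      obtain ⟨l, hl⟩ := h8
      refine ⟨l, ?_⟩
      push_cast
      linear_combination hk + (N : ℤ) * hl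
    · rintro ⟨h1, h2, ⟨l, hl⟩, h4⟩
      have hk : n - b = (N : ℤ) * (i + M * l) := by
        push_cast at hl
        linear_combination hl
      refine ⟨⟨h1, h2, ⟨_, hk⟩, h4⟩, ?_⟩
      rw [hk, Int.mul_ediv_cancel_left _ hN0, Int.add_mul_emod_self_left,
        Int.emod_eq_of_lt (by positivity) hi']
      simp
  · intro n _
    have h7 : 0 ≤ ((n - b) / (N : ℤ)) % (M : ℤ) := Int.emod_nonneg _ hM0.ne'
    have h8 : ((n - b) / (N : ℤ)) % (M : ℤ) < M := Int.emod_lt_of_pos _ hM0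
    simp only [Finset.coe_range, Set.mem_Iio]
    omega

theorem fdc_union (G : Set ℤ) {N M : ℕ} (hN : 0 < N) (hM : 0 < M) (b : ℤ) (x : ℝ) :
    fdc G N b x * M = ∑ i ∈ Finset.range M, fdc G (N * M) (b + N * i) x := by
  unfold fdc
  rw [ncard_union G hN hM b x]
  push_cast
  rw [← Finset.sum_div, ← Finset.sum_mul]
  ring

/-- The factorisation. -/
theorem split_mod {P N : ℕ} (hN : 0 < N) (hP : 0 < P) : ∃ a q M : ℕ, N * M = P ^ a * q ∧ 0 < q ∧ 0 < M ∧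
    q ∣ N ∧ Nat.Coprime q P ∧ 2 ^ a ≤ N := by
  obtain ⟨a, ha⟩ : ∃ a, a = Nat.log 2 N := ⟨_, rfl⟩
  have h2a : 2 ^ a ≤ N := by
    rw [ha]
    exact Nat.pow_log_le_self 2 hN.ne'
  have hP0 : 0 < P ^ a := pow_pos hP a
  obtain ⟨N1, hN1⟩ : ∃ N1, N1 = Nat.gcd N (P ^ a) := ⟨_, rfl⟩
  have hN10 : 0 < N1 := by
    rw [hN1]
    exact Nat.gcd_pos_of_pos_left _ hN
  obtain ⟨q, hq⟩ : N1 ∣ N := by
    rw [hN1]
    exact Nat.gcd_dvd_left _ _
  obtain ⟨M, hM⟩ : N1 ∣ P ^ a := by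
    rw [hN1]
    exact Nat.gcd_dvd_right _ _
  have hq0 : 0 < q := by
    rcases Nat.eq_zero_or_pos q with h | h
    · rw [h, mul_zero] at hq
      omega
    · exact h
  have hM0 : 0 < M := by
    rcases Nat.eq_zero_or_pos M with h | h
    · rw [h, mul_zero] at hM
      omega
    · exact h
  refine ⟨a, q, M, ?_, hq0, hM0, ⟨N1, by rw [hq, mul_comm]⟩, ?_, h2a⟩
  · rw [hM, hq]
    ring
  · by_contra hcon
    rw [Nat.Prime.not_coprime_iff_dvd] at hcon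
    obtain ⟨p, hp, hpq, hpP⟩ := hcon
    obtain ⟨e, n', hn', hne⟩ := Nat.exists_eq_pow_mul_and_not_dvd hN.ne' p hp.ne_one
    have hpe : p ^ e ∣ N := ⟨n', hne⟩
    have he : e ≤ a := by
      rw [ha]
      refine Nat.le_log_of_pow_le (by norm_num) ?_
      exact (Nat.pow_le_pow_left hp.two_le e).trans (Nat.le_of_dvd hN hpe)
    have h1 : p ^ e ∣ P ^ a := (pow_dvd_pow_of_dvd hpP e).trans (pow_dvd_pow P he)
    have h2 : p ^ e ∣ N1 := by
      rw [hN1]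
      exact Nat.dvd_gcd hpe h1
    have h3 : p ^ e * p ∣ p ^ e * n' := by
      rw [← hne, hq]
      exact mul_dvd_mul h2 hpq
    exact hn' (Nat.dvd_of_mul_dvd_mul_left (pow_pos hp.pos e) h3)

/-- **Level of distribution, all moduli.** -/
theorem level_all (h : POSB.Std d m r) (hl : LevelF d m r) : ∃ θ : ℝ, 0 < θ ∧ ∀ z ε : ℝ, 0 < ε → ∃ X : ℝ, 1 ≤ X ∧
    ∀ G : Set ℤ, TInv d m r G z → ∃ δ : ℝ, 0 ≤ δ ∧ ∀ x : ℝ, X ≤ x → |fd G x - δ| ≤ ε ∧
      ∀ N : ℕ, AdN d m r N → (N : ℝ) ≤ x ^ θ → ∀ b : ℤ, |fdc G N b x - δ| ≤ ε := by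
  obtain ⟨θ, hθ, hl⟩ := hl
  have hd := h.hd
  have hdm := h.hdm
  have hP0 : 0 < d * m := Nat.mul_pos (by omega) (by omega)
  have hPR : (1 : ℝ) ≤ ((d * m : ℕ) : ℝ) := by exact_mod_cast hP0
  have hl2 : 0 < Real.log 2 := Real.log_pos (by norm_num)
  obtain ⟨L, hL⟩ : ∃ L : ℝ, L = Real.log ((d * m : ℕ) : ℝ) / Real.log 2 := ⟨_, rfl⟩
  have hL0 : 0 ≤ L := by
    rw [hL]
    exact div_nonneg (Real.log_nonneg hPR) hl2.le
  refine ⟨θ / (L + 1), by positivity, fun z ε hε => ?_⟩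
  obtain ⟨X, hX⟩ := hl z ε hε
  refine ⟨max X 1, le_max_right _ _, fun G hG => ?_⟩
  obtain ⟨δ, hδ0, hδ⟩ := hX G hG
  refine ⟨δ, hδ0, fun x hx => ?_⟩
  have hx1 : 1 ≤ x := (le_max_right _ _).trans hx
  have hx0 : 0 < x := by linarith
  obtain ⟨h1, h2⟩ := hδ x ((le_max_left _ _).trans hx)
  refine ⟨h1, fun N hNad hNx b => ?_⟩
  obtain ⟨hN0, hNp⟩ := hNad
  obtain ⟨a, q, M, hNM, hq0, hM0, hqN, hqP, h2a⟩ := split_mod hN0 hP0
  have hAd : Ad d r q := by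
    refine ⟨hq0, Nat.Coprime.coprime_dvd_right (Dvd.intro m rfl) hqP, fun p hp hpq => ?_⟩
    rcases hNp p hp (hpq.trans hqN) with h3 | h3
    · exact absurd (Nat.dvd_one.1 (hqP ▸ Nat.dvd_gcd hpq h3)) hp.one_lt.ne'
    · exact h3
  have hN1 : (1 : ℝ) ≤ N := by exact_mod_cast hN0
  have hmod : ((d ^ a * (q * m ^ a) : ℕ) : ℝ) ≤ x ^ θ := by
    have e1 : ((d ^ a * (q * m ^ a) : ℕ) : ℝ) = ((d * m : ℕ) : ℝ) ^ a * q := by
      push_cast
      rw [mul_pow]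
      ring
    rw [e1]
    have h3 : ((d * m : ℕ) : ℝ) ^ a ≤ (N : ℝ) ^ L := by
      rw [← Real.rpow_natCast, Real.rpow_def_of_pos (by linarith), Real.rpow_def_of_pos (by linarith)]
      apply Real.exp_le_exp.2
      have h4 : Real.log ((d * m : ℕ) : ℝ) = L * Real.log 2 := by rw [hL]; field_simp
      have h5 : (a : ℝ) * Real.log 2 ≤ Real.log N := by
        rw [← Real.log_pow]
        refine Real.log_le_log (by positivity) ?_
        exact_mod_cast h2a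
      rw [h4]
      nlinarith
    have h4 : (q : ℝ) ≤ N := by exact_mod_cast Nat.le_of_dvd hN0 hqN
    calc ((d * m : ℕ) : ℝ) ^ a * q ≤ (N : ℝ) ^ L * N := mul_le_mul h3 h4 (by positivity) (by positivity)
      _ = (N : ℝ) ^ (L + 1) := by rw [Real.rpow_add_one (by linarith)]
      _ ≤ (x ^ (θ / (L + 1))) ^ (L + 1) := Real.rpow_le_rpow (by linarith) hNx (by linarith)
      _ = x ^ θ := by
        rw [← Real.rpow_mul hx0.le]
        congr 1
        field_simp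
  have e2 : N * M = d ^ a * (q * m ^ a) := by
    rw [hNM, mul_pow]
    ring
  have h3 : fdc G N b x * M - δ * M = ∑ i ∈ Finset.range M, (fdc G (N * M) (b + N * i) x - δ) := by
    rw [fdc_union G hN0 hM0 b x, Finset.sum_sub_distrib, Finset.sum_const, Finset.card_range, nsmul_eq_mul]
    ring
  have hM1 : (0 : ℝ) < M := by exact_mod_cast hM0
  have h4 : |fdc G N b x * M - δ * M| ≤ M * ε := by
    rw [h3]
    refine (Finset.abs_sum_le_sum_abs _ _).trans ?_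
    refine (Finset.sum_le_sum fun i _ => ?_).trans (le_of_eq ?_) (b := ∑ _i ∈ Finset.range M, ε)
    · rw [e2]
      exact h2 a a q hAd hmod _
    · rw [Finset.sum_const, Finset.card_range, nsmul_eq_mul]
  rw [← sub_mul, abs_mul, abs_of_pos hM1, mul_comm (M : ℝ) ε] at h4
  exact le_of_mul_le_mul_right h4 hM1

/-- For `d = 2`, `r 1 = ± 1` all moduli are admissible. -/
theorem adN_two {m : ℕ} {r : ℤ → ℤ} (hr : r 1 = 1 ∨ r 1 = -1) {N : ℕ} (hN : 0 < N) : AdN 2 m r N := by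
  refine ⟨hN, fun p hp _ => Or.inr ?_⟩
  rintro ⟨hcon, -⟩
  have h1 : r 1 * (((2 : ℕ) : ℤ) - 1) = 1 ∨ r 1 * (((2 : ℕ) : ℤ) - 1) = -1 := by
    rcases hr with h | h
    · left; rw [h]; norm_num
    · right; rw [h]; norm_num
  have h2 : (p : ℤ) ∣ 1 := by
    rcases h1 with h | h
    · rwa [h] at hcon
    · rw [h] at hcon
      exact (dvd_neg).1 hcon
  have h3 : p ∣ 1 := by exact_mod_cast h2
  exact hp.one_lt.ne' (Nat.dvd_one.1 h3)

/-- With the limit equal to the natural density. -/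
theorem level_allD (h : POSB.Std d m r) (hl : LevelF d m r) : ∃ θ : ℝ, 0 < θ ∧ ∀ z ε : ℝ, 0 < ε → ∃ X : ℝ, 1 ≤ X ∧
    ∀ G : Set ℤ, TInv d m r G z → ∀ x : ℝ, X ≤ x → |fd G x - PL.dens G| ≤ ε ∧
      ∀ N : ℕ, AdN d m r N → (N : ℝ) ≤ x ^ θ → ∀ b : ℤ, |fdc G N b x - PL.dens G| ≤ ε := by
  obtain ⟨θ, hθ, hl⟩ := level_all h hl
  refine ⟨θ, hθ, fun z ε hε => ?_⟩
  obtain ⟨X, hX1, hX⟩ := hl z (ε / 3) (by linarith)
  refine ⟨X, hX1, fun G hG x hx => ?_⟩
  obtain ⟨δ, hδ0, hδ⟩ := hX G hG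
  -- the density is within `ε / 3` of `δ`
  have hD : |PL.dens G - δ| ≤ ε / 3 := by
    have ht := PL.stab_tendsto h.hd h.hdm h.hco h.hr h.gam h.mix hG
    refine le_of_tendsto ((ht.sub_const δ).abs) ?_
    filter_upwards [eventually_ge_atTop X] with a ha
    exact (hδ a ha).1
  obtain ⟨h1, h2⟩ := hδ x hx
  refine ⟨?_, fun N hN hNx b => ?_⟩
  · have := abs_sub_le (fd G x) δ (PL.dens G)
    rw [abs_sub_comm δ] at this
    linarith
  · have := abs_sub_le (fdc G N b x) δ (PL.dens G)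
    rw [abs_sub_comm δ] at this
    linarith [h2 N hN hNx b]

end Pool.Agent.Helper8.LQ
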