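import Pool.Agent.Helper52.Tao.U1
import Pool.Agent.Helper52.Tao.A3
import Pool.Agent.Helper8.LQ.Geo

/-!
The union bound for one window and for all windows, for general phases (`Helper52.Tao.U1`, `Helper52.Tao.U2`).
-/

set_option autoImplicit false

namespace Pool.Agent.Helper8.LQ

open Pool.Agent.Helper68.Moeller
open Pool.Agent.Helper52.Tao hiding DW Deep White deep_run DW_unique deep_cluster exists_deep_window
  few_white_scales index_bound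

/-- **One window.** The number of words with few white points whose path is deep at the time `g₁`. -/
theorem index_bound {d m : ℕ} (hd : 2 ≤ d) (hdm : d < m) (hmD : m ≤ d ^ 2) (hco : Nat.Coprime m d)
    {X : ℕ → ℕ → ℝ} (hX : Ph (d ^ 2) m X)
    {C₁ : ℝ} (hC₁ : 0 < C₁) (hloc : ∀ t s : ℕ, 1 ≤ t →
      cW d t (fun w => sg w = s) ≤ C₁ * (d : ℝ) ^ t / Real.sqrt t)
    {N K₀ n₀ : ℕ} (hK : m ^ 2 + d ^ 2 < K₀)
    {L w₀ I g₁ h : ℕ} {R : ℝ} (hR : 0 < R) (hg₁ : 1 ≤ g₁) (hg₁L : g₁ + 0 + 1 + 331776 ^ I ≤ L)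
    (H1 : ∀ v : ℕ, h ≤ v → (2 * (1 - 1 / (d : ℝ)) * (v + 1) + 2 * R + 2 * 331776 ^ I + 1) *
      Real.log m ≤ v * (2 * Real.log d))
    (H2 : ∀ s v : ℕ, s + n₀ ≤ N → Deep X (d ^ 2) K₀ v s g₁ → g₁ + v + 1 + 331776 ^ I ≤ L) :
    cW d (2 * L) (fun w => nwh (White X (d ^ 2) K₀) L w 0 0 < w₀ ∧ sg w + n₀ ≤ N ∧
        Deep X (d ^ 2) K₀ h (pos w g₁) g₁) ≤
      (d : ℝ) ^ (2 * L) * (2 * (2 * L / R ^ 2) + C₁ * (2 * R + 3 + 331776 ^ I) * 48 ^ w₀ / 24 ^ I /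
        Real.sqrt (2 * g₁)) := by
  classical
  set p : ℝ := 1 - 1 / (d : ℝ) with hp
  have hd' : (2 : ℝ) ≤ d := by exact_mod_cast hd
  have hd0 : (0 : ℝ) < d := by linarith
  have hp0 : 0 ≤ p := by
    rw [hp, sub_nonneg, div_le_one hd0]; linarith
  have hm2 : 2 ≤ m := by omega
  have hD2 : 2 ≤ d ^ 2 := hd.trans (Nat.le_self_pow two_ne_zero d)
  have hcoD : Nat.Coprime m (d ^ 2) := Nat.Coprime.pow_right 2 hco
  have hDm : d ^ 2 < m ^ 2 := Nat.pow_lt_pow_left hdm (by norm_num)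
  have hlogd : 0 < Real.log d := Real.log_pos (by linarith)
  have hlogm : 0 < Real.log m := Real.log_pos (by exact_mod_cast (by omega : 1 < m))
  have hQI : 1 ≤ 331776 ^ I := Nat.one_le_pow _ _ (by norm_num)
  have hbd0 : 0 ≤ (d : ℝ) ^ (2 * L) := by positivity
  set E : List ℕ → Prop := fun w => nwh (White X (d ^ 2) K₀) L w 0 0 < w₀ ∧ sg w + n₀ ≤ N ∧
        Deep X (d ^ 2) K₀ h (pos w g₁) g₁ with hE
  set P : ℕ → Prop := fun s => |(s : ℝ) - p * (2 * g₁)| ≤ R ∧ s + n₀ ≤ N ∧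
    Deep X (d ^ 2) K₀ h s g₁ with hP
  have hposN : ∀ w ∈ W d (2 * L), sg w + n₀ ≤ N → ∀ i ≤ L, pos w i + n₀ ≤ N := by
    intro w hw h1 i hi
    have := pos_mono w hi
    rw [pos_eq_sg hw] at this
    omega
  have hlast : 0 ≤ C₁ * (2 * R + 3 + 331776 ^ I) * 48 ^ w₀ / 24 ^ I / Real.sqrt (2 * g₁) := by
    positivity
  by_cases hex : ∃ s, P s
  swap
  · have h1 : cW d (2 * L) E ≤ cW d (2 * L) (fun w => R < |(pos w g₁ : ℝ) - p * (2 * g₁)|) := by
      refine cW_mono fun w hw hw' => ?_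
      by_contra hcon
      exact hex ⟨pos w g₁, not_lt.1 hcon, hposN w hw hw'.2.1 g₁ (by omega), hw'.2.2⟩
    refine h1.trans ((cheb_pos hd (by omega) hR).trans ?_)
    refine mul_le_mul_of_nonneg_left ?_ hbd0
    have : 0 ≤ 2 * L / R ^ 2 := by positivity
    linarith
  -- the leftmost deep point of the corridor
  set s₀ := Nat.find hex with hs₀
  obtain ⟨hs1, hs2, hs3⟩ := Nat.find_spec hex
  have hmin : ∀ s, P s → s₀ ≤ s := fun s hs => Nat.find_min' hex hs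
  -- the deepest witness
  have hhL : h ≤ L := by have := H2 s₀ h hs2 hs3; omega
  set v := Nat.findGreatest (fun v => Deep X (d ^ 2) K₀ v s₀ g₁) L with hv
  have hvdeep : Deep X (d ^ 2) K₀ v s₀ g₁ :=
    Nat.findGreatest_spec (P := fun v => Deep X (d ^ 2) K₀ v s₀ g₁) hhL hs3
  have hhv : h ≤ v := Nat.le_findGreatest hhL hs3
  have hvL : g₁ + v + 1 + 331776 ^ I ≤ L := H2 s₀ v hs2 hvdeep
  have hvmax : ¬ Deep X (d ^ 2) K₀ (v + 1) s₀ g₁ :=
    Nat.findGreatest_is_greatest (P := fun v => Deep X (d ^ 2) K₀ v s₀ g₁) (Nat.lt_succ_self v) (by omega)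
  obtain ⟨z, hz1, hz2⟩ := hvdeep
  set b := g₁ + v with hb
  have hDr : (0 : ℝ) < ((d ^ 2 : ℕ) : ℝ) := by exact_mod_cast (by omega : 0 < d ^ 2)
  have hK2 : 2 ≤ K₀ := hD2.trans ((Nat.le_add_left _ _).trans hK.le)
  have hz : ¬ eqZ (X s₀ (b + 1)) (z / ((d ^ 2 : ℕ) : ℝ)) := by
    intro hcon
    apply hvmax
    refine ⟨z / ((d ^ 2 : ℕ) : ℝ), ?_, ?_⟩
    · rw [← add_assoc]
      exact hcon
    · have : (K₀ : ℝ) * ((d ^ 2 : ℕ) : ℝ) ^ (v + 1) * |z / ((d ^ 2 : ℕ) : ℝ)| =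
          K₀ * ((d ^ 2 : ℕ) : ℝ) ^ v * |z| := by
        rw [abs_div, abs_of_pos hDr, pow_succ]
        field_simp
      rw [this]
      exact hz2
  have hbL : b + 1 ≤ L := by omega
  -- the right end of the region
  set hi : ℝ := p * (2 * (b + 1 : ℕ)) + R with hhi
  set S₁ : ℕ := ⌊hi⌋₊ + 2 * 331776 ^ I with hS₁
  have hhi0 : 0 ≤ hi := by positivity
  have hS₁real : (S₁ : ℝ) ≤ hi + 2 * 331776 ^ I := by
    rw [hS₁]; push_cast
    linarith [Nat.floor_le hhi0]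
  have hzS : ∀ j, s₀ + j ≤ S₁ → 2 * ((m : ℝ) ^ j * |z|) ≤ 1 := by
    intro j hj
    have hle : s₀ ≤ S₁ := by omega
    have hpow : (m : ℝ) ^ (S₁ - s₀) ≤ ((d : ℝ) ^ 2) ^ v := by
      have hm0 : (0 : ℝ) < m := by exact_mod_cast (by omega : 0 < m)
      rw [← Real.log_le_log_iff (by positivity) (by positivity), Real.log_pow, Real.log_pow,
        Real.log_pow]
      have h2 := H1 v hhv
      have h3 : ((S₁ - s₀ : ℕ) : ℝ) ≤ 2 * p * (v + 1) + 2 * R + 2 * 331776 ^ I + 1 := by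
        rw [Nat.cast_sub hle]
        have h4 : p * (2 * g₁) - R ≤ s₀ := by
          have := (abs_le.1 hs1).1
          linarith
        have h5 : hi = p * (2 * (g₁ + v + 1)) + R := by
          rw [hhi, hb]; push_cast; ring
        rw [h5] at hS₁real
        linarith
      have h4 := mul_le_mul_of_nonneg_right h3 hlogm.le
      push_cast
      linarith
    have h1 : (m : ℝ) ^ j ≤ ((d : ℝ) ^ 2) ^ v :=
      (pow_le_pow_right₀ (by exact_mod_cast (by omega : 1 ≤ m)) (by omega)).trans hpow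
    have h2 : 2 * ((m : ℝ) ^ j * |z|) ≤ K₀ * (((d : ℝ) ^ 2) ^ v * |z|) := by
      have h3 : (2 : ℝ) ≤ K₀ := by exact_mod_cast hK2
      have h4 : (m : ℝ) ^ j * |z| ≤ ((d : ℝ) ^ 2) ^ v * |z| := mul_le_mul_of_nonneg_right h1 (abs_nonneg z)
      have h5 : 0 ≤ ((d : ℝ) ^ 2) ^ v * |z| := by positivity
      nlinarith
    push_cast at hz2
    linarith
  -- the bad set
  set lo : ℝ := p * (2 * (b + 1 : ℕ)) - R with hlo
  set J : ℕ → ℕ → Prop := fun l s => s₀ ≤ s ∧ (s : ℝ) ≤ hi ∧ ∃ s', s ≤ s' ∧ s' ≤ s + 2 * 331776 ^ l ∧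
    Deep X (d ^ 2) K₀ (576 * 331776 ^ l) s' (b + 1 + 331776 ^ l) with hJ
  set a : ℕ := ⌈lo⌉₊ with ha
  set Rn : ℕ := ⌊2 * R⌋₊ + 2 with hRn
  set Bad : Finset ℕ := (Finset.Ico a (a + Rn)).filter
    (fun s => ((Finset.range I).filter (fun l => ¬ J l s)).card < w₀) with hBad
  have hBadcard : (Bad.card : ℝ) ≤ (2 * R + 3 + 331776 ^ I) * 48 ^ w₀ / 24 ^ I := by
    have h1 := cluster_count I w₀ a Rn J (by
      intro l hl s s' hs hs' hss
      obtain ⟨a1, a2, u, a3, a4, a5⟩ := hs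
      obtain ⟨b1, b2, u', b3, b4, b5⟩ := hs'
      have hQl : 1 ≤ 331776 ^ l := Nat.one_le_pow _ _ (by norm_num)
      have hQlI : 331776 ^ l ≤ 331776 ^ I := Nat.pow_le_pow_right (by norm_num) hl.le
      have hu : u ≤ S₁ := by
        have : s ≤ ⌊hi⌋₊ := Nat.le_floor a2
        omega
      have hu' : u' ≤ S₁ := by
        have : s' ≤ ⌊hi⌋₊ := Nat.le_floor b2
        omega
      rcases le_total u u' with huu | huu
      · rcases deep_cluster hX hm2 hD2 hcoD hmD hDm hK2 hz hz1 hzS (by omega) (by omega) huu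
          hu' a5 b5 with hc | hc
        · left; omega
        · right; omega
      · rcases deep_cluster hX hm2 hD2 hcoD hmD hDm hK2 hz hz1 hzS (by omega) (by omega) huu
          hu b5 a5 with hc | hc
        · left; omega
        · left; omega)
    have h1' : (Bad.card : ℝ) ≤ ((Rn : ℝ) + 331776 ^ I) * 48 ^ w₀ / 24 ^ I := by
      convert h1
    refine h1'.trans ?_
    have h2 : (Rn : ℝ) ≤ 2 * R + 3 := by
      rw [hRn]; push_cast
      linarith [Nat.floor_le (show 0 ≤ 2 * R by positivity)]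
    have h3 : (Rn : ℝ) + 331776 ^ I ≤ 2 * R + 3 + 331776 ^ I := by linarith
    gcongr
  -- the event is contained in two exceptional events and the bad positions
  have hsub : cW d (2 * L) E ≤ cW d (2 * L) (fun w => (R < |(pos w g₁ : ℝ) - p * (2 * g₁)| ∨
      R < |(pos w (b + 1) : ℝ) - p * (2 * (b + 1 : ℕ))|) ∨ pos w (b + 1) ∈ Bad) := by
    refine cW_mono fun w hw hw' => ?_
    obtain ⟨e1, e2, e3⟩ := hw'
    by_contra hcon
    rw [not_or, not_or, not_lt, not_lt] at hcon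
    obtain ⟨⟨c1, c2⟩, c3⟩ := hcon
    have hposg : s₀ ≤ pos w g₁ := hmin _ ⟨c1, hposN w hw e2 g₁ (by omega), e3⟩
    have hposb : s₀ ≤ pos w (b + 1) := hposg.trans (pos_mono w (by omega))
    rw [abs_le] at c2
    apply c3
    rw [hBad, Finset.mem_filter, Finset.mem_Ico]
    have hposhi : (pos w (b + 1) : ℝ) ≤ hi := by rw [hhi]; linarith [c2.2]
    refine ⟨⟨?_, ?_⟩, ?_⟩
    · rw [ha]
      exact Nat.ceil_le.2 (by rw [hlo]; linarith [c2.1])
    · have h1 : (pos w (b + 1) : ℝ) < a + Rn := by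
        have h2 : lo ≤ a := Nat.le_ceil _
        have h3 : 2 * R < ⌊2 * R⌋₊ + 1 := Nat.lt_floor_add_one _
        rw [hRn]; push_cast
        rw [hhi] at hposhi
        rw [hlo] at h2
        linarith
      exact_mod_cast h1
    · rw [nwh_eq] at e1
      have h1 := few_white_scales hX hm2 hD2 hcoD hK (pos_step w) (L := L) (w₀ := w₀) (b := b) (I := I)
        (Q := 331776) (K := 576) (by norm_num) (by norm_num) (by omega) e1
      refine lt_of_le_of_lt (Finset.card_le_card ?_) h1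
      intro l hl
      rw [Finset.mem_filter] at hl ⊢
      refine ⟨hl.1, fun hcon => hl.2 ?_⟩
      obtain ⟨s', q1, q2, q3⟩ := hcon
      exact ⟨hposb, hposhi, s', q1, q2, q3⟩
  refine hsub.trans ((cW_or_le _ _ _ _).trans ?_)
  have hA := cW_or_le d (2 * L) (fun w => R < |(pos w g₁ : ℝ) - p * (2 * g₁)|)
    (fun w => R < |(pos w (b + 1) : ℝ) - p * (2 * (b + 1 : ℕ))|)
  have hA1 := cheb_pos hd (show g₁ ≤ L by omega) hR
  have hA2 := cheb_pos hd hbL hR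
  have hA3 := count_pos hd hloc hbL (by omega) Bad
  have hsq : Real.sqrt (2 * g₁) ≤ Real.sqrt (2 * (b + 1 : ℕ)) := by
    apply Real.sqrt_le_sqrt
    have : (g₁ : ℝ) ≤ (b + 1 : ℕ) := by exact_mod_cast (by omega : g₁ ≤ b + 1)
    linarith
  have hsq0 : 0 < Real.sqrt (2 * g₁) := by
    apply Real.sqrt_pos.2
    have : (1 : ℝ) ≤ g₁ := by exact_mod_cast hg₁
    linarith
  have hA4 : (Bad.card : ℝ) * (C₁ * (d : ℝ) ^ (2 * L) / Real.sqrt (2 * (b + 1 : ℕ))) ≤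
      (d : ℝ) ^ (2 * L) * (C₁ * (2 * R + 3 + 331776 ^ I) * 48 ^ w₀ / 24 ^ I / Real.sqrt (2 * g₁)) := by
    calc (Bad.card : ℝ) * (C₁ * (d : ℝ) ^ (2 * L) / Real.sqrt (2 * (b + 1 : ℕ)))
        ≤ ((2 * R + 3 + 331776 ^ I) * 48 ^ w₀ / 24 ^ I) *
          (C₁ * (d : ℝ) ^ (2 * L) / Real.sqrt (2 * g₁)) := by
          gcongr
      _ = _ := by ring
  have hA5 : (d : ℝ) ^ (2 * L) * (2 * (2 * L / R ^ 2) +
      C₁ * (2 * R + 3 + 331776 ^ I) * 48 ^ w₀ / 24 ^ I / Real.sqrt (2 * g₁)) =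
      (d : ℝ) ^ (2 * L) * (2 * L / R ^ 2) + (d : ℝ) ^ (2 * L) * (2 * L / R ^ 2) +
      (d : ℝ) ^ (2 * L) * (C₁ * (2 * R + 3 + 331776 ^ I) * 48 ^ w₀ / 24 ^ I / Real.sqrt (2 * g₁)) := by
    ring
  rw [hA5]
  push_cast at hA hA2 hA3 hA4 ⊢
  linarith

/-- All windows together. -/
theorem few_white_bound {d m : ℕ} (hd : 2 ≤ d) (hdm : d < m) (hmD : m ≤ d ^ 2)
    (hco : Nat.Coprime m d) {X : ℕ → ℕ → ℝ} (hX : Ph (d ^ 2) m X) {C₁ : ℝ} (hC₁ : 0 < C₁) (hloc : ∀ t s : ℕ, 1 ≤ t →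
      cW d t (fun w => sg w = s) ≤ C₁ * (d : ℝ) ^ t / Real.sqrt t)
    {N K₀ n₀ : ℕ} (hK : m ^ 2 + d ^ 2 < K₀)
    {L w₀ I δ lam : ℕ} {R : ℝ} (hR : 0 < R) (hδ : 1 ≤ δ) (hlam : 1 ≤ lam) (hδL : w₀ * lam ≤ δ)
    (hL0 : 2 * δ + 0 + 1 + 331776 ^ I ≤ L)
    (H1 : ∀ v : ℕ, lam - 1 ≤ v → (2 * (1 - 1 / (d : ℝ)) * (v + 1) + 2 * R + 2 * 331776 ^ I + 1) *
      Real.log m ≤ v * (2 * Real.log d))
    (H2 : ∀ g₁ ≤ 2 * δ, ∀ s v : ℕ, s + n₀ ≤ N → Deep X (d ^ 2) K₀ v s g₁ → 2 * δ + v + 1 + 331776 ^ I ≤ L) :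
    cW d (2 * L) (fun w => nwh (White X (d ^ 2) K₀) L w 0 0 < w₀) ≤
      cW d (2 * L) (fun w => N < sg w + n₀) +
      w₀ * ((d : ℝ) ^ (2 * L) * (2 * (2 * L / R ^ 2) +
        C₁ * (2 * R + 3 + 331776 ^ I) * 48 ^ w₀ / 24 ^ I / Real.sqrt (2 * δ))) := by
  classical
  have hm2 : 2 ≤ m := by omega
  have hD2 : 2 ≤ d ^ 2 := hd.trans (Nat.le_self_pow two_ne_zero d)
  have hcoD : Nat.Coprime m (d ^ 2) := Nat.Coprime.pow_right 2 hco
  have hQI : 1 ≤ 331776 ^ I := Nat.one_le_pow _ _ (by norm_num)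
  have hsub : cW d (2 * L) (fun w => nwh (White X (d ^ 2) K₀) L w 0 0 < w₀) ≤
      cW d (2 * L) (fun w => N < sg w + n₀ ∨ ∃ i ∈ Finset.range w₀,
        (nwh (White X (d ^ 2) K₀) L w 0 0 < w₀ ∧ sg w + n₀ ≤ N ∧
        Deep X (d ^ 2) K₀ (lam - 1) (pos w (δ + i * lam)) (δ + i * lam))) := by
    refine cW_mono fun w hw hw' => ?_
    by_cases h1 : N < sg w + n₀
    · exact Or.inl h1
    · right
      have h2 := hw'
      rw [nwh_eq] at h2
      obtain ⟨i, hi, hi2⟩ := exists_deep_window hX hm2 hD2 hcoD hK (pos_step w) (L := L) (δ := δ)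
        hlam (by omega) h2
      exact ⟨i, Finset.mem_range.2 hi, hw', by omega, hi2⟩
  refine hsub.trans ((cW_or_le _ _ _ _).trans (add_le_add le_rfl ?_))
  refine (cW_exists_le d (2 * L) (Finset.range w₀) _).trans ?_
  rw [← nsmul_eq_mul, ← Finset.card_range w₀, Finset.card_range]
  have h3 : ∀ i ∈ Finset.range w₀, cW d (2 * L) (fun w =>
      (nwh (White X (d ^ 2) K₀) L w 0 0 < w₀ ∧ sg w + n₀ ≤ N ∧
        Deep X (d ^ 2) K₀ (lam - 1) (pos w (δ + i * lam)) (δ + i * lam))) ≤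
      (d : ℝ) ^ (2 * L) * (2 * (2 * L / R ^ 2) +
        C₁ * (2 * R + 3 + 331776 ^ I) * 48 ^ w₀ / 24 ^ I / Real.sqrt (2 * δ)) := by
    intro i hi
    rw [Finset.mem_range] at hi
    have hgi : δ + i * lam ≤ 2 * δ := by
      have : i * lam ≤ w₀ * lam := Nat.mul_le_mul_right _ hi.le
      omega
    refine (index_bound hd hdm hmD hco hX hC₁ hloc (N := N) (n₀ := n₀) hK hR (by omega) (by omega) H1
      (fun s v hs hv => ?_)).trans ?_
    · have := H2 (δ + i * lam) hgi s v hs hv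
      omega
    · have hδ' : (1 : ℝ) ≤ δ := by exact_mod_cast hδ
      have hsq : Real.sqrt (2 * δ) ≤ Real.sqrt (2 * (δ + i * lam : ℕ)) := by
        apply Real.sqrt_le_sqrt
        have : (δ : ℝ) ≤ (δ + i * lam : ℕ) := by exact_mod_cast (by omega)
        linarith
      have hsq0 : 0 < Real.sqrt (2 * δ) := Real.sqrt_pos.2 (by linarith)
      gcongr
  refine (Finset.sum_le_card_nsmul _ _ _ h3).trans ?_
  rw [Finset.card_range]

end Pool.Agent.Helper8.LQ
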