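import Pool.Agent.Helper8.PW.LD
import Pool.Agent.Helper8.LQ.Def

/-!
# Block LDq: level of distribution of the invariant sets for all moduli

* `cls_shiftQ`: the class `b` modulo `d ^ i * (q * m ^ j)` is sent by `T^[i]` to the class `T^[i] b` modulo `q * m ^ (c + j)`.
* `levelQ`: the moduli `q * m ^ k`.
* `levelF`.
-/

set_option autoImplicit false

namespace Pool.Agent.Helper8.LQ

open Pool.Agent.Helper68.Moeller Pool.Agent.Helper52.Tao Pool.Agent.Helper8.ND Pool.Agent.Helper28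
  Pool.Agent.Helper91 Pool.Agent.Helper8.PW Filter Topology

variable {d m : ℕ} {r : ℤ → ℤ}

private theorem card_near {N : ℝ} (hN : 1 ≤ N) (b : ℤ) (x : ℝ) {e : ℝ} (he : 0 ≤ e) :
    {v : ℤ | |(b : ℝ) + N * v - x| ≤ e}.Finite ∧ ({v : ℤ | |(b : ℝ) + N * v - x| ≤ e}.ncard : ℝ) ≤ 2 * e + 2 := by
  have hN0 : 0 < N := by linarith
  have hsub : {v : ℤ | |(b : ℝ) + N * v - x| ≤ e} ⊆
      {v : ℤ | (x - e - b) / N ≤ v ∧ (v : ℝ) < (x - e - b) / N + (2 * e + 1)} := by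
    intro v hv
    have hv' : |(b : ℝ) + N * v - x| ≤ e := hv
    rw [abs_le] at hv'
    obtain ⟨h1, h2⟩ := hv'
    refine ⟨?_, ?_⟩
    · rw [div_le_iff₀ hN0]
      linarith
    · have h3 : (v : ℝ) ≤ (x + e - b) / N := by
        rw [le_div_iff₀ hN0]
        linarith
      have h4 : (x + e - b) / N = (x - e - b) / N + 2 * e / N := by ring
      have h5 : 2 * e / N ≤ 2 * e := div_le_self (by linarith) hN
      linarith
  have hfin := finite_Ico ((x - e - b) / N) ((x - e - b) / N + (2 * e + 1))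
  refine ⟨hfin.subset hsub, ?_⟩
  have h1 := Set.ncard_le_ncard hsub hfin
  have h2 := ncard_Ico_le ((x - e - b) / N) (δ := 2 * e + 1) (by linarith)
  have h3 : ({v : ℤ | |(b : ℝ) + N * v - x| ≤ e}.ncard : ℝ) ≤
      ({v : ℤ | (x - e - b) / N ≤ v ∧ (v : ℝ) < (x - e - b) / N + (2 * e + 1)}.ncard : ℝ) := by exact_mod_cast h1
  linarith

/-- `T^[i]` sends a class modulo `d ^ i * (q * m ^ j)` to a class modulo `q * m ^ (c + j)`. -/
theorem cls_shiftQ (hd : 2 ≤ d) (hdm : d < m) (hco : Nat.Coprime m d) (hr : Admissible d m r) {B : ℕ}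
    (hB : ∀ j : ℤ, 0 < j → j < (d : ℤ) → |r j| ≤ B) {G : Set ℤ} {z : ℝ} (hz : 0 ≤ z)
    (hG : TInv d m r G z) {i j q : ℕ} (hq : 0 < q) {b : ℤ} {x : ℝ} (hx : (B : ℝ) * m ^ i + z * d ^ i < x) :
    |({n : ℤ | x ≤ n ∧ (n : ℝ) < 2 * x ∧ ((d ^ i * (q * m ^ j) : ℕ) : ℤ) ∣ n - b ∧ n ∈ G}.ncard : ℝ) -
      ({y : ℤ | x * (m : ℝ) ^ sg (wd d m r i b) / (d : ℝ) ^ i ≤ y ∧
        (y : ℝ) < 2 * (x * (m : ℝ) ^ sg (wd d m r i b) / (d : ℝ) ^ i) ∧
        ((q * m ^ (sg (wd d m r i b) + j) : ℕ) : ℤ) ∣ y - (T d m r)^[i] b ∧ y ∈ G}.ncard : ℝ)| ≤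
      4 * (B * (m : ℝ) ^ i + 1) := by
  have hd0 : (0 : ℝ) < d := by exact_mod_cast (by omega : 0 < d)
  have hm0 : (0 : ℝ) < m := by exact_mod_cast (by omega : 0 < m)
  have hd1 : (1 : ℝ) ≤ d := by exact_mod_cast (by omega : 1 ≤ d)
  have hm1 : (1 : ℝ) ≤ m := by exact_mod_cast (by omega : 1 ≤ m)
  obtain ⟨c, hc⟩ : ∃ c, c = sg (wd d m r i b) := ⟨_, rfl⟩
  obtain ⟨e, he⟩ : ∃ e : ℝ, e = B * (m : ℝ) ^ i := ⟨_, rfl⟩
  have he0 : 0 ≤ e := by rw [he]; positivity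
  rw [← hc, ← he]
  obtain ⟨f, hf⟩ : ∃ f : ℤ → ℤ, f = fun v => b + (d : ℤ) ^ i * ((q : ℤ) * (m : ℤ) ^ j) * v := ⟨_, rfl⟩
  obtain ⟨g, hg⟩ : ∃ g : ℤ → ℤ, g = fun v => (T d m r)^[i] b + (q : ℤ) * (m : ℤ) ^ (c + j) * v := ⟨_, rfl⟩
  have hfg : ∀ v, (T d m r)^[i] (f v) = g v := by
    intro v
    have h1 := PL.iter_add67 hd hco hr i b ((q : ℤ) * (m : ℤ) ^ j * v)
    have e1 : b + (d : ℤ) ^ i * ((q : ℤ) * (m : ℤ) ^ j * v) = f v := by rw [hf]; ring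
    rw [e1, ← hc] at h1
    rw [h1, hg]
    ring
  have hwd : ∀ v, wd d m r i (f v) = wd d m r i b := by
    intro v
    refine (wd_unique hd hco hr (wd_mem (m := m) hd r i b) (y := g v) ?_).1
    have h := wd_spec hd hr i b
    rw [← hc] at h ⊢
    rw [hf, hg]
    simp only
    rw [pow_add]
    linear_combination -h
  have hrel : ∀ v, |(d : ℝ) ^ i * (g v : ℝ) - (m : ℝ) ^ c * (f v : ℝ)| ≤ e := by
    intro v
    have h1 := wd_spec hd hr i (f v)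
    have h2 := abs_Off_le hd hdm hB (wd_mem (m := m) hd r i (f v))
    rw [hfg] at h1
    rw [hwd v] at h1 h2
    rw [← hc] at h1
    have h3 : (d : ℝ) ^ i * (g v : ℝ) = (m : ℝ) ^ c * (f v : ℝ) - (Off d m r (wd d m r i b) : ℝ) := by
      exact_mod_cast h1
    have h4 : |((Off d m r (wd d m r i b) : ℤ) : ℝ)| ≤ B * (m : ℝ) ^ i := by exact_mod_cast h2
    rw [h3, he]
    have e1 : (m : ℝ) ^ c * (f v : ℝ) - (Off d m r (wd d m r i b) : ℝ) - (m : ℝ) ^ c * (f v : ℝ) =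
        -(Off d m r (wd d m r i b) : ℝ) := by ring
    rw [e1, abs_neg]
    exact h4
  obtain ⟨y₁, hy₁⟩ : ∃ y₁ : ℝ, y₁ = x * (m : ℝ) ^ c / (d : ℝ) ^ i := ⟨_, rfl⟩
  rw [← hy₁]
  have hfinj : Function.Injective f := by
    intro u v huv
    rw [hf] at huv
    simp only at huv
    have h0 : (d : ℤ) ^ i * ((q : ℤ) * (m : ℤ) ^ j) ≠ 0 := by
      have h1 : (d : ℤ) ≠ 0 := by omega
      have h3 : (q : ℤ) ≠ 0 := by omega
      have h2 : (m : ℤ) ≠ 0 := by omega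
      positivity
    exact mul_left_cancel₀ h0 (by linarith)
  have hginj : Function.Injective g := by
    intro u v huv
    rw [hg] at huv
    simp only at huv
    have h0 : (q : ℤ) * (m : ℤ) ^ (c + j) ≠ 0 := by
      have h3 : (q : ℤ) ≠ 0 := by omega
      have h2 : (m : ℤ) ≠ 0 := by omega
      positivity
    exact mul_left_cancel₀ h0 (by linarith)
  obtain ⟨Vn, hVn⟩ : ∃ Vn : Set ℤ, Vn = {v : ℤ | x ≤ f v ∧ (f v : ℝ) < 2 * x ∧ g v ∈ G} := ⟨_, rfl⟩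
  obtain ⟨Vy, hVy⟩ : ∃ Vy : Set ℤ, Vy = {v : ℤ | y₁ ≤ g v ∧ (g v : ℝ) < 2 * y₁ ∧ g v ∈ G} := ⟨_, rfl⟩
  have hSn : {n : ℤ | x ≤ n ∧ (n : ℝ) < 2 * x ∧ ((d ^ i * (q * m ^ j) : ℕ) : ℤ) ∣ n - b ∧ n ∈ G} = f '' Vn := by
    ext n
    rw [hVn]
    constructor
    · rintro ⟨h1, h2, ⟨v, hv⟩, h4⟩
      have e1 : n = f v := by
        rw [hf]
        push_cast at hv
        simp only
        linarith
      subst e1
      refine ⟨v, ⟨h1, h2, ?_⟩, rfl⟩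
      rw [← hfg]
      exact (mem_iter hd hdm hr hB hz hG (t := i) (n := f v) (lt_of_lt_of_le hx h1) i le_rfl).1 h4
    · rintro ⟨v, ⟨h1, h2, h3⟩, rfl⟩
      refine ⟨h1, h2, ⟨v, ?_⟩, ?_⟩
      · rw [hf]
        push_cast
        ring
      · rw [← hfg] at h3
        exact (mem_iter hd hdm hr hB hz hG (t := i) (n := f v) (lt_of_lt_of_le hx h1) i le_rfl).2 h3
  have hSy : {y : ℤ | y₁ ≤ y ∧ (y : ℝ) < 2 * y₁ ∧ ((q * m ^ (c + j) : ℕ) : ℤ) ∣ y - (T d m r)^[i] b ∧ y ∈ G} =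
      g '' Vy := by
    ext y
    rw [hVy]
    constructor
    · rintro ⟨h1, h2, ⟨v, hv⟩, h4⟩
      have e1 : y = g v := by
        rw [hg]
        push_cast at hv
        simp only
        linarith
      subst e1
      exact ⟨v, ⟨h1, h2, h4⟩, rfl⟩
    · rintro ⟨v, ⟨h1, h2, h3⟩, rfl⟩
      refine ⟨h1, h2, ⟨v, ?_⟩, h3⟩
      rw [hg]
      push_cast
      ring
  rw [hSn, hSy, Set.ncard_image_of_injective _ hfinj, Set.ncard_image_of_injective _ hginj]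
  have hVnf : Vn.Finite := by
    refine ((finite_Ico x (2 * x)).preimage hfinj.injOn).subset ?_
    rw [hVn]
    rintro v ⟨h1, h2, -⟩
    exact ⟨h1, h2⟩
  have hVyf : Vy.Finite := by
    refine ((finite_Ico y₁ (2 * y₁)).preimage hginj.injOn).subset ?_
    rw [hVy]
    rintro v ⟨h1, h2, -⟩
    exact ⟨h1, h2⟩
  -- the bad points
  obtain ⟨N, hN⟩ : ∃ N : ℝ, N = (d : ℝ) ^ i * ((q : ℝ) * (m : ℝ) ^ j) := ⟨_, rfl⟩
  have hN1 : 1 ≤ N := by
    rw [hN]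
    exact one_le_mul_of_one_le_of_one_le (one_le_pow₀ hd1)
      (one_le_mul_of_one_le_of_one_le (by exact_mod_cast hq) (one_le_pow₀ hm1))
  have hfv : ∀ v, (f v : ℝ) = (b : ℝ) + N * v := by
    intro v
    rw [hf, hN]
    push_cast
    ring
  obtain ⟨b1, b2⟩ := card_near hN1 b x he0
  obtain ⟨b3, b4⟩ := card_near hN1 b (2 * x) he0
  obtain ⟨A1, hA1⟩ : ∃ A1 : Set ℤ, A1 = {v : ℤ | |(b : ℝ) + N * v - x| ≤ e} := ⟨_, rfl⟩
  obtain ⟨A2, hA2⟩ : ∃ A2 : Set ℤ, A2 = {v : ℤ | |(b : ℝ) + N * v - 2 * x| ≤ e} := ⟨_, rfl⟩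
  rw [← hA1] at b1 b2
  rw [← hA2] at b3 b4
  have hdi : (0 : ℝ) < (d : ℝ) ^ i := by positivity
  have hmc : (1 : ℝ) ≤ (m : ℝ) ^ c := one_le_pow₀ hm1
  -- comparison of the conditions
  have key1 : ∀ v (u : ℝ), ¬ |(f v : ℝ) - u| ≤ e → (u ≤ f v ↔ u * (m : ℝ) ^ c / (d : ℝ) ^ i ≤ g v) := by
    intro v u hv
    have h1 := hrel v
    rw [abs_le] at h1
    obtain ⟨h2, h3⟩ := h1
    rw [div_le_iff₀ hdi]
    constructor
    · intro h4
      have h5 : e < (f v : ℝ) - u := by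
        by_contra hcon
        push Not at hcon
        exact hv (abs_le.2 ⟨by linarith, hcon⟩)
      have h6 : (f v : ℝ) - u ≤ (m : ℝ) ^ c * ((f v : ℝ) - u) :=
        le_mul_of_one_le_left (by linarith) hmc
      linarith
    · intro h4
      by_contra hcon
      push Not at hcon
      have h5 : (f v : ℝ) - u < -e := by
        by_contra hcon2
        push Not at hcon2
        exact hv (abs_le.2 ⟨hcon2, by linarith⟩)
      have h6 : (m : ℝ) ^ c * ((f v : ℝ) - u) ≤ (f v : ℝ) - u := by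
        have : (f v : ℝ) - u ≤ 0 := by linarith
        nlinarith
      linarith
  have hmem : ∀ v, v ∉ A1 ∪ A2 → (v ∈ Vn ↔ v ∈ Vy) := by
    intro v hv
    rw [Set.mem_union, not_or, hA1, hA2] at hv
    obtain ⟨h1, h2⟩ := hv
    have h1' : ¬ |(f v : ℝ) - x| ≤ e := by rw [hfv]; exact h1
    have h2' : ¬ |(f v : ℝ) - 2 * x| ≤ e := by rw [hfv]; exact h2
    have h3 := key1 v x h1'
    have h4 := key1 v (2 * x) h2'
    have h5 : 2 * x * (m : ℝ) ^ c / (d : ℝ) ^ i = 2 * y₁ := by rw [hy₁]; ring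
    rw [← hy₁] at h3
    rw [h5] at h4
    rw [hVn, hVy]
    constructor
    · rintro ⟨k1, k2, k3⟩
      exact ⟨h3.1 k1, by
        by_contra hcon
        push Not at hcon
        have := h4.2 hcon
        linarith, k3⟩
    · rintro ⟨k1, k2, k3⟩
      exact ⟨h3.2 k1, by
        by_contra hcon
        push Not at hcon
        have := h4.1 hcon
        linarith, k3⟩
  have hAf : (A1 ∪ A2).Finite := b1.union b3
  have hAc : ((A1 ∪ A2).ncard : ℝ) ≤ 4 * e + 4 := by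
    have h1 : ((A1 ∪ A2).ncard : ℝ) ≤ (A1.ncard : ℝ) + A2.ncard := by
      exact_mod_cast Set.ncard_union_le A1 A2
    linarith
  have hsub1 : Vn ⊆ Vy ∪ (A1 ∪ A2) := by
    intro v hv
    by_cases hA : v ∈ A1 ∪ A2
    · exact Or.inr hA
    · exact Or.inl ((hmem v hA).1 hv)
  have hsub2 : Vy ⊆ Vn ∪ (A1 ∪ A2) := by
    intro v hv
    by_cases hA : v ∈ A1 ∪ A2
    · exact Or.inr hA
    · exact Or.inl ((hmem v hA).2 hv)
  have h1 : (Vn.ncard : ℝ) ≤ Vy.ncard + (A1 ∪ A2).ncard := by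
    exact_mod_cast (Set.ncard_le_ncard hsub1 (hVyf.union hAf)).trans (Set.ncard_union_le _ _)
  have h2 : (Vy.ncard : ℝ) ≤ Vn.ncard + (A1 ∪ A2).ncard := by
    exact_mod_cast (Set.ncard_le_ncard hsub2 (hVnf.union hAf)).trans (Set.ncard_union_le _ _)
  rw [abs_le]
  constructor <;> linarith

/-- The moduli `q * m ^ k`. -/
theorem levelQ (hd : 2 ≤ d) (hdm : d < m) (hr : Admissible d m r) (hc : ClassFlowQ d m r) : LevelQ d m r := by
  intro A'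
  obtain ⟨A, hA⟩ : ∃ A : ℝ, A = max A' 0 := ⟨_, rfl⟩
  have hA0 : 0 ≤ A := by rw [hA]; exact le_max_right _ _
  have hAA : A' ≤ A := by rw [hA]; exact le_max_left _ _
  obtain ⟨κ, C, hκ, hC, hcf⟩ := hc A
  obtain ⟨B, hB⟩ := FL_exists_B d r
  have hd2 : (2 : ℝ) ≤ d := by exact_mod_cast hd
  have hm2 : (2 : ℝ) ≤ m := by exact_mod_cast (by omega : 2 ≤ m)
  have hd1 : (1 : ℝ) ≤ d := by linarith
  have hm1 : (1 : ℝ) ≤ m := by linarith
  have hlm : 0 < Real.log m := Real.log_pos (by linarith)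
  have hld : 0 < Real.log d := Real.log_pos (by linarith)
  obtain ⟨Q, hQ⟩ : ∃ Q : ℝ, Q = 16 * Real.log ((d : ℝ) * m) := ⟨_, rfl⟩
  have hdm1 : (1 : ℝ) < (d : ℝ) * m := by nlinarith
  have hQ0 : 0 < Q := by
    rw [hQ]
    have := Real.log_pos hdm1
    linarith
  -- the number of steps
  have hT : Tendsto (fun x : ℝ => ⌊Real.log x / Q⌋₊) atTop atTop :=
    tendsto_nat_floor_atTop.comp (Tendsto.atTop_div_const hQ0 Real.tendsto_log_atTop)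
  have hTR : Tendsto (fun x : ℝ => ((⌊Real.log x / Q⌋₊ : ℕ) : ℝ)) atTop atTop :=
    tendsto_natCast_atTop_atTop.comp hT
  obtain ⟨θ, hθ⟩ : ∃ θ : ℝ, θ = κ / (2 * Q) := ⟨_, rfl⟩
  have hθ0 : 0 < θ := by rw [hθ]; positivity
  refine ⟨θ, C * (2 * Q) ^ A, hθ0, by positivity, fun z' => ?_⟩
  obtain ⟨z, hz, hz'⟩ : ∃ z : ℝ, 0 ≤ z ∧ z' ≤ z := ⟨max z' 0, le_max_right _ _, le_max_left _ _⟩
  have hev1 : ∀ᶠ x : ℝ in atTop, 1 ≤ ((⌊Real.log x / Q⌋₊ : ℕ) : ℝ) := hTR.eventually_ge_atTop _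
  have hev2 : ∀ᶠ x : ℝ in atTop, 2 * Q ≤ Real.log x := Real.tendsto_log_atTop.eventually_ge_atTop _
  obtain ⟨X, hX⟩ := eventually_atTop.1 (hev1.and hev2)
  refine ⟨max (max X (Real.exp 1)) (max (C ^ 2) ((B + z + 1) ^ 2)), ?_⟩
  intro G hG' x hx k q hAd hk b
  have hG : TInv d m r G z := PL.tinv_mono hG' hz'
  have hxe : Real.exp 1 ≤ x := ((le_max_right _ _).trans (le_max_left _ _)).trans hx
  obtain ⟨h1, h2⟩ := hX x (((le_max_left _ _).trans (le_max_left _ _)).trans hx)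
  have hx1 : 1 ≤ x := (Real.one_le_exp zero_le_one).trans hxe
  have hxC : C ^ 2 ≤ x := ((le_max_left _ _).trans (le_max_right _ _)).trans hx
  have hxB : ((B : ℝ) + z + 1) ^ 2 ≤ x := ((le_max_right _ _).trans (le_max_right _ _)).trans hx
  have hx0 : 0 < x := by linarith
  obtain ⟨t, ht⟩ : ∃ t : ℕ, t = ⌊Real.log x / Q⌋₊ := ⟨_, rfl⟩
  rw [← ht] at h1
  have ht1 : (1 : ℝ) ≤ t := h1
  have ht1' : 1 ≤ t := by exact_mod_cast ht1
  have hlx : 0 ≤ Real.log x := Real.log_nonneg hx1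
  have ht2 : (t : ℝ) ≤ Real.log x / Q := by
    rw [ht]
    exact Nat.floor_le (by positivity)
  have ht3 : Real.log x / Q < t + 1 := by
    rw [ht]
    exact Nat.lt_floor_add_one _
  have hs0 : 0 ≤ Real.sqrt x := Real.sqrt_nonneg x
  have hsx : Real.sqrt x * Real.sqrt x = x := Real.mul_self_sqrt hx0.le
  -- `(d m) ^ (8 t) ≤ √x`
  have hP : ((d : ℝ) * m) ^ (8 * t) ≤ Real.sqrt x := by
    rw [Real.sqrt_eq_rpow, ← Real.rpow_natCast, Real.rpow_def_of_pos (by positivity),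
      Real.rpow_def_of_pos hx0]
    apply Real.exp_le_exp.2
    rw [le_div_iff₀ hQ0, hQ] at ht2
    push_cast
    linarith
  have hCx : C * ((d : ℝ) * m) ^ (8 * t) ≤ x := by
    have h3 : C ≤ Real.sqrt x := Real.le_sqrt_of_sq_le hxC
    calc C * ((d : ℝ) * m) ^ (8 * t) ≤ Real.sqrt x * Real.sqrt x :=
          mul_le_mul h3 hP (by positivity) hs0
      _ = x := hsx
  -- `log (q m ^ k) ≤ κ t`
  have hlt : Real.log x ≤ 2 * Q * t := by
    rw [div_lt_iff₀ hQ0] at ht3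
    have : Q ≤ Q * t := by nlinarith
    linarith
  have hq0 : 0 < q := hAd.1
  have hqm0 : (0 : ℝ) < ((q * m ^ k : ℕ) : ℝ) := by
    have : 0 < q * m ^ k := Nat.mul_pos hq0 (pow_pos (by omega) k)
    exact_mod_cast this
  have hkt : Real.log ((q * m ^ k : ℕ) : ℝ) ≤ κ * t := by
    have h3 : Real.log ((q * m ^ k : ℕ) : ℝ) ≤ θ * Real.log x := by
      have h4 := Real.log_le_log hqm0 hk
      rwa [Real.log_rpow hx0] at h4
    calc Real.log ((q * m ^ k : ℕ) : ℝ) ≤ θ * Real.log x := h3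
      _ ≤ θ * (2 * Q * t) := mul_le_mul_of_nonneg_left hlt hθ0.le
      _ = κ * t := by
        rw [hθ]
        field_simp
  have h3 := hcf t ht1' k q hAd hkt b x hCx G
  -- the sets
  have hbig : ∀ n : ℤ, x ≤ n → (B : ℝ) * m ^ t + z * d ^ t < n := by
    intro n hn
    have hD : (d : ℝ) ^ t ≤ Real.sqrt x := by
      refine le_trans ?_ hP
      rw [mul_pow]
      calc (d : ℝ) ^ t ≤ (d : ℝ) ^ (8 * t) := pow_le_pow_right₀ hd1 (by omega)
        _ ≤ (d : ℝ) ^ (8 * t) * (m : ℝ) ^ (8 * t) := le_mul_of_one_le_right (by positivity) (one_le_pow₀ hm1)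
    have hM : (m : ℝ) ^ t ≤ Real.sqrt x := by
      refine le_trans ?_ hP
      rw [mul_pow]
      calc (m : ℝ) ^ t ≤ (m : ℝ) ^ (8 * t) := pow_le_pow_right₀ hm1 (by omega)
        _ ≤ (d : ℝ) ^ (8 * t) * (m : ℝ) ^ (8 * t) := le_mul_of_one_le_left (by positivity) (one_le_pow₀ hd1)
    have hB1 : (B : ℝ) + z + 1 ≤ Real.sqrt x := Real.le_sqrt_of_sq_le hxB
    have h4 : (B : ℝ) * m ^ t ≤ B * Real.sqrt x := mul_le_mul_of_nonneg_left hM (Nat.cast_nonneg B)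
    have h5 : z * (d : ℝ) ^ t ≤ z * Real.sqrt x := mul_le_mul_of_nonneg_left hD hz
    have h6 : ((B : ℝ) + z + 1) * Real.sqrt x ≤ Real.sqrt x * Real.sqrt x :=
      mul_le_mul_of_nonneg_right hB1 hs0
    have h7 : 1 ≤ Real.sqrt x := by
      rw [← Real.sqrt_one]
      exact Real.sqrt_le_sqrt hx1
    nlinarith
  have e1 : ∀ n : ℤ, x ≤ n → ((T d m r)^[t] n ∈ G ↔ n ∈ G) := fun n hn =>
    (mem_iter hd hdm hr hB hz hG (hbig n hn) t le_rfl).symm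
  have e2 : fdc {n | (T d m r)^[t] n ∈ G} (q * m ^ k) b x = fdc G (q * m ^ k) b x := by
    unfold fdc
    congr 3
    congr 1
    ext n
    simp only [Set.mem_ofPred_eq]
    constructor
    · rintro ⟨k1, k2, k3, k4⟩
      exact ⟨k1, k2, k3, (e1 n k1).1 k4⟩
    · rintro ⟨k1, k2, k3, k4⟩
      exact ⟨k1, k2, k3, (e1 n k1).2 k4⟩
  have e3 : fd {n | (T d m r)^[t] n ∈ G} x = fd G x := by
    unfold fd
    congr 3
    ext n
    simp only [Set.mem_ofPred_eq]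
    constructor
    · rintro ⟨k1, k2, k4⟩
      exact ⟨k1, k2, (e1 n k1).1 k4⟩
    · rintro ⟨k1, k2, k4⟩
      exact ⟨k1, k2, (e1 n k1).2 k4⟩
  rw [e2, e3] at h3
  refine h3.trans ?_
  have ht0 : (0 : ℝ) < t := by linarith
  have hlx1 : 1 ≤ Real.log x := by
    have := Real.log_le_log (Real.exp_pos 1) hxe
    rwa [Real.log_exp] at this
  have e4 : (Real.log x) ^ (-A) ≤ (Real.log x) ^ (-A') := Real.rpow_le_rpow_of_exponent_le hlx1 (by linarith)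
  have e5 : (t : ℝ) ^ (-A) ≤ (2 * Q) ^ A * (Real.log x) ^ (-A) := by
    have h5 : (2 * Q * t) ^ (-A) ≤ (Real.log x) ^ (-A) :=
      Real.rpow_le_rpow_of_nonpos (by linarith) hlt (by linarith)
    have h6 : (t : ℝ) ^ (-A) = (2 * Q) ^ A * (2 * Q * t) ^ (-A) := by
      rw [Real.mul_rpow (by positivity) ht0.le, ← mul_assoc, ← Real.rpow_add (by positivity), add_neg_cancel,
        Real.rpow_zero, one_mul]
    rw [h6]
    exact mul_le_mul_of_nonneg_left h5 (by positivity)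
  calc C * (t : ℝ) ^ (-A) ≤ C * ((2 * Q) ^ A * (Real.log x) ^ (-A)) := mul_le_mul_of_nonneg_left e5 hC.le
    _ = C * (2 * Q) ^ A * (Real.log x) ^ (-A) := by ring
    _ ≤ C * (2 * Q) ^ A * (Real.log x) ^ (-A') := mul_le_mul_of_nonneg_left e4 (by positivity)

/-- **Level of distribution.** -/
theorem levelF (h : POSB.Std d m r) (hcQ : LevelQ d m r) : LevelF d m r := by
  obtain ⟨hd, hdm, hco, hw, hr⟩ := id h
  obtain ⟨θ₂, CL, hθ₂, hCL, hclQ⟩ := hcQ 1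
  have hcl : ∀ z ε : ℝ, 0 ≤ z → 0 < ε → ∃ X : ℝ, 1 ≤ X ∧ ∀ G : Set ℤ, TInv d m r G z →
      ∀ x : ℝ, X ≤ x → ∀ k q : ℕ, Ad d r q → ((q * m ^ k : ℕ) : ℝ) ≤ x ^ θ₂ → ∀ b : ℤ,
        |fdc G (q * m ^ k) b x - fd G x| ≤ ε := by
    intro z ε _ hε
    obtain ⟨X, hX⟩ := hclQ z
    obtain ⟨X', hX'⟩ := eventually_atTop.1
      ((Real.tendsto_log_atTop.eventually_ge_atTop (max 1 (CL / ε))))
    refine ⟨max (max X X') 1, le_max_right _ _, fun G hG x hx k q hAd hk b => ?_⟩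
    refine (hX G hG x (((le_max_left _ _).trans (le_max_left _ _)).trans hx) k q hAd hk b).trans ?_
    have h1 := hX' x (((le_max_right _ _).trans (le_max_left _ _)).trans hx)
    have h2 : CL / ε ≤ Real.log x := (le_max_right _ _).trans h1
    have h3 : 0 < Real.log x := lt_of_lt_of_le one_pos ((le_max_left _ _).trans h1)
    rw [Real.rpow_neg h3.le, Real.rpow_one, ← div_eq_mul_inv, div_le_iff₀ h3]
    rw [div_le_iff₀ hε] at h2
    linarith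
  obtain ⟨B, hB⟩ := FL_exists_B d r
  have hd2 : (2 : ℝ) ≤ d := by exact_mod_cast hd
  have hm2 : (2 : ℝ) ≤ m := by exact_mod_cast (by omega : 2 ≤ m)
  have hd1 : (1 : ℝ) ≤ d := by linarith
  have hm1 : (1 : ℝ) ≤ m := by linarith
  have hlm : 0 < Real.log m := Real.log_pos (by linarith)
  have hld : 0 < Real.log d := Real.log_pos (by linarith)
  obtain ⟨lam, hlam⟩ : ∃ lam : ℝ, lam = Real.log m / Real.log d := ⟨_, rfl⟩
  have hlam0 : 0 < lam := by rw [hlam]; positivity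
  obtain ⟨θ, hθ⟩ : ∃ θ : ℝ, θ = min (θ₂ / 2) (1 / 2) / (lam + 1) := ⟨_, rfl⟩
  have hmin0 : 0 < min (θ₂ / 2) (1 / 2 : ℝ) := by positivity
  have hθ0 : 0 < θ := by rw [hθ]; positivity
  have hθl : θ * (lam + 1) = min (θ₂ / 2) (1 / 2) := by rw [hθ]; field_simp
  have hθ2 : θ * (lam + 1) ≤ θ₂ / 2 := hθl.le.trans (min_le_left _ _)
  have hθh : θ * (lam + 1) ≤ 1 / 2 := hθl.le.trans (min_le_right _ _)
  have hθ12 : θ ≤ 1 / 2 := by
    have : θ * lam ≥ 0 := by positivity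
    linarith
  refine ⟨θ, hθ0, fun z' ε hε => ?_⟩
  obtain ⟨z, hz0, hz'⟩ : ∃ z : ℝ, 0 ≤ z ∧ z' ≤ z := ⟨max z' 0, le_max_right _ _, le_max_left _ _⟩
  obtain ⟨X₁, hX₁, hcl⟩ := hcl z (ε / 3) hz0 (by linarith)
  obtain ⟨z0, hz01, hst⟩ := PL.stab_core hd hdm hco hr h.gam h.mix (ε := 1) (η := ε / 3) one_pos (by linarith)
  obtain ⟨z1, hz1⟩ : ∃ z1 : ℝ, z1 = max z z0 := ⟨_, rfl⟩
  -- the threshold
  obtain ⟨Y, hY⟩ : ∃ Y : ℝ, Y = max (max X₁ (z1 ^ (1 + 1 : ℝ))) (max ((B : ℝ) + z + 1) (12 * (B + 1) / ε)) := ⟨_, rfl⟩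
  have hY1 : 1 ≤ Y := by
    rw [hY]
    exact hX₁.trans ((le_max_left _ _).trans (le_max_left _ _))
  have hYX : X₁ ≤ Y := by rw [hY]; exact (le_max_left _ _).trans (le_max_left _ _)
  have hYz : z1 ^ (1 + 1 : ℝ) ≤ Y := by rw [hY]; exact (le_max_right _ _).trans (le_max_left _ _)
  have hYB : (B : ℝ) + z + 1 ≤ Y := by rw [hY]; exact (le_max_left _ _).trans (le_max_right _ _)
  have hYe : 12 * ((B : ℝ) + 1) / ε ≤ Y := by rw [hY]; exact (le_max_right _ _).trans (le_max_right _ _)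
  refine ⟨Y ^ 2, fun G hG => ?_⟩
  have hGz : TInv d m r G z := PL.tinv_mono hG hz'
  obtain ⟨δ, hδt, hδ⟩ := hst z1 (by rw [hz1]; exact le_max_right _ _) G (PL.tinv_mono hGz (by rw [hz1]; exact le_max_left _ _))
  have hδ0 : 0 ≤ δ := by
    refine ge_of_tendsto hδt ?_
    filter_upwards [eventually_ge_atTop 0] with a ha
    exact fd_nonneg G ha
  refine ⟨δ, hδ0, fun x hx => ?_⟩
  have hYsq : Y ≤ Y ^ 2 := by nlinarith
  have hxY : Y ≤ x := hYsq.trans hx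
  have hx1 : 1 ≤ x := hY1.trans hxY
  have hx0 : 0 < x := by linarith
  have hsY : Y ≤ x ^ (1 / 2 : ℝ) := by
    rw [← Real.sqrt_eq_rpow]
    exact Real.le_sqrt_of_sq_le hx
  have hfx := hδ x (hYz.trans hxY)
  refine ⟨hfx.trans (by linarith), ?_⟩
  intro i j q hAd hij' b
  have hq0 : 0 < q := hAd.1
  have hqR : (0 : ℝ) < q := by exact_mod_cast hq0
  have hq1 : (1 : ℝ) ≤ q := by exact_mod_cast hq0
  have hij : (d : ℝ) ^ i * ((q : ℝ) * (m : ℝ) ^ j) ≤ x ^ θ := by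
    have := hij'
    push_cast at this
    exact this
  have hdi1 : (1 : ℝ) ≤ (d : ℝ) ^ i := one_le_pow₀ hd1
  have hmj1 : (1 : ℝ) ≤ (q : ℝ) * (m : ℝ) ^ j := one_le_mul_of_one_le_of_one_le hq1 (one_le_pow₀ hm1)
  have hxθ : 0 < x ^ θ := Real.rpow_pos_of_pos hx0 _
  have hdi : (d : ℝ) ^ i ≤ x ^ θ := le_trans (le_mul_of_one_le_right (by positivity) hmj1) hij
  have hmj : (q : ℝ) * (m : ℝ) ^ j ≤ x ^ θ := le_trans (le_mul_of_one_le_left (by positivity) hdi1) hij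
  have hmi : (m : ℝ) ^ i ≤ x ^ (θ * lam) := by
    have h1 := Real.log_le_log (by positivity) hdi
    rw [Real.log_pow, Real.log_rpow hx0] at h1
    rw [← Real.rpow_natCast, Real.rpow_def_of_pos (by linarith), Real.rpow_def_of_pos hx0]
    apply Real.exp_le_exp.2
    have h2 : Real.log m = lam * Real.log d := by rw [hlam]; field_simp
    rw [h2]
    nlinarith
  have hprod : x ^ (θ * lam) * x ^ θ = x ^ (θ * (lam + 1)) := by
    rw [← Real.rpow_add hx0]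
    congr 1
    ring
  obtain ⟨c, hcd⟩ : ∃ c, c = sg (wd d m r i b) := ⟨_, rfl⟩
  have hci : c ≤ i := by
    rw [hcd]
    have h1 := sg_le_length (wd d m r i b)
    rwa [length_of_mem_W (wd_mem (m := m) hd r i b)] at h1
  have hmc1 : (1 : ℝ) ≤ (m : ℝ) ^ c := one_le_pow₀ hm1
  have hmci : (m : ℝ) ^ c ≤ (m : ℝ) ^ i := pow_le_pow_right₀ hm1 hci
  -- the condition of `cls_shift`
  have hhalf : x ^ (θ * (lam + 1)) ≤ x ^ (1 / 2 : ℝ) := Real.rpow_le_rpow_of_exponent_le hx1 hθh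
  have hxx : x ^ (1 / 2 : ℝ) * x ^ (1 / 2 : ℝ) = x := by
    rw [← Real.rpow_add hx0]
    norm_num
  have hs0 : 0 < x ^ (1 / 2 : ℝ) := Real.rpow_pos_of_pos hx0 _
  have hmi2 : (m : ℝ) ^ i ≤ x ^ (1 / 2 : ℝ) := by
    refine hmi.trans (Real.rpow_le_rpow_of_exponent_le hx1 ?_)
    nlinarith
  have hdi2 : (d : ℝ) ^ i ≤ x ^ (1 / 2 : ℝ) := hdi.trans (Real.rpow_le_rpow_of_exponent_le hx1 hθ12)
  have hcond : (B : ℝ) * m ^ i + z * d ^ i < x := by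
    have h1 : (B : ℝ) * m ^ i ≤ B * x ^ (1 / 2 : ℝ) := mul_le_mul_of_nonneg_left hmi2 (Nat.cast_nonneg B)
    have h2 : z * (d : ℝ) ^ i ≤ z * x ^ (1 / 2 : ℝ) := mul_le_mul_of_nonneg_left hdi2 hz0
    have h3 : ((B : ℝ) + z + 1) * x ^ (1 / 2 : ℝ) ≤ x ^ (1 / 2 : ℝ) * x ^ (1 / 2 : ℝ) :=
      mul_le_mul_of_nonneg_right (hYB.trans hsY) hs0.le
    rw [hxx] at h3
    nlinarith
  have hsh := cls_shiftQ hd hdm hco hr hB hz0 hGz (i := i) (j := j) hq0 (b := b) (x := x) hcond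
  rw [← hcd] at hsh
  obtain ⟨y₁, hy₁⟩ : ∃ y₁ : ℝ, y₁ = x * (m : ℝ) ^ c / (d : ℝ) ^ i := ⟨_, rfl⟩
  rw [← hy₁] at hsh
  have hdi0 : (0 : ℝ) < (d : ℝ) ^ i := by positivity
  have hy₁x : x ^ (1 / 2 : ℝ) ≤ y₁ := by
    rw [hy₁, le_div_iff₀ hdi0]
    calc x ^ (1 / 2 : ℝ) * (d : ℝ) ^ i ≤ x ^ (1 / 2 : ℝ) * x ^ (1 / 2 : ℝ) :=
          mul_le_mul_of_nonneg_left hdi2 hs0.le
      _ = x := hxx
      _ ≤ x * (m : ℝ) ^ c := le_mul_of_one_le_right hx0.le hmc1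
  have hy₁Y : Y ≤ y₁ := hsY.trans hy₁x
  have hy₁1 : 1 ≤ y₁ := hY1.trans hy₁Y
  have hy₁0 : 0 < y₁ := by linarith
  -- the class modulo `m ^ (c + j)`
  have hmod : ((q * m ^ (c + j) : ℕ) : ℝ) ≤ y₁ ^ θ₂ := by
    have e0 : ((q * m ^ (c + j) : ℕ) : ℝ) = (m : ℝ) ^ c * ((q : ℝ) * (m : ℝ) ^ j) := by
      push_cast
      rw [pow_add]
      ring
    rw [e0]
    calc (m : ℝ) ^ c * ((q : ℝ) * (m : ℝ) ^ j) ≤ x ^ (θ * lam) * x ^ θ :=
          mul_le_mul (hmci.trans hmi) hmj (by positivity) (Real.rpow_nonneg hx0.le _)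
      _ = x ^ (θ * (lam + 1)) := hprod
      _ ≤ x ^ (θ₂ / 2) := Real.rpow_le_rpow_of_exponent_le hx1 hθ2
      _ = (x ^ (1 / 2 : ℝ)) ^ θ₂ := by
          rw [← Real.rpow_mul hx0.le]
          congr 1
          ring
      _ ≤ y₁ ^ θ₂ := Real.rpow_le_rpow hs0.le hy₁x hθ₂.le
  have h1 := hcl G hGz y₁ (hYX.trans hy₁Y) (c + j) q hAd hmod ((T d m r)^[i] b)
  have h2 := hδ y₁ (hYz.trans hy₁Y)
  -- from `x` to `y₁`
  have h3 : |fdc G (d ^ i * (q * m ^ j)) b x - fdc G (q * m ^ (c + j)) ((T d m r)^[i] b) y₁| ≤ ε / 3 := by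
    unfold fdc
    obtain ⟨A1, hA1⟩ : ∃ A1 : ℝ, A1 = ({n : ℤ | x ≤ n ∧ (n : ℝ) < 2 * x ∧
      ((d ^ i * (q * m ^ j) : ℕ) : ℤ) ∣ n - b ∧ n ∈ G}.ncard : ℝ) := ⟨_, rfl⟩
    obtain ⟨A2, hA2⟩ : ∃ A2 : ℝ, A2 = ({y : ℤ | y₁ ≤ y ∧ (y : ℝ) < 2 * y₁ ∧
      ((q * m ^ (c + j) : ℕ) : ℤ) ∣ y - (T d m r)^[i] b ∧ y ∈ G}.ncard : ℝ) := ⟨_, rfl⟩
    rw [← hA1, ← hA2] at hsh ⊢
    have e1 : A2 * ((q * m ^ (c + j) : ℕ) : ℝ) / y₁ = A2 * ((d ^ i * (q * m ^ j) : ℕ) : ℝ) / x := by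
      rw [hy₁]
      push_cast
      rw [pow_add]
      field_simp
    rw [e1, ← sub_div, ← sub_mul, abs_div, abs_mul, abs_of_pos hx0, div_le_iff₀ hx0]
    have hNc : |((d ^ i * (q * m ^ j) : ℕ) : ℝ)| = (d : ℝ) ^ i * ((q : ℝ) * (m : ℝ) ^ j) := by
      push_cast
      exact abs_of_pos (by positivity)
    rw [hNc]
    have h4 : 4 * ((B : ℝ) * (m : ℝ) ^ i + 1) ≤ 4 * ((B : ℝ) + 1) * x ^ (θ * lam) := by
      have : 1 ≤ x ^ (θ * lam) := Real.one_le_rpow hx1 (by positivity)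
      nlinarith [mul_le_mul_of_nonneg_left hmi (Nat.cast_nonneg B : (0 : ℝ) ≤ B)]
    calc |A1 - A2| * ((d : ℝ) ^ i * ((q : ℝ) * (m : ℝ) ^ j)) ≤ (4 * ((B : ℝ) + 1) * x ^ (θ * lam)) * x ^ θ :=
          mul_le_mul (hsh.trans h4) hij (by positivity) (by positivity)
      _ = 4 * ((B : ℝ) + 1) * x ^ (θ * (lam + 1)) := by rw [mul_assoc, hprod]
      _ ≤ 4 * ((B : ℝ) + 1) * x ^ (1 / 2 : ℝ) := mul_le_mul_of_nonneg_left hhalf (by positivity)
      _ ≤ ε / 3 * x ^ (1 / 2 : ℝ) * x ^ (1 / 2 : ℝ) := by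
          refine mul_le_mul_of_nonneg_right ?_ hs0.le
          have h5 := hYe.trans hsY
          rw [div_le_iff₀ hε] at h5
          linarith
      _ = ε / 3 * x := by rw [mul_assoc, hxx]
  rw [abs_le] at h1 h2 h3 ⊢
  constructor <;> linarith [h1.1, h1.2, h2.1, h2.2, h3.1, h3.2]

end Pool.Agent.Helper8.LQ
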