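import Pool.Agent.Helper52.Tao.R2
import Pool.Agent.Helper8.LQ.Idx

/-!
Few white points are rare, for general phases (`Helper52.Tao.U2a`).
-/

set_option autoImplicit false

namespace Pool.Agent.Helper8.LQ

open Pool.Agent.Helper68.Moeller
open Pool.Agent.Helper52.Tao hiding DW Deep White deep_run DW_unique deep_cluster exists_deep_window
  few_white_scales index_bound

/-- Few white points are rare. -/
theorem few_white_large {d m : ℕ} (hd : 2 ≤ d) (hdm : d < m) (hco : Nat.Coprime m d)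
    (hm : (m : ℝ) ≤ (d : ℝ) ^ ((d : ℝ) / ((d : ℝ) - 1))) {K₀ n₀ : ℕ} (hK : m ^ 2 + d ^ 2 < K₀)
    {θ a : ℝ} (ha0 : 0 < a) (hθ1 : a < θ) (hθ2 : 2 * (1 - 1 / (d : ℝ)) * θ < 1) :
    ∃ (J₀ : ℕ) (C : ℝ), 0 < C ∧ ∀ J N : ℕ, J₀ ≤ J → ((24 : ℝ) ^ J) ^ 64 ≤ N → ∀ Φ : ℕ → ℕ → ℝ,
      Ph (d ^ 2) m Φ → (∀ s v k : ℕ, s + n₀ ≤ N → Deep Φ (d ^ 2) K₀ v s k → (v : ℝ) ≤ a * N) →
      cW d (2 * ⌊θ * N⌋₊) (fun w => nwh (White Φ (d ^ 2) K₀) ⌊θ * N⌋₊ w 0 0 < J) ≤
        C * (d : ℝ) ^ (2 * ⌊θ * N⌋₊) * ((24 : ℝ) ^ J)⁻¹ ^ 3 := by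
  classical
  obtain ⟨C₁, hC₁, hloc⟩ := local_bound hd
  have hlogd : 0 < Real.log d := log_d_pos hd
  have hlogdm := log_m_gt hd hdm
  have hlogm : 0 < Real.log m := hlogd.trans hlogdm
  have hcrit := log_m_lt hd hdm hco hm
  have hd' : (2 : ℝ) ≤ d := by exact_mod_cast hd
  have hd0 : (0 : ℝ) < d := by linarith
  set p : ℝ := 1 - 1 / (d : ℝ) with hp
  clear_value p
  have hp0 : 0 ≤ p := by rw [hp, sub_nonneg, div_le_one hd0]; linarith
  have hp1 : p ≤ 1 := by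
    rw [hp]; have : 0 ≤ 1 / (d : ℝ) := by positivity
    linarith
  have hpm : p * Real.log m < Real.log d := by
    have : p * Real.log m = ((d : ℝ) - 1) * Real.log m / d := by rw [hp]; field_simp
    rw [this, div_lt_iff₀ hd0]; linarith
  have hmD : m ≤ d ^ 2 := by
    have h1 : (m : ℝ) ≤ (d : ℝ) ^ (2 : ℝ) := by
      refine hm.trans (Real.rpow_le_rpow_of_exponent_le (by linarith) ?_)
      rw [div_le_iff₀ (by linarith)]; linarith
    have h2 : (m : ℝ) ≤ (d : ℝ) ^ 2 := by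
      rwa [show ((2 : ℝ)) = ((2 : ℕ) : ℝ) by norm_num, Real.rpow_natCast] at h1
    exact_mod_cast h2
  have hθ0 : 0 < θ := ha0.trans hθ1
  set γ : ℝ := 2 * Real.log d - 2 * p * Real.log m with hγ
  clear_value γ
  have hγ0 : 0 < γ := by rw [hγ]; linarith
  set δ₀ : ℝ := (θ - a) / 4 with hδ₀
  clear_value δ₀
  have hδ₀0 : 0 < δ₀ := by rw [hδ₀]; linarith
  set b : ℝ := 1 - 2 * p * θ with hb
  clear_value b
  have hb0 : 0 < b := by rw [hb]; linarith
  -- the tail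
  obtain ⟨c₁, hc₁, hchern⟩ := chernoff hd (θ := 2 * θ) (a := 1 - b / 2) (by linarith) (by
    rw [hb, hp]; rw [hb, hp] at hb0; linarith)
  set C₅ : ℝ := 7 * Real.log m / γ with hC₅
  clear_value C₅
  have hC₅0 : 0 < C₅ := by rw [hC₅]; positivity
  -- a large parameter
  set Y : ℝ := (3 + C₅) / δ₀ + 3 / δ₀ + 4 / b + 2 * n₀ / b + 2 with hY
  clear_value Y
  obtain ⟨J₀, hJ₀⟩ : ∃ J₀ : ℕ, Y ≤ (24 : ℝ) ^ J₀ := by
    obtain ⟨n, hn⟩ := pow_unbounded_of_one_lt Y (by norm_num : (1 : ℝ) < 24)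
    exact ⟨n, hn.le⟩
  refine ⟨J₀ + 1, 1 / c₁ + (4 * θ + 6 * C₁ / Real.sqrt δ₀), by positivity, ?_⟩
  intro J N hJ hN Φ hΦ hND
  set X : ℝ := (24 : ℝ) ^ J with hX
  clear_value X
  have hJ1 : 1 ≤ J := by omega
  have hXY : Y ≤ X := by
    rw [hX]; exact hJ₀.trans (pow_le_pow_right₀ (by norm_num) (by omega))
  have hY1 : (3 + C₅) / δ₀ ≤ Y ∧ 3 / δ₀ ≤ Y ∧ 4 / b ≤ Y ∧ 2 * n₀ / b ≤ Y ∧ 2 ≤ Y := by
    have e1 : 0 ≤ (3 + C₅) / δ₀ := by positivity
    have e2 : 0 ≤ 3 / δ₀ := by positivity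
    have e3 : 0 ≤ 4 / b := by positivity
    have e4 : 0 ≤ 2 * n₀ / b := by positivity
    refine ⟨?_, ?_, ?_, ?_, ?_⟩ <;> rw [hY] <;> linarith
  obtain ⟨y1, y2, y3, y4, y5⟩ := hY1
  have hX2 : 2 ≤ X := y5.trans hXY
  have hX1 : 1 ≤ X := by linarith
  have hX0 : 0 < X := by linarith
  have hJX : (J : ℝ) ≤ X := by
    have : J < 24 ^ J := Nat.lt_pow_self (by norm_num)
    have : (J : ℝ) < (24 : ℝ) ^ J := by exact_mod_cast this
    linarith
  -- the square root of `N`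
  set s : ℝ := Real.sqrt N with hs
  clear_value s
  have hss : s * s = N := by rw [hs]; exact Real.mul_self_sqrt (by positivity)
  have hsX : X ^ 32 ≤ s := by
    rw [hs]
    apply Real.le_sqrt_of_sq_le
    calc (X ^ 32) ^ 2 = X ^ 64 := by ring
      _ ≤ (N : ℝ) := hN
  have hXp : ∀ k : ℕ, 1 ≤ k → k ≤ 32 → X ≤ X ^ k ∧ X ^ k ≤ s := fun k h1 h2 =>
    ⟨le_self_pow₀ hX1 (by omega), (pow_le_pow_right₀ hX1 h2).trans hsX⟩
  have hs1 : 1 ≤ s := by have := hXp 1 le_rfl (by norm_num); linarith [this.1, this.2]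
  have hs0 : 0 < s := by linarith
  have hN0 : (0 : ℝ) < N := by rw [← hss]; positivity
  have hsN : s ≤ N := by
    rw [← hss]
    calc s = 1 * s := (one_mul s).symm
      _ ≤ s * s := by gcongr
  have hQI : ((331776 : ℝ)) ^ (8 * J) = X ^ 32 := by
    rw [hX, ← pow_mul, show (331776 : ℝ) = 24 ^ 4 by norm_num, ← pow_mul]
    congr 1; ring
  have h24 : (24 : ℝ) ^ (8 * J) = X ^ 8 := by
    rw [hX, ← pow_mul]; congr 1; ring
  have h48 : (48 : ℝ) ^ J ≤ X ^ 2 := by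
    rw [hX, ← pow_mul, mul_comm J 2, pow_mul]
    exact pow_le_pow_left₀ (by norm_num) (by norm_num) _
  set R : ℝ := X ^ 2 * s with hR
  clear_value R
  have hR0 : 0 < R := by rw [hR]; positivity
  have hRs : s ≤ R := by
    have : 1 ≤ X ^ 2 := one_le_pow₀ hX1
    rw [hR]
    calc s = 1 * s := (one_mul s).symm
      _ ≤ X ^ 2 * s := by gcongr
  set L : ℕ := ⌊θ * N⌋₊ with hL
  clear_value L
  have hLle : (L : ℝ) ≤ θ * N := by rw [hL]; exact Nat.floor_le (by positivity)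
  set δ : ℕ := ⌊δ₀ * N⌋₊ with hδ
  clear_value δ
  have hδle : (δ : ℝ) ≤ δ₀ * N := by rw [hδ]; exact Nat.floor_le (by positivity)
  have hδlt : δ₀ * N < δ + 1 := by rw [hδ]; exact Nat.lt_floor_add_one _
  -- key inequalities
  have k1 : (3 + C₅) * X ^ 3 ≤ δ₀ * s := by
    have h1 : (3 + C₅) ≤ δ₀ * X := by
      have := y1.trans hXY
      rwa [div_le_iff₀ hδ₀0, mul_comm] at this
    calc (3 + C₅) * X ^ 3 ≤ (δ₀ * X) * X ^ 3 := by gcongr
      _ = δ₀ * X ^ 4 := by ring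
      _ ≤ δ₀ * s := by
        have := (hXp 4 (by norm_num) (by norm_num)).2
        gcongr
  have k2 : 3 ≤ δ₀ * s := by
    have h1 : 3 ≤ δ₀ * X := by
      have := y2.trans hXY
      rwa [div_le_iff₀ hδ₀0, mul_comm] at this
    have := (hXp 1 le_rfl (by norm_num)).2
    rw [pow_one] at this
    calc 3 ≤ δ₀ * X := h1
      _ ≤ δ₀ * s := by gcongr
  have k3 : 4 * X ^ 2 ≤ b * s := by
    have h1 : 4 ≤ b * X := by
      have := y3.trans hXY
      rwa [div_le_iff₀ hb0, mul_comm] at this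
    calc 4 * X ^ 2 ≤ (b * X) * X ^ 2 := by gcongr
      _ = b * X ^ 3 := by ring
      _ ≤ b * s := by
        have := (hXp 3 (by norm_num) (by norm_num)).2
        gcongr
  have k4 : 2 * (n₀ : ℝ) ≤ b * N := by
    have h1 : 2 * (n₀ : ℝ) ≤ b * X := by
      have := y4.trans hXY
      rw [div_le_iff₀ hb0] at this
      rw [mul_comm b X]; exact this
    have h2 := (hXp 1 le_rfl (by norm_num)).2
    rw [pow_one] at h2
    calc 2 * (n₀ : ℝ) ≤ b * X := h1
      _ ≤ b * N := by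
          have := h2.trans hsN
          gcongr
  -- consequences in terms of N
  have l1 : (3 + C₅) * X ^ 3 * s ≤ δ₀ * N := by
    rw [← hss]
    calc (3 + C₅) * X ^ 3 * s ≤ (δ₀ * s) * s := by gcongr
      _ = _ := by ring
  have l2 : 3 * s ≤ δ₀ * N := by
    rw [← hss]
    calc 3 * s ≤ (δ₀ * s) * s := by gcongr
      _ = _ := by ring
  have l3 : 4 * R ≤ b * N := by
    rw [← hss, hR]
    calc 4 * (X ^ 2 * s) = (4 * X ^ 2) * s := by ring
      _ ≤ (b * s) * s := by gcongr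
      _ = _ := by ring
  have hδ1 : 1 ≤ δ := by
    rw [hδ]; apply Nat.le_floor
    push_cast
    linarith
  have hJ0 : (0 : ℝ) < J := by exact_mod_cast hJ1
  set lam : ℕ := δ / J with hlam
  clear_value lam
  have hlamlt : (δ : ℝ) < J * (lam + 1) := by
    have : δ < J * (lam + 1) := by
      rw [hlam]; exact Nat.lt_mul_div_succ δ (by omega)
    exact_mod_cast this
  have hX3s : (J : ℝ) ≤ X ^ 3 * s := by
    have h1 : X ≤ X ^ 3 := (hXp 3 (by norm_num) (by norm_num)).1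
    calc (J : ℝ) ≤ X := hJX
      _ = X * 1 := (mul_one X).symm
      _ ≤ X ^ 3 * s := by gcongr
  have h1X3s : (1 : ℝ) ≤ X ^ 3 * s := by
    have h1 : (1 : ℝ) ≤ J := by exact_mod_cast hJ1
    linarith
  have hJlam : C₅ * X ^ 3 * s + J < δ := by
    have h1 : (3 + C₅) * X ^ 3 * s = 3 * (X ^ 3 * s) + C₅ * X ^ 3 * s := by ring
    rw [h1] at l1
    linarith
  have hlam1 : 1 ≤ lam := by
    rw [hlam]
    apply (Nat.one_le_div_iff (by omega)).2
    have : (J : ℝ) ≤ δ := by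
      have : 0 ≤ C₅ * X ^ 3 * s := by positivity
      linarith
    exact_mod_cast this
  have hlamδ : J * lam ≤ δ := by rw [hlam]; exact Nat.mul_div_le δ J
  have hRJ : R * J ≤ X ^ 3 * s := by
    rw [hR]
    calc X ^ 2 * s * J ≤ X ^ 2 * s * X := by gcongr
      _ = _ := by ring
  have hgam : 7 * R * Real.log m ≤ ((lam - 1 : ℕ) : ℝ) * γ := by
    rw [Nat.cast_sub hlam1]
    push_cast
    have h1 : (7 * R * Real.log m / γ) * J ≤ (lam - 1) * J := by
      have h2 : (7 * R * Real.log m / γ) * J = C₅ * (R * J) := by rw [hC₅]; ring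
      rw [h2]
      have h3 : C₅ * (R * J) ≤ C₅ * (X ^ 3 * s) := by gcongr
      have h4 : C₅ * (X ^ 3 * s) = C₅ * X ^ 3 * s := by ring
      have h5 : ((lam : ℝ) - 1) * J = J * (lam + 1) - 2 * J := by ring
      rw [h5]
      have h6 : (3 + C₅) * X ^ 3 * s = 3 * (X ^ 3 * s) + C₅ * X ^ 3 * s := by ring
      rw [h6] at l1
      linarith
    have h4 := le_of_mul_le_mul_right h1 hJ0
    rwa [div_le_iff₀ hγ0] at h4
  have hQL : ∀ v : ℕ, (v : ℝ) ≤ a * N → 2 * δ + v + 1 + 331776 ^ (8 * J) ≤ L := by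
    intro v h1
    rw [hL]
    apply Nat.le_floor
    push_cast
    rw [hQI]
    have h2 : θ * N = 4 * (δ₀ * N) + a * N := by rw [hδ₀]; ring
    rw [h2]
    linarith
  have hbound := few_white_bound hd hdm hmD hco hΦ hC₁ hloc (n₀ := n₀) hK (L := L) (w₀ := J) (I := 8 * J)
    (δ := δ) (lam := lam) (R := R) (N := N) hR0 hδ1 hlam1 hlamδ
    (hQL 0 (by push_cast; positivity)) (by
      intro v hv
      rw [hQI]
      have hv' : ((lam - 1 : ℕ) : ℝ) ≤ v := by exact_mod_cast hv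
      have h1 : ((lam - 1 : ℕ) : ℝ) * γ ≤ v * γ := by gcongr
      have h2 : X ^ 32 ≤ R := hsX.trans hRs
      have h3 : (2 * p + 2 * R + 2 * X ^ 32 + 1) * Real.log m ≤ 7 * R * Real.log m := by
        have h4 : 2 * p + 2 * R + 2 * X ^ 32 + 1 ≤ 7 * R := by linarith
        gcongr
      have h4 : (2 * p * (v + 1) + 2 * R + 2 * X ^ 32 + 1) * Real.log m =
          2 * p * v * Real.log m + (2 * p + 2 * R + 2 * X ^ 32 + 1) * Real.log m := by ring
      have h5 : (v : ℝ) * (2 * Real.log d) = 2 * p * v * Real.log m + v * γ := by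
        rw [hγ]; ring
      rw [← hp, h4, h5]
      linarith) (fun g₁ _ s' v hs' hv => hQL v (hND s' v g₁ hs' hv))
  -- the tail
  have htail : cW d (2 * L) (fun w => N < sg w + n₀) ≤
      (d : ℝ) ^ (2 * L) * ((1 / c₁) * X⁻¹ ^ 3) := by
    have h1 := hchern N (2 * L) (by push_cast; linarith)
    have h2 : cW d (2 * L) (fun w => N < sg w + n₀) ≤
        cW d (2 * L) (fun w => (1 - b / 2) * N ≤ (sg w : ℝ)) := by
      refine cW_mono fun w _ hw => ?_
      have : (N : ℝ) < sg w + n₀ := by exact_mod_cast hw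
      linarith
    refine h2.trans (h1.trans ?_)
    refine mul_le_mul_of_nonneg_left ?_ (by positivity)
    have h3 : Real.exp (-(c₁ * N)) ≤ 1 / (c₁ * N) := by
      rw [Real.exp_neg, one_div]
      apply inv_anti₀ (by positivity)
      linarith [Real.add_one_le_exp (c₁ * N)]
    refine h3.trans ?_
    rw [one_div, mul_inv, one_div]
    refine mul_le_mul_of_nonneg_left ?_ (by positivity)
    rw [inv_pow]
    apply inv_anti₀ (by positivity)
    have := (hXp 3 (by norm_num) (by norm_num)).2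
    linarith
  refine hbound.trans ?_
  have hmain : 2 * (2 * L / R ^ 2) +
        C₁ * (2 * R + 3 + 331776 ^ (8 * J)) * 48 ^ J / 24 ^ (8 * J) / Real.sqrt (2 * δ) ≤
      (4 * θ + 6 * C₁ / Real.sqrt δ₀) * X⁻¹ ^ 4 := by
    rw [hQI, h24, add_mul]
    have hXi : X⁻¹ ^ 4 = (X ^ 4)⁻¹ := by rw [inv_pow]
    rw [hXi]
    apply add_le_add
    · have h1 : 2 * (2 * L / R ^ 2) ≤ 2 * (2 * (θ * N) / R ^ 2) := by gcongr
      refine h1.trans (le_of_eq ?_)
      rw [hR, ← hss]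
      field_simp
      ring
    · have h1 : 2 * R + 3 + X ^ 32 ≤ 6 * R := by
        have : X ^ 32 ≤ R := hsX.trans hRs
        linarith
      have h2 : Real.sqrt δ₀ * s ≤ Real.sqrt (2 * δ) := by
        rw [hs, ← Real.sqrt_mul hδ₀0.le]
        apply Real.sqrt_le_sqrt
        linarith
      have h3 : 0 < Real.sqrt δ₀ * s := by positivity
      calc C₁ * (2 * R + 3 + X ^ 32) * 48 ^ J / X ^ 8 / Real.sqrt (2 * δ)
          ≤ C₁ * (6 * R) * X ^ 2 / X ^ 8 / (Real.sqrt δ₀ * s) := by gcongr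
        _ = 6 * C₁ / Real.sqrt δ₀ * (X ^ 4)⁻¹ := by
            rw [hR]
            field_simp
  have h5 : (J : ℝ) * ((d : ℝ) ^ (2 * L) * (2 * (2 * L / R ^ 2) +
        C₁ * (2 * R + 3 + 331776 ^ (8 * J)) * 48 ^ J / 24 ^ (8 * J) / Real.sqrt (2 * δ))) ≤
      (d : ℝ) ^ (2 * L) * ((4 * θ + 6 * C₁ / Real.sqrt δ₀) * X⁻¹ ^ 3) := by
    calc _ ≤ X * ((d : ℝ) ^ (2 * L) * ((4 * θ + 6 * C₁ / Real.sqrt δ₀) * X⁻¹ ^ 4)) := by
          gcongr
      _ = _ := by
          field_simp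
  calc _ ≤ (d : ℝ) ^ (2 * L) * ((1 / c₁) * X⁻¹ ^ 3) +
        (d : ℝ) ^ (2 * L) * ((4 * θ + 6 * C₁ / Real.sqrt δ₀) * X⁻¹ ^ 3) := add_le_add htail h5
    _ = _ := by ring

end Pool.Agent.Helper8.LQ
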